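import Pool.Agent.H318.BQ.Stm
import Pool.Graph.R_seed8.Y208.BH.Asm1
import Pool.Graph.R_seed8.Y497.BH.Nuh

/-!
# Project BQ: assembly, the unstable `K_2`
-/

set_option autoImplicit false

open scoped commutatorElement TensorProduct

namespace Pool.Agent.H318.BQ

open Y208.BH

theorem some_id {R I : Type} [Ring R] (f : R →ₙ+* R) (z : SU R I) :
    mapSU some (Option.some_injective I) f z = io R I (mapSU id Function.injective_id f z) := by
  have : mapSU some (Option.some_injective I) f =
      (io R I).comp (mapSU id Function.injective_id f) := by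
    apply PresentedGroup.ext
    rintro ⟨i, j, r⟩
    have h1 : mapSU some (Option.some_injective I) f (xs i j r) = xs (some i) (some j) (f r) :=
      mapSU_xs some (Option.some_injective I) f i j r
    have h2 : mapSU id Function.injective_id f (xs i j r) = xs i j (f r) :=
      mapSU_xs id Function.injective_id f i j r
    have h3 : io R I (xs i j (f r)) = xs (some i) (some j) (f r) :=
      mapSU_xs some (Option.some_injective I) (NonUnitalRingHom.id R) i j (f r)
    show mapSU some (Option.some_injective I) f (xs i j r) =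
      io R I (mapSU id Function.injective_id f (xs i j r))
    rw [h1, h2, h3]
  rw [this]; rfl

theorem io_xs {R I : Type} [Ring R] (i j : I) (r : R) :
    io R I (xs i j r) = xs (some i) (some j) r :=
  mapSU_xs some (Option.some_injective I) (NonUnitalRingHom.id R) i j r

/-- the image of `K_2` is trivial after adding one index -/
theorem van (hC : S_CEN) (hJ : S_CNJ) (hS : S_SUM) (R I : Type) [Ring R] [Finite I]
    (hI : ∀ i j : I, ∃ k, k ≠ i ∧ k ≠ j) (hsw : SwR R) (z : SU R I) (hz : rho R R I z = 1) :
    io R I z = 1 := by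
  obtain ⟨e, e', s, s', Φ, ee, es, se, Φl, Φr, Φe⟩ := hsw
  have hc : ∀ y, Commute (io R I z) y := hC R I z hz
  let f : R →ₙ+* R :=
    { toFun := fun a => e * a * e'
      map_zero' := by simp
      map_add' := fun a b => by rw [mul_add, add_mul]
      map_mul' := fun a b => by
        calc e * (a * b) * e' = e * a * 1 * b * e' := by simp [mul_assoc]
          _ = e * a * (e' * e) * b * e' := by rw [ee]
          _ = e * a * e' * (e * b * e') := by simp only [mul_assoc] }
  let g : R →ₙ+* R :=
    { toFun := fun a => s * Φ a * s'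
      map_zero' := by simp
      map_add' := fun a b => by rw [map_add, mul_add, add_mul]
      map_mul' := fun a b => by
        calc s * Φ (a * b) * s' = s * (Φ a * (s' * s)) * Φ b * s' := by
              rw [map_mul, Φr]; simp only [mul_assoc]
          _ = s * Φ a * s' * (s * Φ b * s') := by simp only [mul_assoc] }
  have hfg := hS R I hI f g Φ (s * s') (fun a => Φe a)
    (fun a b => by
      show e * a * e' * (s * Φ b * s') = 0
      calc e * a * e' * (s * Φ b * s') = e * a * (e' * s) * Φ b * s' := by simp only [mul_assoc]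
        _ = 0 := by rw [es]; simp)
    (fun a b => by
      show s * Φ a * s' * (e * b * e') = 0
      calc s * Φ a * s' * (e * b * e') = s * Φ a * (s' * e) * b * e' := by simp only [mul_assoc]
        _ = 0 := by rw [se]; simp)
    (fun a => by
      show s * Φ a * s' * (s * s') = s * Φ a * s'
      calc s * Φ a * s' * (s * s') = s * (Φ a * (s' * s)) * s' := by simp only [mul_assoc]
        _ = _ := by rw [Φr])
    (fun a => by
      show s * s' * (e * a * e') = 0
      calc s * s' * (e * a * e') = s * (s' * e) * a * e' := by simp only [mul_assoc]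
        _ = 0 := by rw [se]; simp) z
  obtain ⟨h, hh⟩ := hJ R I e e' (NonUnitalRingHom.id R) f (fun r => by simp [ee])
    (fun r => by simp [ee]) (fun r => rfl) z
  rw [some_id, some_id, mapSU_id, ← (hc h).eq, mul_inv_cancel_right] at hh
  obtain ⟨h', hh'⟩ := hJ R I s s' Φ g Φl Φr (fun r => rfl) z
  have hc' : ∀ y, Commute (io R I (mapSU id Function.injective_id Φ z)) y :=
    hC R I _ (Pool.Agent.Y497.BH.t_NUH R R I Φ z hz)
  rw [some_id, some_id, ← (hc' h').eq, mul_inv_cancel_right] at hh'
  have h3 := congrArg (io R I) hfg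
  rw [map_mul, hh, hh'] at h3
  exact mul_eq_right.1 h3.symm

/-- general linear = elementary -/
theorem gle (hR : S_GLR) (hD : S_GLD) (R I : Type) [Ring R] [Fintype I] [DecidableEq I]
    (hsw : SwR R) (hpi : PI R) (h1 : (1 : R) ≠ 0) (hI : 2 ≤ Fintype.card I)
    (g : (Matrix I I R)ˣ) : ∃ z : SU R I, mt R I z = g := by
  have hne : Nonempty I := Fintype.card_pos_iff.1 (by omega)
  obtain ⟨i0⟩ := hne
  obtain ⟨z, z', u, h⟩ := hR R I hpi h1 hI i0 g
  obtain ⟨y, hy⟩ := hD R I hsw hI i0 u
  refine ⟨z⁻¹ * y * z'⁻¹, ?_⟩
  rw [map_mul, map_mul, map_inv, map_inv, hy, ← h]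
  group

end Pool.Agent.H318.BQ
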