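import Pool.Agent.H318.BQ.Asm1
import Pool.Graph.R_seed8.Y455.BH.Basic

/-!
# Project BQ: assembly, the Steinberg group is the general linear group
-/

set_option autoImplicit false

open scoped commutatorElement TensorProduct

namespace Pool.Agent.H318.BQ

open Y208.BH Pool.Agent.Y455.BH

section
variable {R J : Type} [Ring R] [Fintype J] [DecidableEq J]

/-- the action of the Steinberg group on column vectors -/
noncomputable def av (t : SU R J) (v : J → R) : J → R := (mt R J t).val.mulVec v

theorem av_one (v : J → R) : av (1 : SU R J) v = v := by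
  rw [av, map_one, Units.val_one, Matrix.one_mulVec]

theorem av_mul (t t' : SU R J) (v : J → R) : av (t * t') v = av t (av t' v) := by
  rw [av, av, av, map_mul, Units.val_mul, Matrix.mulVec_mulVec]

/-- the action as an instance -/
@[reducible] noncomputable def actV (R J : Type) [Ring R] [Fintype J] [DecidableEq J] :
    MulAction (SU R J) (J → R) where
  smul t v := av t v
  one_smul v := av_one v
  mul_smul t t' v := av_mul t t' v

theorem av_xs {i j : J} (h : i ≠ j) (r : R) (v : J → R) :
    av (xs i j r) v = v + Pi.single i (r * v j) := by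
  rw [av, mt_xs, tv_val h, Matrix.add_mulVec, Matrix.one_mulVec]
  congr 1
  funext k
  simp only [Matrix.mulVec, dotProduct, Matrix.single_apply, Pi.single_apply]
  by_cases hk : i = k
  · subst hk
    simp [Finset.sum_ite_eq]
  · simp [hk, Ne.symm hk]

theorem av_xs_single {i j k : J} (h : i ≠ j) (r : R) :
    av (xs i j r) (Pi.single k 1) = Pi.single k 1 + (if j = k then Pi.single i r else 0) := by
  rw [av_xs h]
  congr 1
  by_cases hk : j = k
  · subst hk
    simp
  · simp [hk]

theorem two_single (h2 : (2 : R) = 0) (i : J) : (Pi.single i (1 : R) : J → R) + Pi.single i 1 = 0 := by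
  rw [← Pi.single_add, one_add_one_eq_two, h2, Pi.single_zero]

theorem av_add (t : SU R J) (v v' : J → R) : av t (v + v') = av t v + av t v' := by
  rw [av, av, av, Matrix.mulVec_add]

theorem av_wy_a (h2 : (2 : R) = 0) {a b : J} (h : a ≠ b) :
    av (wy a b) (Pi.single a (1 : R)) = Pi.single b 1 := by
  rw [wy, av_mul, av_mul, av_xs_single h, if_neg h.symm, add_zero, av_xs_single h.symm,
    if_pos rfl, av_add, av_xs_single h, av_xs_single h, if_neg h.symm, if_pos rfl, add_zero,
    add_left_comm, two_single h2, add_zero]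

theorem av_wy_c {a b c : J} (h : a ≠ b) (ha : c ≠ a) (hb : c ≠ b) :
    av (wy a b) (Pi.single c (1 : R)) = Pi.single c 1 := by
  rw [wy, av_mul, av_mul, av_xs_single h, if_neg hb.symm, add_zero, av_xs_single h.symm,
    if_neg ha.symm, add_zero, av_xs_single h, if_neg hb.symm, add_zero]

theorem row_one (t : SU R J) (a : J) :
    ∑ j, (mt R J t⁻¹).val a j * (mt R J t).val j a = 1 := by
  have h : (mt R J t⁻¹).val * (mt R J t).val = 1 := by
    rw [← Units.val_mul, ← map_mul, inv_mul_cancel, map_one, Units.val_one]
  have h2 := congrFun (congrFun h a) a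
  rw [Matrix.mul_apply, Matrix.one_apply_eq] at h2
  exact h2

theorem col_eq (g : SU R J) (j : J) : av g (Pi.single j 1) = fun i => (mt R J g).val i j := by
  funext i
  rw [av]
  simp [Matrix.mulVec_single]

end

section
variable {R I : Type} [Ring R] [Fintype I] [DecidableEq I]

theorem PP_fix : ∀ p ∈ PP R I, av p (Pi.single (none : Option I) (1 : R)) = Pi.single none 1 := by
  intro p hp
  let _ := actV R (Option I)
  have h : PP R I ≤ MulAction.stabilizer (SU R (Option I))
      (Pi.single none 1 : Option I → R) := by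
    rw [PP, Subgroup.closure_le]
    rintro _ ⟨i, j, r, hij, hj, rfl⟩
    show av (xs i j r) (Pi.single none 1) = Pi.single none 1
    rw [av_xs_single hij, if_neg hj, add_zero]
  exact h hp

theorem PQ_le : PQ R I ≤ PP R (Option I) := by
  rw [PQ, Subgroup.closure_le]
  rintro _ ⟨i, j, r, hij, hj, -, rfl⟩
  exact Subgroup.subset_closure ⟨i, j, r, hij, hj, rfl⟩

theorem PQ_conj (hW : S_WEY) (h2 : (2 : R) = 0)
    (hI : ∀ i j : Option (Option I), ∃ k, k ≠ i ∧ k ≠ j) :
    ∀ q ∈ PQ R I, (wy none (some none) : SU R (Option (Option I))) * q * wy none (some none) ∈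
      PP R (Option I) := by
  have hw := hW R (Option (Option I)) h2 hI none (some none) (by simp)
  obtain ⟨hww, hconj, -⟩ := hw
  intro q hq
  have h : PQ R I ≤ (PP R (Option I)).comap
      (MulAut.conj (wy none (some none) : SU R (Option (Option I)))).toMonoidHom := by
    rw [PQ, Subgroup.closure_le]
    rintro _ ⟨i, j, r, hij, hj, hj', rfl⟩
    show wy none (some none) * xs i j r * (wy none (some none))⁻¹ ∈ PP R (Option I)
    rw [inv_eq_of_mul_eq_one_left hww, hconj i j r hij]
    refine Subgroup.subset_closure ⟨_, _, r, ?_, ?_, rfl⟩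
    · exact fun h => hij ((Equiv.swap none (some none)).injective h)
    · rw [Equiv.swap_apply_of_ne_of_ne hj hj']
      exact hj
  have h3 := h hq
  have h4 : (wy none (some none) : SU R (Option (Option I))) * q * (wy none (some none))⁻¹ ∈
    PP R (Option I) := h3
  rwa [inv_eq_of_mul_eq_one_left hww] at h4

end

/-- **The unstable `K_2` is trivial**: the Steinberg group is isomorphic to its image. -/
theorem k2 (hMTR : S_MTR) (hC : S_CEN) (hJ : S_CNJ) (hS : S_SUM) (hPK : S_PKT) (hGR : S_GLR)
    (hGD : S_GLD) (hST : S_STB) (hCO : S_COL) (hGP : S_GPV) (hPT : S_PTH) (hW : S_WEY)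
    (hGE : S_GEN) (R I : Type) [Ring R] [Fintype I] [DecidableEq I] (hR : Nice R)
    (hI : 3 ≤ Fintype.card I) : Function.Injective (mt R (Option (Option I))) := by
  classical
  have third : ∀ (K : Type) [Fintype K], 3 ≤ Fintype.card K → ∀ i j : K, ∃ k, k ≠ i ∧ k ≠ j := by
    intro K _ hK i j
    by_contra hcon
    push Not at hcon
    have h1 : (Finset.univ : Finset K) ⊆ {i, j} := by
      intro k _
      rw [Finset.mem_insert, Finset.mem_singleton]
      by_cases h : k = i
      · exact Or.inl h
      · exact Or.inr (hcon k h)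
    have h2 := Finset.card_le_card h1
    have h3 : ({i, j} : Finset K).card ≤ 2 := Finset.card_le_two
    rw [Finset.card_univ] at h2
    omega
  have c1 : 3 ≤ Fintype.card (Option I) := by rw [Fintype.card_option]; omega
  have c2 : 3 ≤ Fintype.card (Option (Option I)) := by rw [Fintype.card_option]; omega
  obtain ⟨i0, i1, h01⟩ := Fintype.exists_pair_of_one_lt_card (α := I) (by omega)
  have hPK' : ∀ p ∈ PP R (Option I), mt R (Option (Option I)) p = 1 → p = 1 :=
    hPK R (Option I) fun z hz =>
      van hC hJ hS R (Option I) (third _ c1) hR.sw z ((hMTR R (Option I) z).1 hz)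
  have hGLE : ∀ g : (Matrix I I R)ˣ, ∃ z : SU R I, mt R I z = g :=
    gle hGR hGD R I hR.sw hR.pi hR.nt (by omega)
  let J := Option (Option I)
  let w : SU R J := wy none (some none)
  let w1 : SU R J := wy (some none) (some (some i0))
  have n01 : (none : J) ≠ some none := by simp
  have n02 : (none : J) ≠ some (some i0) := by simp
  have n12 : (some none : J) ≠ some (some i0) := by simp
  obtain ⟨hww, -, hbr⟩ := hW R J hR.two (third _ c2) none (some none) n01
  obtain ⟨hb1, hb2⟩ := hbr (some (some i0)) n02.symm n12.symm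
  obtain ⟨hw1w1, -, -⟩ := hW R J hR.two (third _ c2) (some none) (some (some i0)) n12
  have hw1P : w1 ∈ PP R (Option I) := by
    refine Subgroup.mul_mem _ (Subgroup.mul_mem _ ?_ ?_) ?_ <;>
    refine Subgroup.subset_closure ⟨_, _, _, ?_, ?_, rfl⟩ <;> simp
  let x0 : J → R := Pi.single none 1
  have hwx : av w x0 = Pi.single (some none) 1 := av_wy_a hR.two n01
  let _ := actV R J
  have hkey : ∀ t : SU R J, av t x0 = x0 → t ∈ PP R (Option I) := by
    refine hPT (SU R J) (J → R) (PP R (Option I)) x0 w
      (fun t u => ∃ x : R, x * (av t⁻¹ u) (some (some i0)) = 1)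
      PP_fix hww ?_ ?_ ?_ ?_
    · exact hGE R I ⟨i0⟩ hR.two
    · intro p hp hpw
      have hpw' : av p (av w x0) = av w x0 := hpw
      rw [hwx] at hpw'
      have f1 : Fx (mt R J p).val none := by
        intro i
        have h := congrFun (col_eq p (none : J)) i
        rw [PP_fix p hp] at h
        rw [← h, Pi.single_apply]
      have f2 : Fx (mt R J p).val (some none) := by
        intro i
        have h := congrFun (col_eq p (some none : J)) i
        rw [hpw'] at h
        rw [← h, Pi.single_apply]
      obtain ⟨q, hq, hqp⟩ := hST R I hGLE (mt R J p) f1 f2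
      have h3 : p * q⁻¹ = 1 := hPK' _ (Subgroup.mul_mem _ hp (Subgroup.inv_mem _ (PQ_le hq))) (by
        rw [map_mul, map_inv, hqp, mul_inv_cancel])
      have h4 : p = q := by rwa [mul_inv_eq_one] at h3
      rw [h4]
      exact PQ_conj hW hR.two (third _ c2) q hq
    · intro l
      obtain ⟨u, hu⟩ := hGP R J hR.pi hR.gp hR.nt
        (l.map fun t => fun j => (mt R J t⁻¹).val (some (some i0)) j) (by
          intro ρ hρ
          obtain ⟨t, -, rfl⟩ := List.mem_map.1 hρ
          refine ⟨fun j => (mt R J t).val j (some (some i0)), ?_⟩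
          exact row_one t (some (some i0)))
      refine ⟨u, fun t ht => ?_⟩
      obtain ⟨x, hx⟩ := hu _ (List.mem_map.2 ⟨t, ht, rfl⟩)
      exact ⟨x, hx⟩
    · rintro t u ⟨x, hx⟩
      obtain ⟨q, hq, hqv⟩ := hCO R I i0 i1 h01 (av t⁻¹ u) ⟨x, hx⟩
      have hqv' : av q (Pi.single (some (some i0)) 1) = av t⁻¹ u := by
        rw [col_eq]
        exact funext hqv
      have htu : av t (av t⁻¹ u) = u := by
        rw [← av_mul, mul_inv_cancel, av_one]
      have hww' : w * w = 1 := hww
      have hw1w1' : w1 * w1 = 1 := hw1w1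
      have hw1v : av w1 (Pi.single (some none) 1) = Pi.single (some (some i0)) 1 :=
        av_wy_a hR.two n12
      have hwc : av w (Pi.single (some (some i0)) (1 : R)) = Pi.single (some (some i0)) 1 :=
        av_wy_c n01 n02.symm n12.symm
      refine ⟨q * w1, Subgroup.mul_mem _ (PQ_le hq) hw1P, w * q * w * w1,
        Subgroup.mul_mem _ (PQ_conj hW hR.two (third _ c2) q hq) hw1P, ?_, ?_, ?_⟩
      · show av (t * (q * w1) * w) x0 = u
        rw [av_mul, hwx, av_mul, av_mul, hw1v, hqv', htu]
      · show av (t * w * (w * q * w * w1) * w) x0 = u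
        have e : t * w * (w * q * w * w1) * w = t * (w * w) * q * w * w1 * w := by group
        rw [e, hww', mul_one, av_mul, hwx, av_mul, hw1v, av_mul, hwc, av_mul, hqv', htu]
      · have e : (q * w1 * w)⁻¹ * (w * (w * q * w * w1) * w) =
            w⁻¹ * w1⁻¹ * q⁻¹ * (w * w) * q * (w * w1 * w) := by group
        have e1 : w⁻¹ = w := inv_eq_of_mul_eq_one_left hww'
        have e2 : w1⁻¹ = w1 := inv_eq_of_mul_eq_one_left hw1w1'
        have hb1' : w * w1 * w = wy none (some (some i0)) := hb1
        have hb2' : w1 * w * w1 = wy none (some (some i0)) := hb2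
        rw [e, hww', mul_one, e1, e2]
        have e3 : w * w1 * q⁻¹ * q * (w * w1 * w) = w * w1 * (w * w1 * w) := by group
        rw [e3, hb1', ← hb2']
        have e4 : w * w1 * (w1 * w * w1) = w * (w1 * w1) * w * w1 := by group
        rw [e4, hw1w1', mul_one, hww', one_mul]
        exact hw1P
  rw [injective_iff_map_eq_one]
  intro z hz
  refine hPK' z (hkey z ?_) hz
  rw [av, hz, Units.val_one, Matrix.one_mulVec]

end Pool.Agent.H318.BQ
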