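import Pool.Agent.H318.BQ.Stm
import Pool.Graph.R_seed8.Y208.BH.Final
import Pool.Agent.H318.WP.Ring

/-!
# Project BQ: assembly, presentations of the Steinberg group over free algebras; the ring
-/

set_option autoImplicit false

open scoped commutatorElement TensorProduct

namespace Pool.Agent.H318.BQ

open Y208.BH Y208.LQ Pool.SF Pool.Agent.H318.WP

theorem ltf (hA : S_LEA) (hB : S_LEB) : S_LTF := by
  intro A I Γ _ _ hI y hy
  obtain ⟨X, hX, h1, h2⟩ := hA A I Γ hI y hy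
  obtain ⟨x, hx, h3⟩ := hB (FreeMonoid A) I Γ X hX
  let e := (FreeAlgebra.equivMonoidAlgebraFreeMonoid (R := ZMod 2) (X := A))
  refine ⟨fun i j r => x i j (e r), ?_, ?_, ?_⟩
  · refine ⟨fun i j h a b => ?_, fun i j k h1 h2 h3 a b => ?_, fun i j k l h1 h2 h3 h4 a b => ?_⟩
    · rw [map_add]; exact hx.add i j h _ _
    · rw [map_mul]; exact hx.mul i j k h1 h2 h3 _ _
    · exact hx.comm i j k l h1 h2 h3 h4 _ _
  · intro i j h
    rw [← h1 i j h, ← h3 i j 1 h, map_one]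
    show x i j (e 1) = x i j 1
    rw [map_one]
  · intro i j a h
    rw [← h2 i j a h, ← h3 i j _ h]
    congr 1
    simp [e, FreeAlgebra.equivMonoidAlgebraFreeMonoid]

/-- The simple ring: every finitely generated group with computable word problem is a
subgroup of the group of units of a finitely presented central simple algebra with a swindle. -/
theorem ring_one (hJ1a : S_J1a) (hJ1b : S_J1b)
    (hSIMP : S_SIMP) (hTFP : S_TFP) (hCEN : Y208.LQ.S_CEN) (n : ℕ) (rels : Set (FreeGroup (Fin n)))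
    (hwp : ComputablePred (fun w : List (Fin n × Bool) =>
      PresentedGroup.mk rels (FreeGroup.mk w) = 1)) :
    ∃ (R₁ : Type) (_ : Ring R₁) (_ : Algebra (ZMod 2) R₁), FinPres (ZMod 2) R₁ ∧
      Nonempty (Sw (ZMod 2) R₁) ∧ IsSimpleRing R₁ ∧ Algebra.IsCentral (ZMod 2) R₁ ∧
      ∃ θ : PresentedGroup rels →* R₁, Function.Injective θ := by
  obtain ⟨m, a, hgen, hrec⟩ := grp_set n rels hwp
  obtain ⟨rel, hrel, hs, hc, hO, φ, hφ⟩ := partI a hgen hrec
  obtain ⟨S, _, _, hSfp, hSs, hSc, ψ, hψ⟩ := hCEN (ZMod 2) (GD m) rel hrel hs hc hO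
  obtain ⟨hBfp, ⟨w⟩⟩ := hJ1a (ZMod 2)
  have : Nontrivial (BA (ZMod 2)) := hJ1b (ZMod 2)
  obtain ⟨hBs, hBc⟩ := hSIMP (ZMod 2) (BA (ZMod 2)) w
  have : Algebra.IsCentral (ZMod 2) (BA (ZMod 2)) := isCentral_of hBc
  have : Algebra.IsCentral (ZMod 2) S := isCentral_of hSc
  have hRs : IsSimpleRing (BA (ZMod 2) ⊗[ZMod 2] S) := Pool.Agent.Helper18.Br.isSimple_tensor
  have hRc : Algebra.IsCentral (ZMod 2) (BA (ZMod 2) ⊗[ZMod 2] S) :=
    Pool.Agent.Helper18.Br.isCentral_tensor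
  have hAfp := hTFP (ZMod 2) (BA (ZMod 2)) S hBfp hSfp
  obtain ⟨wB⟩ := sw_of_SwA w
  obtain ⟨wA⟩ := sw_tensor (S := S) wB
  let χ1 : S →ₐ[ZMod 2] BA (ZMod 2) ⊗[ZMod 2] S := Algebra.TensorProduct.includeRight
  have hχ1 : Function.Injective χ1 := RingHom.injective χ1.toRingHom
  let Θ := χ1.comp (ψ.comp φ)
  have hΘ : Function.Injective Θ := hχ1.comp (hψ.comp hφ)
  let θ0 : PresentedGroup rels →* (BA (ZMod 2) ⊗[ZMod 2] S) :=
    (Θ : _ →* _).comp (MonoidAlgebra.of (ZMod 2) (PresentedGroup rels))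
  refine ⟨_, inferInstance, inferInstance, hAfp, ⟨wA⟩, hRs, hRc, θ0, ?_⟩
  intro g g' h
  exact MonoidAlgebra.of_injective (hΘ h)

end Pool.Agent.H318.BQ
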