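import Pool.Agent.H318.BQ.Stm

/-!
# Project BQ, task LVA: the Leavitt algebra (helper227)
-/

set_option autoImplicit false

namespace Pool.Agent.H318.BQ.T_LVA

open FreeAlgebra

/-- the free algebra -/
abbrev FA : Type := FreeAlgebra (ZMod 2) (Fin 4)

/-- the generators -/
noncomputable def gx (i : Fin 4) : FA := FreeAlgebra.ι (ZMod 2) i

open Classical in
/-- the five relators -/
noncomputable def RR : Finset FA :=
  {gx 2 * gx 0 - 1, gx 3 * gx 1 - 1, gx 2 * gx 1, gx 3 * gx 0, gx 0 * gx 2 + gx 1 * gx 3 - 1}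

theorem mem_RR (p : FA) : p ∈ RR ↔ p = gx 2 * gx 0 - 1 ∨ p = gx 3 * gx 1 - 1 ∨ p = gx 2 * gx 1 ∨
    p = gx 3 * gx 0 ∨ p = gx 0 * gx 2 + gx 1 * gx 3 - 1 := by
  classical
  unfold RR
  rw [Finset.mem_insert, Finset.mem_insert, Finset.mem_insert, Finset.mem_insert,
    Finset.mem_singleton]

/-- the relation -/
def rel (p q : FA) : Prop := p ∈ RR ∧ q = 0

/-- the Leavitt algebra -/
abbrev Lv : Type := RingQuot (fun p q : FreeAlgebra (ZMod 2) (Fin 4) => p ∈ RR ∧ q = 0)

/-- the quotient map -/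
noncomputable def mk : FA →ₐ[ZMod 2] Lv :=
  RingQuot.mkAlgHom (ZMod 2) (fun p q : FreeAlgebra (ZMod 2) (Fin 4) => p ∈ RR ∧ q = 0)

theorem mk_surj : Function.Surjective mk := RingQuot.mkAlgHom_surjective _ _

theorem mk_zero (p : FA) (h : p ∈ RR) : mk p = 0 := by
  have h1 : mk p = mk 0 := RingQuot.mkAlgHom_rel (ZMod 2)
    (s := fun p q : FreeAlgebra (ZMod 2) (Fin 4) => p ∈ RR ∧ q = 0) ⟨h, rfl⟩
  rw [h1, map_zero]

/-- the space -/
abbrev VV : Type := ℕ → ZMod 2

/-- the isometry `n ↦ 2 n` -/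
def Et : Module.End (ZMod 2) VV where
  toFun f m := if m % 2 = 0 then f (m / 2) else 0
  map_add' f g := by
    funext m
    by_cases h : m % 2 = 0 <;> simp [h]
  map_smul' c f := by
    funext m
    by_cases h : m % 2 = 0 <;> simp [h]

/-- the isometry `n ↦ 2 n + 1` -/
def Ef : Module.End (ZMod 2) VV where
  toFun f m := if m % 2 = 1 then f (m / 2) else 0
  map_add' f g := by
    funext m
    by_cases h : m % 2 = 1 <;> simp [h]
  map_smul' c f := by
    funext m
    by_cases h : m % 2 = 1 <;> simp [h]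

/-- the adjoint -/
def Et' : Module.End (ZMod 2) VV where
  toFun f n := f (2 * n)
  map_add' f g := rfl
  map_smul' c f := rfl

/-- the adjoint -/
def Ef' : Module.End (ZMod 2) VV where
  toFun f n := f (2 * n + 1)
  map_add' f g := rfl
  map_smul' c f := rfl

theorem r1 : Et' * Et = 1 := by
  ext1 f
  funext n
  show (if (2 * n) % 2 = 0 then f (2 * n / 2) else 0) = f n
  have h1 : (2 * n) % 2 = 0 := by omega
  have h2 : 2 * n / 2 = n := by omega
  rw [if_pos h1, h2]

theorem r2 : Ef' * Ef = 1 := by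
  ext1 f
  funext n
  show (if (2 * n + 1) % 2 = 1 then f ((2 * n + 1) / 2) else 0) = f n
  have h1 : (2 * n + 1) % 2 = 1 := by omega
  have h2 : (2 * n + 1) / 2 = n := by omega
  rw [if_pos h1, h2]

theorem r3 : Et' * Ef = 0 := by
  ext1 f
  funext n
  show (if (2 * n) % 2 = 1 then f (2 * n / 2) else 0) = 0
  have h1 : ¬ (2 * n) % 2 = 1 := by omega
  rw [if_neg h1]

theorem r4 : Ef' * Et = 0 := by
  ext1 f
  funext n
  show (if (2 * n + 1) % 2 = 0 then f ((2 * n + 1) / 2) else 0) = 0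
  have h1 : ¬ (2 * n + 1) % 2 = 0 := by omega
  rw [if_neg h1]

theorem r5 : Et * Et' + Ef * Ef' = 1 := by
  ext1 f
  funext m
  show (if m % 2 = 0 then f (2 * (m / 2)) else 0) + (if m % 2 = 1 then f (2 * (m / 2) + 1) else 0) = f m
  rcases Nat.mod_two_eq_zero_or_one m with h | h
  · have h1 : ¬ m % 2 = 1 := by omega
    have h2 : 2 * (m / 2) = m := by omega
    rw [if_pos h, if_neg h1, h2, add_zero]
  · have h1 : ¬ m % 2 = 0 := by omega
    have h2 : 2 * (m / 2) + 1 = m := by omega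
    rw [if_neg h1, if_pos h, h2, zero_add]

/-- the images of the generators -/
def act (i : Fin 4) : Module.End (ZMod 2) VV :=
  if i = 0 then Et else if i = 1 then Ef else if i = 2 then Et' else Ef'

theorem act0 : act 0 = Et := rfl
theorem act1 : act 1 = Ef := rfl
theorem act2 : act 2 = Et' := rfl
theorem act3 : act 3 = Ef' := rfl

/-- the representation of the free algebra -/
noncomputable def rep : FA →ₐ[ZMod 2] Module.End (ZMod 2) VV := FreeAlgebra.lift (ZMod 2) act

theorem rep_gx (i : Fin 4) : rep (gx i) = act i := FreeAlgebra.lift_ι_apply act i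

theorem rep_rel (p q : FA) (h : p ∈ RR ∧ q = 0) : rep p = rep q := by
  obtain ⟨hp, hq⟩ := h
  rw [hq, map_zero]
  rw [mem_RR] at hp
  rcases hp with h | h | h | h | h
  · rw [h, map_sub, map_mul, map_one, rep_gx, rep_gx, act0, act2, r1, sub_self]
  · rw [h, map_sub, map_mul, map_one, rep_gx, rep_gx, act1, act3, r2, sub_self]
  · rw [h, map_mul, rep_gx, rep_gx, act1, act2, r3]
  · rw [h, map_mul, rep_gx, rep_gx, act0, act3, r4]
  · rw [h, map_sub, map_add, map_mul, map_mul, map_one, rep_gx, rep_gx, rep_gx, rep_gx, act0, act1,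
      act2, act3, r5, sub_self]

/-- the representation of the Leavitt algebra -/
noncomputable def repL : Lv →ₐ[ZMod 2] Module.End (ZMod 2) VV :=
  RingQuot.liftAlgHom (ZMod 2) ⟨rep, fun {p q} h => rep_rel p q h⟩

theorem nontriv : Nontrivial Lv := by
  have h1 : Nontrivial (Module.End (ZMod 2) VV) := by
    refine ⟨⟨1, 0, ?_⟩⟩
    intro h
    have h2 := congrFun (congrArg (fun g : Module.End (ZMod 2) VV => g (fun _ => 1)) h) 0
    have h3 : (1 : ZMod 2) = 0 := h2
    exact one_ne_zero h3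
  exact RingHom.domain_nontrivial (repL : Lv →+* Module.End (ZMod 2) VV)

/-- the isometries -/
noncomputable def ee (b : Bool) : Lv := if b then mk (gx 0) else mk (gx 1)

/-- their adjoints -/
noncomputable def ee' (b : Bool) : Lv := if b then mk (gx 2) else mk (gx 3)

theorem ee_t : ee true = mk (gx 0) := rfl
theorem ee_f : ee false = mk (gx 1) := rfl
theorem ee'_t : ee' true = mk (gx 2) := rfl
theorem ee'_f : ee' false = mk (gx 3) := rfl

theorem one_rel (b : Bool) : ee' b * ee b = 1 := by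
  cases b
  · have h := mk_zero (gx 3 * gx 1 - 1) ((mem_RR _).mpr (Or.inr (Or.inl rfl)))
    rw [map_sub, map_mul, map_one] at h
    rw [ee_f, ee'_f]
    exact sub_eq_zero.mp h
  · have h := mk_zero (gx 2 * gx 0 - 1) ((mem_RR _).mpr (Or.inl rfl))
    rw [map_sub, map_mul, map_one] at h
    rw [ee_t, ee'_t]
    exact sub_eq_zero.mp h

theorem zero_rel (b c : Bool) (hbc : b ≠ c) : ee' b * ee c = 0 := by
  cases b <;> cases c
  · exact absurd rfl hbc
  · have h := mk_zero (gx 3 * gx 0) ((mem_RR _).mpr (Or.inr (Or.inr (Or.inr (Or.inl rfl)))))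
    rw [map_mul] at h
    exact h
  · have h := mk_zero (gx 2 * gx 1) ((mem_RR _).mpr (Or.inr (Or.inr (Or.inl rfl))))
    rw [map_mul] at h
    exact h
  · exact absurd rfl hbc

theorem sum_rel : ee true * ee' true + ee false * ee' false = 1 := by
  have h := mk_zero (gx 0 * gx 2 + gx 1 * gx 3 - 1)
    ((mem_RR _).mpr (Or.inr (Or.inr (Or.inr (Or.inr rfl)))))
  rw [map_sub, map_add, map_mul, map_mul, map_one] at h
  rw [ee_t, ee'_t, ee_f, ee'_f]
  exact sub_eq_zero.mp h

theorem gen_rel : Algebra.adjoin (ZMod 2) (Set.range ee ∪ Set.range ee') = ⊤ := by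
  rw [eq_top_iff]
  have h1 : (Algebra.adjoin (ZMod 2) (Set.range (FreeAlgebra.ι (ZMod 2) : Fin 4 → FA))).map mk = ⊤ := by
    rw [FreeAlgebra.adjoin_range_ι, Algebra.map_top]
    exact (AlgHom.range_eq_top mk).mpr mk_surj
  rw [AlgHom.map_adjoin] at h1
  rw [← h1]
  apply Algebra.adjoin_mono
  rintro x ⟨y, ⟨i, rfl⟩, rfl⟩
  fin_cases i
  · exact Or.inl ⟨true, rfl⟩
  · exact Or.inl ⟨false, rfl⟩
  · exact Or.inr ⟨true, rfl⟩
  · exact Or.inr ⟨false, rfl⟩

theorem t : Pool.Agent.H318.BQ.S_LVA :=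
  ⟨Lv, inferInstance, inferInstance, ee, ee', nontriv, ⟨4, RR, ⟨AlgEquiv.refl⟩⟩, one_rel, zero_rel,
    sum_rel, gen_rel⟩

end Pool.Agent.H318.BQ.T_LVA
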