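import Pool.Agent.H318.BQ.Stm

set_option autoImplicit false

namespace Pool.Agent.H318.BQ.T_RCT

open Pool.Agent.H318.BQ

section
variable {R₁ R : Type} [Ring R₁] [Ring R]

theorem mo_nil (e : Bool → R) : mo e [] = 1 := by simp [mo]

theorem mo_cons (e : Bool → R) (b : Bool) (u : List Bool) : mo e (b :: u) = e b * mo e u := by
  simp [mo]

theorem mo_append (e : Bool → R) (u v : List Bool) : mo e (u ++ v) = mo e u * mo e v := by
  simp [mo]

theorem mo'_nil (e' : Bool → R) : mo' e' [] = 1 := by simp [mo']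

theorem mo'_cons (e' : Bool → R) (b : Bool) (u : List Bool) :
    mo' e' (b :: u) = mo' e' u * e' b := by
  simp [mo']

theorem mo'_append (e' : Bool → R) (u v : List Bool) :
    mo' e' (u ++ v) = mo' e' v * mo' e' u := by
  simp [mo']

variable {ι : R₁ →+* R} {e e' : Bool → R}

theorem cmp (h : LvExt ι e e') : ∀ u v : List Bool,
    (∃ t, v = u ++ t ∧ mo' e' u * mo e v = mo e t) ∨
    (∃ t, u = v ++ t ∧ mo' e' u * mo e v = mo' e' t) ∨ mo' e' u * mo e v = 0
  | [], v => Or.inl ⟨v, rfl, by rw [mo'_nil, one_mul]⟩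
  | b :: u, [] => Or.inr (Or.inl ⟨b :: u, rfl, by rw [mo_nil, mul_one]⟩)
  | b :: u, c :: v => by
    have e1 : mo' e' (b :: u) * mo e (c :: v) = mo' e' u * (e' b * e c) * mo e v := by
      rw [mo'_cons, mo_cons]
      simp only [mul_assoc]
    by_cases hbc : b = c
    · subst hbc
      rw [e1, h.one, mul_one]
      rcases cmp h u v with ⟨t, ht, he⟩ | ⟨t, ht, he⟩ | he
      · exact Or.inl ⟨t, by rw [ht]; rfl, he⟩
      · exact Or.inr (Or.inl ⟨t, by rw [ht]; rfl, he⟩)
      · exact Or.inr (Or.inr he)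
    · right
      right
      rw [e1, h.zero b c hbc, mul_zero, zero_mul]

theorem self (h : LvExt ι e e') : ∀ u : List Bool, mo' e' u * mo e u = 1
  | [] => by rw [mo'_nil, mo_nil, mul_one]
  | b :: u => by
    rw [mo'_cons, mo_cons]
    have e1 : mo' e' u * e' b * (e b * mo e u) = mo' e' u * (e' b * e b) * mo e u := by
      simp only [mul_assoc]
    rw [e1, h.one, mul_one, self h u]

theorem incomp (h : LvExt ι e e') (u v : List Bool) (h1 : ¬ u <+: v) (h2 : ¬ v <+: u) :
    mo' e' u * mo e v = 0 := by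
  rcases cmp h u v with ⟨t, ht, _⟩ | ⟨t, ht, _⟩ | he
  · exact absurd ⟨t, ht.symm⟩ h1
  · exact absurd ⟨t, ht.symm⟩ h2
  · exact he

/-- the word `0 1 1 ... 1` -/
def ka (L : ℕ) : List Bool := false :: List.replicate L true

theorem ka_len (L : ℕ) : (ka L).length = L + 1 := by simp [ka]

theorem ka1 (L : ℕ) (t : List Bool) (ht : t ≠ []) (hL : t.length ≤ L) : ¬ ka L <+: t ++ ka L := by
  rintro ⟨s, hs⟩
  have hlen : t.length < (ka L).length := by rw [ka_len]; omega
  have h1 : (ka L ++ s)[t.length]? = (t ++ ka L)[t.length]? := by rw [hs]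
  rw [List.getElem?_append_left hlen, List.getElem?_append_right (le_refl _), Nat.sub_self] at h1
  obtain ⟨m, hm⟩ : ∃ m, t.length = m + 1 := by
    cases t with
    | nil => exact absurd rfl ht
    | cons a t => exact ⟨t.length, by simp⟩
  rw [hm] at h1
  have hmL : m < L := by omega
  simp [ka, hmL] at h1

theorem ka2 (L : ℕ) (t : List Bool) (ht : t ≠ []) : ¬ t ++ ka L <+: ka L := by
  intro hp
  have h1 := hp.length_le
  rw [List.length_append] at h1
  have : 0 < t.length := List.length_pos_of_ne_nil ht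
  omega

theorem comm_mo (h : LvExt ι e e') (r : R₁) : ∀ u : List Bool, ι r * mo e u = mo e u * ι r
  | [] => by rw [mo_nil, mul_one, one_mul]
  | b :: u => by
    rw [mo_cons, ← mul_assoc, h.cm, mul_assoc, comm_mo h r u, mul_assoc]

/-- the compression of `s_ν^* s_μ` is a scalar `0` or `1` -/
theorem scal (h : LvExt ι e e') (ν μ : List Bool) (L : ℕ) (h1 : ν.length ≤ L) (h2 : μ.length ≤ L) :
    ∃ c : R₁, mo' e' (ka L) * (mo' e' ν * mo e μ) * mo e (ka L) = ι c := by
  rcases cmp h ν μ with ⟨t, ht, he⟩ | ⟨t, ht, he⟩ | he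
  · rw [he]
    by_cases htn : t = []
    · subst htn
      exact ⟨1, by rw [mo_nil, mul_one, self h, map_one]⟩
    · have hL : t.length ≤ L := by
        have := congrArg List.length ht
        rw [List.length_append] at this
        omega
      refine ⟨0, ?_⟩
      rw [map_zero, mul_assoc, ← mo_append]
      exact incomp h _ _ (ka1 L t htn hL) (ka2 L t htn)
  · rw [he]
    by_cases htn : t = []
    · subst htn
      exact ⟨1, by rw [mo'_nil, mul_one, self h, map_one]⟩
    · have hL : t.length ≤ L := by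
        have := congrArg List.length ht
        rw [List.length_append] at this
        omega
      refine ⟨0, ?_⟩
      rw [map_zero, ← mo'_append]
      exact incomp h _ _ (ka2 L t htn) (ka1 L t htn hL)
  · exact ⟨0, by rw [he, mul_zero, zero_mul, map_zero]⟩

end

theorem t (hS : S_SPN) : Pool.Agent.H318.BQ.S_RCT := by
  intro R₁ R _ _ _ ι e e' h hCT d hd
  obtain ⟨N, hN⟩ := hS R₁ R ι e e' h d
  obtain ⟨F, r, hF⟩ := hN (List.replicate N true) (by simp)
  set ν : List Bool := List.replicate N true with hν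
  obtain ⟨L, hL1, hL2⟩ : ∃ L : ℕ, ν.length ≤ L ∧ ∀ μ ∈ F, μ.length ≤ L := by
    refine ⟨ν.length + ∑ μ ∈ F, μ.length, Nat.le_add_right _ _, fun μ hμ => ?_⟩
    have := Finset.single_le_sum (f := fun μ : List Bool => μ.length) (fun _ _ => Nat.zero_le _) hμ
    omega
  have key : ∀ μ : List Bool, ∃ c : R₁, μ ∈ F →
      mo' e' (ka L) * (mo' e' ν * mo e μ) * mo e (ka L) = ι c := by
    intro μ
    by_cases hμ : μ ∈ F
    · obtain ⟨c, hc⟩ := scal h ν μ L hL1 (hL2 μ hμ)
      exact ⟨c, fun _ => hc⟩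
    · exact ⟨0, fun hc => absurd hc hμ⟩
  choose c hc using key
  have h1 : d = mo' e' ν * (d * mo e ν) := by
    rw [← mul_assoc, ← hd (mo' e' ν), mul_assoc, self h, mul_one]
  have h2 : d = mo' e' (ka L) * d * mo e (ka L) := by
    rw [← hd (mo' e' (ka L)), mul_assoc, self h, mul_one]
  have h3 : d = ι (∑ μ ∈ F, c μ * r μ) := by
    have e0 : d = ∑ μ ∈ F, mo' e' ν * mo e μ * ι (r μ) := by
      rw [h1, hF, Finset.mul_sum]
      exact Finset.sum_congr rfl fun μ _ => by rw [mul_assoc]
    rw [h2, e0, Finset.mul_sum, Finset.sum_mul, map_sum]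
    refine Finset.sum_congr rfl fun μ hμ => ?_
    have e2 : mo' e' (ka L) * (mo' e' ν * mo e μ * ι (r μ)) * mo e (ka L)
        = mo' e' (ka L) * (mo' e' ν * mo e μ) * mo e (ka L) * ι (r μ) := by
      simp only [mul_assoc]
      rw [comm_mo h]
    rw [e2, hc μ hμ, map_mul]
  have h4 := hCT (∑ μ ∈ F, c μ * r μ) (fun a => by
    apply h.inj
    rw [map_mul, map_mul, ← h3]
    exact hd _)
  rcases h4 with h4 | h4
  · left
    rw [h3, h4, map_zero]
  · right
    rw [h3, h4, map_one]

end Pool.Agent.H318.BQ.T_RCT
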