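import Pool.Agent.H318.BQ.Stm

/-!
# Project BQ: general position (task RGP)
-/

set_option autoImplicit false

namespace Pool.Agent.H318.BQ.T_RGP

open Pool.Agent.H318.BQ

section

variable {R : Type} [Ring R]

theorem mo_append (e : Bool → R) (u v : List Bool) : mo e (u ++ v) = mo e u * mo e v := by
  simp [mo]

theorem mo_cons (e : Bool → R) (a : Bool) (v : List Bool) : mo e (a :: v) = e a * mo e v := by
  simp [mo]

theorem mo'_cons (e' : Bool → R) (a : Bool) (v : List Bool) :
    mo' e' (a :: v) = mo' e' v * e' a := by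
  simp [mo']

theorem mo'_mo (e e' : Bool → R) (one : ∀ b, e' b * e b = 1) (w : List Bool) :
    mo' e' w * mo e w = 1 := by
  induction w with
  | nil => simp [mo, mo']
  | cons a w ih =>
    rw [mo_cons, mo'_cons, mul_assoc, ← mul_assoc (e' a), one, one_mul, ih]

theorem mo'_mo_zero (e e' : Bool → R) (one : ∀ b, e' b * e b = 1)
    (zero : ∀ b c, b ≠ c → e' b * e c = 0) (μ : List Bool) :
    ∀ L : ℕ, μ.length < L → mo' e' (List.replicate L false) * mo e (μ ++ [true]) = 0 := by
  induction μ with
  | nil =>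
    intro L hL
    obtain ⟨k, rfl⟩ : ∃ k, L = k + 1 := ⟨L - 1, by simp at hL; omega⟩
    rw [List.replicate_succ, mo'_cons, List.nil_append, mo_cons, mul_assoc,
      ← mul_assoc (e' false), zero false true (by decide), zero_mul, mul_zero]
  | cons a μ ih =>
    intro L hL
    rw [List.length_cons] at hL
    obtain ⟨k, rfl⟩ : ∃ k, L = k + 1 := ⟨L - 1, by omega⟩
    rw [List.replicate_succ, mo'_cons, List.cons_append, mo_cons, mul_assoc,
      ← mul_assoc (e' false)]
    cases a with
    | false => rw [one, one_mul, ih k (by omega)]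
    | true => rw [zero false true (by decide), zero_mul, mul_zero]

theorem bd {α : Type} (l : List α) (f : α → ℕ) : ∃ N : ℕ, ∀ c ∈ l, f c ≤ N := by
  induction l with
  | nil => exact ⟨0, by simp⟩
  | cons a l ih =>
    obtain ⟨N, hN⟩ := ih
    refine ⟨max N (f a), fun c hc => ?_⟩
    rcases List.mem_cons.1 hc with rfl | h
    · exact le_max_right _ _
    · exact (hN c h).trans (le_max_left _ _)

end

theorem t (h : S_SPN) : S_RGP := by
  intro R₁ R _ _ _ ι e e' hL l
  choose Nf hNf using h R₁ R ι e e' hL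
  obtain ⟨N, hN⟩ := bd l Nf
  set ν : List Bool := List.replicate N true with hν
  have hex : ∀ c : R, ∃ (F : Finset (List Bool)) (r : List Bool → R₁), c ∈ l →
      c * mo e ν = ∑ μ ∈ F, mo e μ * ι (r μ) := by
    intro c
    by_cases hc : c ∈ l
    · obtain ⟨F, r, hF⟩ := hNf c ν (by rw [hν, List.length_replicate]; exact hN c hc)
      exact ⟨F, r, fun _ => hF⟩
    · exact ⟨∅, fun _ => 0, fun h => absurd h hc⟩
  choose F r hF using hex
  obtain ⟨L₀, hL₀⟩ := bd l fun c => (F c).sup List.length
  have hlen : ∀ c ∈ l, ∀ μ ∈ F c, μ.length < L₀ + 1 := by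
    intro c hc μ hμ
    have h1 : μ.length ≤ (F c).sup List.length := Finset.le_sup (f := List.length) hμ
    have h2 : (F c).sup List.length ≤ L₀ := hL₀ c hc
    omega
  have one := hL.one
  have zero := hL.zero
  set γ : List Bool := List.replicate (L₀ + 1) false with hγ
  have hkey : ∀ c ∈ l, mo' e' γ * c * mo e (ν ++ [true]) = 0 := by
    intro c hc
    have h1 : mo' e' γ * c * mo e (ν ++ [true]) = mo' e' γ * (c * mo e ν) * mo e [true] := by
      rw [mo_append]
      simp only [mul_assoc]
    rw [h1, hF c hc, Finset.mul_sum, Finset.sum_mul]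
    refine Finset.sum_eq_zero fun μ hμ => ?_
    have h2 : ι (r c μ) * mo e [true] = mo e [true] * ι (r c μ) := by
      rw [mo_cons]
      have h4 : mo e [] = 1 := by simp [mo]
      rw [h4, mul_one]
      exact hL.cm _ _
    have h3 : mo' e' γ * (mo e μ * ι (r c μ)) * mo e [true] =
        (mo' e' γ * mo e (μ ++ [true])) * ι (r c μ) := by
      rw [mo_append]
      simp only [mul_assoc]
      rw [h2]
    rw [h3, hγ, mo'_mo_zero e e' one zero μ _ (hlen c hc μ hμ), zero_mul]
  have h10 : (1 : R) ≠ 0 := by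
    intro h0
    have h5 : ι 1 = ι 0 := by rw [map_one, map_zero, h0]
    exact one_ne_zero (hL.inj h5)
  refine ⟨mo e (ν ++ [true]) * mo' e' γ, ?_, ?_⟩
  · intro h0
    apply h10
    have h6 : mo' e' (ν ++ [true]) * (mo e (ν ++ [true]) * mo' e' γ) * mo e γ = 1 := by
      rw [← mul_assoc, mo'_mo e e' one, one_mul, mo'_mo e e' one]
    rw [← h6, h0, mul_zero, zero_mul]
  · intro c hc
    have h7 : mo e (ν ++ [true]) * mo' e' γ * c * (mo e (ν ++ [true]) * mo' e' γ) =
        mo e (ν ++ [true]) * (mo' e' γ * c * mo e (ν ++ [true])) * mo' e' γ := by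
      simp only [mul_assoc]
    rw [h7, hkey c hc, mul_zero, zero_mul]

end Pool.Agent.H318.BQ.T_RGP
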