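import Pool.Agent.H318.BQ.Stm

/-!
# Project BQ, task RPI

A ring which is generated by commuting copies of a simple ring and of the Leavitt algebra is
purely infinite simple.
-/

set_option autoImplicit false

namespace Pool.Agent.H318.BQ.T_RPI

open Pool.Agent.H318.BQ

section words
variable {R : Type} [Ring R] (e e' : Bool → R)

theorem mo_nil : mo e [] = 1 := by simp [mo]

theorem mo_cons (b : Bool) (w : List Bool) : mo e (b :: w) = e b * mo e w := by simp [mo]

theorem mo'_nil : mo' e' [] = 1 := by simp [mo']

theorem mo'_cons (b : Bool) (w : List Bool) : mo' e' (b :: w) = mo' e' w * e' b := by simp [mo']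

theorem mo_append (u v : List Bool) : mo e (u ++ v) = mo e u * mo e v := by simp [mo]

theorem mo'_append (u v : List Bool) : mo' e' (u ++ v) = mo' e' v * mo' e' u := by simp [mo']

end words

section main
variable {R₁ R : Type} [Ring R₁] [Ring R] {ι : R₁ →+* R} {e e' : Bool → R}

theorem mo'_mo (h : LvExt ι e e') (w : List Bool) : mo' e' w * mo e w = 1 := by
  induction w with
  | nil => rw [mo_nil, mo'_nil, one_mul]
  | cons b w ih =>
    rw [mo_cons, mo'_cons, mul_assoc, ← mul_assoc (e' b), h.one, one_mul, ih]

theorem mo'_mo_zero (h : LvExt ι e e') : ∀ v w : List Bool, ¬ v <+: w → ¬ w <+: v →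
    mo' e' v * mo e w = 0 := by
  intro v
  induction v with
  | nil =>
    intro w h1 _
    exact absurd (List.nil_prefix) h1
  | cons a v ih =>
    intro w h1 h2
    cases w with
    | nil => exact absurd (List.nil_prefix) h2
    | cons b w =>
      rw [mo_cons, mo'_cons, mul_assoc, ← mul_assoc (e' a)]
      by_cases hab : a = b
      · subst hab
        rw [h.one, one_mul]
        apply ih
        · intro h3
          exact h1 ((List.prefix_cons_inj a).2 h3)
        · intro h3
          exact h2 ((List.prefix_cons_inj a).2 h3)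
      · rw [h.zero a b hab, zero_mul, mul_zero]

theorem exists_word (h : LvExt ι e e') {c : R} (hc : c ≠ 0) (n : ℕ) :
    ∃ ν : List Bool, ν.length = n ∧ c * mo e ν ≠ 0 := by
  induction n with
  | zero => exact ⟨[], rfl, by rw [mo_nil, mul_one]; exact hc⟩
  | succ n ih =>
    obtain ⟨ν, h1, h2⟩ := ih
    by_contra hcon
    push Not at hcon
    apply h2
    have h3 : ∀ b : Bool, c * mo e ν * e b = 0 := by
      intro b
      have h4 := hcon (ν ++ [b]) (by simp [h1])
      rw [mo_append, mo_cons, mo_nil, mul_one, ← mul_assoc] at h4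
      exact h4
    calc c * mo e ν = c * mo e ν * (e true * e' true + e false * e' false) := by
          rw [h.sum, mul_one]
      _ = (c * mo e ν * e true) * e' true + (c * mo e ν * e false) * e' false := by
          rw [mul_add, ← mul_assoc, ← mul_assoc]
      _ = 0 := by rw [h3, h3, zero_mul, zero_mul, add_zero]

theorem cm_mo (h : LvExt ι e e') (r : R₁) (w : List Bool) : ι r * mo e w = mo e w * ι r := by
  induction w with
  | nil => rw [mo_nil, mul_one, one_mul]
  | cons b w ih => rw [mo_cons, ← mul_assoc, h.cm, mul_assoc, ih, mul_assoc]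

/-- the last letter of a word is a letter of all nonempty suffixes -/
theorem exists_last (u : List Bool) : ∃ b : Bool, ∀ v k : List Bool, u = v ++ k → k ≠ [] →
    b ∈ k := by
  rcases List.eq_nil_or_concat u with h | ⟨L, b, h⟩
  · refine ⟨true, ?_⟩
    intro v k h1 h2
    rw [h] at h1
    exact absurd (List.append_eq_nil_iff.1 h1.symm).2 h2
  · refine ⟨b, ?_⟩
    intro v k h1 h2
    rcases List.eq_nil_or_concat k with h3 | ⟨K, a, h3⟩
    · exact absurd h3 h2
    · rw [h, h3, List.concat_eq_append, List.concat_eq_append, ← List.append_assoc] at h1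
      have h4 := List.append_inj_right' h1 rfl
      rw [h3]
      simp at h4
      simp [h4]

/-- the ideal of all `s` with `x r y = s` -/
theorem exists_ideal [IsSimpleRing R₁] (h : LvExt ι e e') (r : R₁) (hr : r ≠ 0) :
    ∃ x y : R, x * ι r * y = 1 := by
  let I : TwoSidedIdeal R₁ := TwoSidedIdeal.mk' {s : R₁ | ∃ x y : R, x * ι r * y = ι s}
    (by exact ⟨0, 0, by simp⟩)
    (by
      rintro s t ⟨x, y, h1⟩ ⟨z, w, h2⟩
      refine ⟨x * e' true + z * e' false, e true * y + e false * w, ?_⟩
      have k1 : ∀ (p q : R) (b c : Bool), p * e' b * ι r * (e c * q) = p * ι r * (e' b * e c) * q := by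
        intro p q b c
        calc p * e' b * ι r * (e c * q) = p * (e' b * ι r) * e c * q := by
              simp only [mul_assoc]
          _ = p * (ι r * e' b) * e c * q := by rw [h.cm']
          _ = p * ι r * (e' b * e c) * q := by simp only [mul_assoc]
      rw [add_mul, add_mul, mul_add, mul_add, k1, k1, k1, k1, h.one, h.one,
        h.zero true false (by decide), h.zero false true (by decide), map_add, ← h1, ← h2]
      simp)
    (by
      rintro s ⟨x, y, h1⟩
      exact ⟨-x, y, by rw [neg_mul, neg_mul, h1, map_neg]⟩)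
    (by
      rintro s t ⟨x, y, h1⟩
      exact ⟨ι s * x, y, by rw [map_mul, ← h1]; simp only [mul_assoc]⟩)
    (by
      rintro s t ⟨x, y, h1⟩
      exact ⟨x, y * ι t, by rw [map_mul, ← h1]; simp only [mul_assoc]⟩)
  have hrI : r ∈ I := by
    rw [TwoSidedIdeal.mem_mk']
    exact ⟨1, 1, by rw [one_mul, mul_one]⟩
  have h1 := IsSimpleRing.one_mem_of_ne_zero_mem I hr hrI
  rw [TwoSidedIdeal.mem_mk'] at h1
  obtain ⟨x, y, h2⟩ := h1
  exact ⟨x, y, by rw [h2, map_one]⟩

theorem pi_of [IsSimpleRing R₁] (h : LvExt ι e e')
    (hs : ∀ c : R, ∃ N : ℕ, ∀ ν : List Bool, N ≤ ν.length →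
      ∃ (F : Finset (List Bool)) (r : List Bool → R₁), c * mo e ν = ∑ μ ∈ F, mo e μ * ι (r μ)) :
    PI R := by
  classical
  intro c hc
  obtain ⟨N, hN⟩ := hs c
  obtain ⟨ν, h1, h2⟩ := exists_word h hc N
  obtain ⟨F, r, h3⟩ := hN ν h1.ge
  have h4 : c * mo e ν = ∑ μ ∈ F.filter (fun μ => r μ ≠ 0), mo e μ * ι (r μ) := by
    rw [h3, Finset.sum_filter]
    apply Finset.sum_congr rfl
    intro μ _
    by_cases h5 : r μ = 0
    · simp [h5]
    · simp [h5]
  have h5 : (F.filter (fun μ => r μ ≠ 0)).Nonempty := by
    rw [Finset.nonempty_iff_ne_empty]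
    intro h6
    rw [h6, Finset.sum_empty] at h4
    exact h2 h4
  obtain ⟨μ0, h6, h7⟩ := Finset.exists_max_image _ List.length h5
  obtain ⟨b, hb⟩ := exists_last μ0
  have h8 : r μ0 ≠ 0 := (Finset.mem_filter.1 h6).2
  have key : mo' e' (List.replicate μ0.length (!b)) * mo' e' μ0 * (c * mo e ν) *
      mo e (List.replicate μ0.length (!b)) = ι (r μ0) := by
    rw [h4, Finset.mul_sum, Finset.sum_mul, Finset.sum_eq_single_of_mem μ0 h6]
    · rw [mul_assoc (mo' e' (List.replicate μ0.length (!b))), ← mul_assoc (mo' e' μ0), mo'_mo h,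
        one_mul, mul_assoc, cm_mo h, ← mul_assoc, mo'_mo h, one_mul]
    · intro μ hμ hne
      have h9 : mo' e' (List.replicate μ0.length (!b)) * mo' e' μ0 * (mo e μ * ι (r μ)) *
          mo e (List.replicate μ0.length (!b)) = mo' e' (List.replicate μ0.length (!b)) *
          (mo' e' μ0 * mo e μ) * mo e (List.replicate μ0.length (!b)) * ι (r μ) := by
        simp only [mul_assoc]
        rw [cm_mo h]
      rw [h9]
      by_cases h10 : μ <+: μ0
      · obtain ⟨k, hk⟩ := h10
        have hk0 : k ≠ [] := by
          intro h11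
          rw [h11, List.append_nil] at hk
          exact hne hk
        have h12 : b ∈ k := hb μ k hk.symm hk0
        have h13 : mo' e' μ0 * mo e μ = mo' e' k := by
          rw [← hk, mo'_append, mul_assoc, mo'_mo h, mul_one]
        have hnk : ¬ k <+: List.replicate μ0.length (!b) := by
          intro h14
          have h15 := h14.subset h12
          have h16 := List.eq_of_mem_replicate h15
          cases b <;> simp at h16
        have h14 : mo' e' k * mo e (List.replicate μ0.length (!b)) = 0 := by
          apply mo'_mo_zero h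
          · exact hnk
          · intro h15
            apply hnk
            have h16 : (List.replicate μ0.length (!b)).length = k.length := by
              apply le_antisymm h15.length_le
              rw [List.length_replicate, ← hk, List.length_append]
              omega
            rw [h15.eq_of_length h16]
        rw [h13, mul_assoc (mo' e' (List.replicate μ0.length (!b))), h14, mul_zero, zero_mul]
      · have h11 : mo' e' μ0 * mo e μ = 0 := by
          apply mo'_mo_zero h
          · intro h12
            apply h10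
            rw [h12.eq_of_length (le_antisymm h12.length_le (h7 μ hμ))]
          · exact h10
        rw [h11, mul_zero, zero_mul, zero_mul]
  obtain ⟨x, y, hxy⟩ := exists_ideal h (r μ0) h8
  refine ⟨x * mo' e' (List.replicate μ0.length (!b)) * mo' e' μ0,
    mo e ν * mo e (List.replicate μ0.length (!b)) * y, ?_⟩
  rw [← hxy, ← key]
  simp only [mul_assoc]

end main

theorem t (h : S_SPN) : S_RPI := by
  intro R₁ R _ _ _ ι e e' hl
  exact pi_of hl (h R₁ R ι e e' hl)

end Pool.Agent.H318.BQ.T_RPI
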