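import Pool.Agent.H318.BQ.Stm

/-!
# Project BQ, task SPN: for each element `c` and all long words `ν` the element `c s_ν` is a
combination of `s_μ r`
-/

set_option autoImplicit false

namespace Pool.Agent.H318.BQ.T_SPN

open Pool.Agent.H318.BQ

section

variable {R₁ R : Type} [Ring R₁] [Ring R]

/-- the combinations of the elements `s_μ r` -/
def Mg (ι : R₁ →+* R) (e : Bool → R) : AddSubgroup R :=
  AddSubgroup.closure {x | ∃ (μ : List Bool) (r : R₁), x = mo e μ * ι r}

theorem gen_mem (ι : R₁ →+* R) (e : Bool → R) (μ : List Bool) (r : R₁) :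
    mo e μ * ι r ∈ Mg ι e := AddSubgroup.subset_closure ⟨μ, r, rfl⟩

theorem mo_mem (ι : R₁ →+* R) (e : Bool → R) (μ : List Bool) : mo e μ ∈ Mg ι e := by
  have h := gen_mem ι e μ 1
  rwa [map_one, mul_one] at h

theorem mul_iota_mem (ι : R₁ →+* R) (e : Bool → R) {x : R} (hx : x ∈ Mg ι e) (s : R₁) :
    x * ι s ∈ Mg ι e := by
  unfold Mg at hx
  induction hx using AddSubgroup.closure_induction with
  | mem x h =>
    obtain ⟨μ, r, rfl⟩ := h
    rw [mul_assoc, ← map_mul]
    exact gen_mem ι e μ _
  | zero =>
    rw [zero_mul]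
    exact zero_mem _
  | add x y _ _ hx hy =>
    rw [add_mul]
    exact add_mem hx hy
  | neg x _ hx =>
    rw [neg_mul]
    exact neg_mem hx

theorem exists_sum (ι : R₁ →+* R) (e : Bool → R) {x : R} (hx : x ∈ Mg ι e) :
    ∃ (F : Finset (List Bool)) (r : List Bool → R₁), x = ∑ μ ∈ F, mo e μ * ι (r μ) := by
  unfold Mg at hx
  induction hx using AddSubgroup.closure_induction with
  | mem x h =>
    obtain ⟨μ, r, rfl⟩ := h
    exact ⟨{μ}, fun _ => r, by rw [Finset.sum_singleton]⟩
  | zero => exact ⟨∅, fun _ => 0, by rw [Finset.sum_empty]⟩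
  | add x y _ _ hx hy =>
    obtain ⟨F, r, rfl⟩ := hx
    obtain ⟨G, s, rfl⟩ := hy
    refine ⟨F ∪ G, fun μ => (if μ ∈ F then r μ else 0) + (if μ ∈ G then s μ else 0), ?_⟩
    have h1 : ∑ μ ∈ F, mo e μ * ι (r μ)
        = ∑ μ ∈ F ∪ G, mo e μ * ι (if μ ∈ F then r μ else 0) := by
      rw [← Finset.sum_subset (Finset.subset_union_left (s₁ := F) (s₂ := G))
        (f := fun μ => mo e μ * ι (if μ ∈ F then r μ else 0))
        (fun μ _ h => by simp only [if_neg h, map_zero, mul_zero])]
      exact Finset.sum_congr rfl fun μ h => by simp only [if_pos h]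
    have h2 : ∑ μ ∈ G, mo e μ * ι (s μ)
        = ∑ μ ∈ F ∪ G, mo e μ * ι (if μ ∈ G then s μ else 0) := by
      rw [← Finset.sum_subset (Finset.subset_union_right (s₁ := F) (s₂ := G))
        (f := fun μ => mo e μ * ι (if μ ∈ G then s μ else 0))
        (fun μ _ h => by simp only [if_neg h, map_zero, mul_zero])]
      exact Finset.sum_congr rfl fun μ h => by simp only [if_pos h]
    rw [h1, h2, ← Finset.sum_add_distrib]
    exact Finset.sum_congr rfl fun μ _ => by rw [map_add, mul_add]
  | neg x _ hx =>
    obtain ⟨F, r, rfl⟩ := hx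
    refine ⟨F, fun μ => -r μ, ?_⟩
    rw [← Finset.sum_neg_distrib]
    exact Finset.sum_congr rfl fun μ _ => by rw [map_neg, mul_neg]

theorem mo_append (e : Bool → R) (μ κ : List Bool) : mo e (μ ++ κ) = mo e μ * mo e κ := by
  simp [mo]

theorem mo_cons (e : Bool → R) (b : Bool) (κ : List Bool) : mo e (b :: κ) = e b * mo e κ := by
  simp [mo]

theorem iota_mo {ι : R₁ →+* R} {e e' : Bool → R} (h : LvExt ι e e') (r : R₁) (κ : List Bool) :
    ι r * mo e κ = mo e κ * ι r := by
  induction κ with
  | nil => simp [mo]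
  | cons b κ ih => rw [mo_cons, ← mul_assoc, h.cm, mul_assoc, ih, mul_assoc]

end

theorem t : Pool.Agent.H318.BQ.S_SPN := by
  intro R₁ R _ _ ι e e' h c
  have key : ∃ N : ℕ, ∀ ν : List Bool, N ≤ ν.length → c * mo e ν ∈ Mg ι e := by
    have hc : c ∈ Subring.closure (Set.range ι ∪ (Set.range e ∪ Set.range e')) := by
      rw [h.gen]
      exact Subring.mem_top c
    induction hc using Subring.closure_induction with
    | mem x hx =>
      rcases hx with ⟨r, rfl⟩ | ⟨b, rfl⟩ | ⟨b, rfl⟩
      · refine ⟨0, fun ν _ => ?_⟩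
        rw [iota_mo h]
        exact gen_mem ι e ν r
      · refine ⟨0, fun ν _ => ?_⟩
        rw [← mo_cons]
        exact mo_mem ι e _
      · refine ⟨1, fun ν hν => ?_⟩
        cases ν with
        | nil => simp at hν
        | cons b' ν =>
          rw [mo_cons, ← mul_assoc]
          by_cases hb : b = b'
          · subst hb
            rw [h.one, one_mul]
            exact mo_mem ι e _
          · rw [h.zero b b' hb, zero_mul]
            exact zero_mem _
    | zero =>
      refine ⟨0, fun ν _ => ?_⟩
      rw [zero_mul]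
      exact zero_mem _
    | one =>
      refine ⟨0, fun ν _ => ?_⟩
      rw [one_mul]
      exact mo_mem ι e _
    | add x y _ _ hx hy =>
      obtain ⟨N, hN⟩ := hx
      obtain ⟨N', hN'⟩ := hy
      refine ⟨N + N', fun ν hν => ?_⟩
      rw [add_mul]
      exact add_mem (hN ν (by omega)) (hN' ν (by omega))
    | neg x _ hx =>
      obtain ⟨N, hN⟩ := hx
      refine ⟨N, fun ν hν => ?_⟩
      rw [neg_mul]
      exact neg_mem (hN ν hν)
    | mul x y _ _ hx hy =>
      obtain ⟨N1, hN1⟩ := hx
      obtain ⟨N2, hN2⟩ := hy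
      refine ⟨N2 + N1, fun ν hν => ?_⟩
      have hlen : (ν.take N2).length = N2 := by
        rw [List.length_take]
        omega
      have hlen' : N1 ≤ (ν.drop N2).length := by
        rw [List.length_drop]
        omega
      have hy : y * mo e (ν.take N2) ∈ Mg ι e := hN2 _ (by omega)
      have hall : ∀ z ∈ Mg ι e, x * (z * mo e (ν.drop N2)) ∈ Mg ι e := by
        intro z hz
        unfold Mg at hz
        induction hz using AddSubgroup.closure_induction with
        | mem z hz =>
          obtain ⟨μ, r, rfl⟩ := hz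
          rw [mul_assoc, iota_mo h, ← mul_assoc (mo e μ), ← mo_append, ← mul_assoc x]
          refine mul_iota_mem ι e (hN1 _ ?_) r
          rw [List.length_append]
          omega
        | zero =>
          rw [zero_mul, mul_zero]
          exact zero_mem _
        | add z w _ _ hz hw =>
          rw [add_mul, mul_add]
          exact add_mem hz hw
        | neg z _ hz =>
          rw [neg_mul, mul_neg]
          exact neg_mem hz
      have h1 := hall _ hy
      have h2 : x * y * mo e ν = x * (y * mo e (ν.take N2) * mo e (ν.drop N2)) := by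
        conv_lhs => rw [← List.take_append_drop N2 ν, mo_append]
        simp only [mul_assoc]
      rw [h2]
      exact h1
  obtain ⟨N, hN⟩ := key
  exact ⟨N, fun ν hν => exists_sum ι e (hN ν hν)⟩

end Pool.Agent.H318.BQ.T_SPN
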