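import Pool.Agent.H318.BQ.Asm3
import Pool.Agent.H318.BQ.T_LVA
import Pool.Agent.H318.BQ.T_SPN
import Pool.Agent.H318.BQ.T_RPI
import Pool.Agent.H318.BQ.T_RGP
import Pool.Agent.H318.BQ.T_RCT

/-!
# Project BQ: assembly, the ring
-/

set_option autoImplicit false

open scoped commutatorElement TensorProduct

namespace Pool.Agent.H318.BQ

open Y208.BH Y208.LQ Pool.SF Pool.Agent.H318.WP

section
variable {R₁ L : Type} [Ring R₁] [Algebra (ZMod 2) R₁] [Ring L] [Algebra (ZMod 2) L]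

/-- the copy of the first factor -/
noncomputable def il (R₁ L : Type) [Ring R₁] [Algebra (ZMod 2) R₁] [Ring L] [Algebra (ZMod 2) L] :
    R₁ →+* R₁ ⊗[ZMod 2] L :=
  (Algebra.TensorProduct.includeLeft : R₁ →ₐ[ZMod 2] R₁ ⊗[ZMod 2] L).toRingHom

theorem il_apply (r : R₁) : il R₁ L r = r ⊗ₜ[ZMod 2] (1 : L) := rfl

theorem lvExt [Nontrivial L] (e e' : Bool → L) (h1 : ∀ b, e' b * e b = 1)
    (h0 : ∀ b c, b ≠ c → e' b * e c = 0) (hs : e true * e' true + e false * e' false = 1)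
    (hg : Algebra.adjoin (ZMod 2) (Set.range e ∪ Set.range e') = ⊤) :
    LvExt (il R₁ L) (fun b => (1 : R₁) ⊗ₜ[ZMod 2] e b) (fun b => (1 : R₁) ⊗ₜ[ZMod 2] e' b) where
  inj := Algebra.TensorProduct.includeLeft_injective (FaithfulSMul.algebraMap_injective (ZMod 2) _)
  one b := by
    rw [Algebra.TensorProduct.tmul_mul_tmul, h1, one_mul, Algebra.TensorProduct.one_def]
  zero b c hbc := by
    rw [Algebra.TensorProduct.tmul_mul_tmul, h0 b c hbc, TensorProduct.tmul_zero]
  sum := by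
    rw [Algebra.TensorProduct.tmul_mul_tmul, Algebra.TensorProduct.tmul_mul_tmul,
      ← TensorProduct.tmul_add, one_mul, hs, Algebra.TensorProduct.one_def]
  cm r b := by
    rw [il_apply, Algebra.TensorProduct.tmul_mul_tmul, Algebra.TensorProduct.tmul_mul_tmul,
      one_mul, mul_one, one_mul, mul_one]
  cm' r b := by
    rw [il_apply, Algebra.TensorProduct.tmul_mul_tmul, Algebra.TensorProduct.tmul_mul_tmul,
      one_mul, mul_one, one_mul, mul_one]
  gen := by
    set C := Subring.closure (Set.range (il R₁ L) ∪ (Set.range (fun b => (1 : R₁) ⊗ₜ[ZMod 2] e b) ∪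
      Set.range (fun b => (1 : R₁) ⊗ₜ[ZMod 2] e' b))) with hC
    have hl : ∀ l : L, (1 : R₁) ⊗ₜ[ZMod 2] l ∈ C := by
      intro l
      have hmem : l ∈ Algebra.adjoin (ZMod 2) (Set.range e ∪ Set.range e') := by
        rw [hg]; trivial
      induction hmem using Algebra.adjoin_induction with
      | mem x hx =>
        rcases hx with ⟨b, rfl⟩ | ⟨b, rfl⟩
        · exact Subring.subset_closure (Or.inr (Or.inl ⟨b, rfl⟩))
        · exact Subring.subset_closure (Or.inr (Or.inr ⟨b, rfl⟩))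
      | algebraMap r =>
        refine Subring.subset_closure (Or.inl ⟨algebraMap (ZMod 2) R₁ r, ?_⟩)
        rw [il_apply, Algebra.algebraMap_eq_smul_one, Algebra.algebraMap_eq_smul_one,
          TensorProduct.smul_tmul]
      | add x y _ _ hx hy =>
        rw [TensorProduct.tmul_add]
        exact C.add_mem hx hy
      | mul x y _ _ hx hy =>
        have h := C.mul_mem hx hy
        rwa [Algebra.TensorProduct.tmul_mul_tmul, one_mul] at h
    rw [eq_top_iff]
    rintro x -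
    induction x using TensorProduct.induction_on with
    | zero => exact C.zero_mem
    | tmul r l =>
      have h := C.mul_mem (Subring.subset_closure (Or.inl ⟨r, rfl⟩) : il R₁ L r ∈ C) (hl l)
      rwa [il_apply, Algebra.TensorProduct.tmul_mul_tmul, one_mul, mul_one] at h
    | add x y hx hy => exact C.add_mem hx hy

end

theorem ct_of_central (R₁ : Type) [Ring R₁] [Algebra (ZMod 2) R₁]
    (h : Algebra.IsCentral (ZMod 2) R₁) : CT R₁ := by
  intro d hd
  have h7 : d ∈ Subalgebra.center (ZMod 2) R₁ :=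
    Subalgebra.mem_center_iff.2 (fun c => (hd c).symm)
  obtain ⟨r, hr⟩ := Algebra.mem_bot.1 (h.out h7)
  rw [← hr]
  have h2 : ∀ r : ZMod 2, r = 0 ∨ r = 1 := by decide
  rcases h2 r with rfl | rfl
  · exact Or.inl (map_zero _)
  · exact Or.inr (map_one _)

theorem two_zero (R : Type) [Ring R] [Algebra (ZMod 2) R] : (2 : R) = 0 := by
  have h : (2 : R) = algebraMap (ZMod 2) R 2 := (map_ofNat (algebraMap (ZMod 2) R) 2).symm
  have h2 : (2 : ZMod 2) = 0 := by decide
  rw [h, h2, map_zero]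

theorem rng : S_RNG := by
  intro n rels hwp
  obtain ⟨R₁, _, _, hfp, ⟨wA⟩, hsim, hcen, θ, hθ⟩ := ring_one Pool.Agent.Y547.LQ.t_J1a
    Pool.Agent.Y547.LQ.t_J1b Y208.LQ.t_SIMP' Pool.Agent.Y839.LQ.t_TFP Pool.Agent.Y968.LQ.t_CEN
    n rels hwp
  obtain ⟨L, _, _, e, e', hLn, hLfp, h1, h0, hs, hg⟩ := T_LVA.t
  have hnt1 : Nontrivial R₁ := inferInstance
  have hnt : Nontrivial (R₁ ⊗[ZMod 2] L) :=
    Algebra.TensorProduct.nontrivial_of_algebraMap_injective_of_flat_left (ZMod 2) _ _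
      (FaithfulSMul.algebraMap_injective (ZMod 2) _)
  have hE := lvExt (R₁ := R₁) e e' h1 h0 hs hg
  obtain ⟨wR⟩ := sw_tensor (S := L) wA
  refine ⟨R₁ ⊗[ZMod 2] L, inferInstance, inferInstance,
    Y88.BH.t_FPO.1 _ (Pool.Agent.Y839.LQ.t_TFP _ _ _ hfp hLfp), ⟨two_zero _, one_ne_zero,
      T_RPI.t T_SPN.t _ _ _ _ _ hE, T_RGP.t T_SPN.t _ _ _ _ _ hE,
      T_RCT.t T_SPN.t _ _ _ _ _ hE (ct_of_central R₁ hcen), swR_of_Sw wR,
      ⟨_, _, _, _, hE.one true, hE.one false, hE.zero true false (by decide),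
        hE.zero false true (by decide), hE.sum⟩⟩,
    (((il R₁ L : R₁ →* R₁ ⊗[ZMod 2] L)).comp θ).toHomUnits, ?_⟩
  intro g g' h
  have h2 := congrArg Units.val h
  exact hθ (hE.inj h2)

end Pool.Agent.H318.BQ
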