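import Mathlib
import Pool.Graph.R_seed8.Y208.BH.Defs

/-!
# Project BQ (Boone-Higman conjecture): definitions

`R` is a ring with `2 = 0`, `J` a finite set of indices. The Steinberg group `SU R J` (library,
`Y208.BH`) maps to the group of invertible matrices; if the ring is nice this is an isomorphism, and
the Steinberg group is a finitely presented simple group.
-/

set_option autoImplicit false

open scoped commutatorElement

namespace Pool.Agent.H318.BQ

open Y208.BH

section
variable {R I : Type} [Ring R] [Fintype I] [DecidableEq I]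

/-- elementary matrices -/
def tv (i j : I) (r : R) : (Matrix I I R)ˣ :=
  if h : i = j then 1 else
  { val := 1 + Matrix.single i j r
    inv := 1 - Matrix.single i j r
    val_inv := by
      rw [add_mul, mul_sub, mul_sub, one_mul, one_mul, mul_one,
        Matrix.single_mul_single_of_ne _ _ _ _ (Ne.symm h)]
      abel
    inv_val := by
      rw [sub_mul, mul_add, mul_add, one_mul, one_mul, mul_one,
        Matrix.single_mul_single_of_ne _ _ _ _ (Ne.symm h)]
      abel }

theorem tv_self (i : I) (r : R) : tv i i r = 1 := by simp [tv]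

theorem tv_val {i j : I} (h : i ≠ j) (r : R) : (tv i j r).val = 1 + Matrix.single i j r := by
  simp [tv, h]

theorem tv_inv_val {i j : I} (h : i ≠ j) (r : R) :
    ((tv i j r)⁻¹).val = 1 - Matrix.single i j r := by
  have h1 : (tv i j r).inv = 1 - Matrix.single i j r := by simp [tv, h]
  exact h1

theorem st_tv : St (fun i j r => tv i j r : I → I → R → (Matrix I I R)ˣ) where
  add i j h a b := by
    apply Units.ext
    simp only [Units.val_mul, tv_val h, mul_add, add_mul, one_mul, mul_one, Matrix.single_add,
      Matrix.single_mul_single_of_ne _ _ _ _ (Ne.symm h)]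
    abel
  mul i j k h1 h2 h3 a b := by
    rw [commutatorElement_def, mul_inv_eq_iff_eq_mul, mul_inv_eq_iff_eq_mul]
    apply Units.ext
    simp only [Units.val_mul, tv_val h1, tv_val h2, tv_val h3, mul_add, add_mul, one_mul, mul_one,
      Matrix.single_mul_single_same, Matrix.single_mul_single_of_ne _ _ _ _ (Ne.symm h3),
      Matrix.single_mul_single_of_ne _ _ _ _ (Ne.symm h1), Matrix.single_mul_single_of_ne _ _ _ _ (Ne.symm h2), zero_mul, add_zero]
    abel
  comm i j k l h1 h2 h3 h4 a b := by
    apply Units.ext
    simp only [Units.val_mul, tv_val h1, tv_val h2, mul_add, add_mul, one_mul, mul_one,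
      Matrix.single_mul_single_of_ne _ _ _ _ h3, Matrix.single_mul_single_of_ne _ _ _ _ (Ne.symm h4)]
    abel

/-- The homomorphism from the Steinberg group to the invertible matrices. -/
noncomputable def mt (R I : Type) [Ring R] [Fintype I] [DecidableEq I] :
    SU R I →* (Matrix I I R)ˣ :=
  lift0 (fun i j r => tv i j r) st_tv tv_self

theorem mt_xs (i j : I) (r : R) : mt R I (xs i j r) = tv i j r := lift0_xs _ _ _ i j r

/-- diagonal matrices with one entry different from one -/
def dD (i0 : I) (u : Rˣ) : (Matrix I I R)ˣ where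
  val := Matrix.diagonal fun i => if i = i0 then (u : R) else 1
  inv := Matrix.diagonal fun i => if i = i0 then ((u⁻¹ : Rˣ) : R) else 1
  val_inv := by
    rw [Matrix.diagonal_mul_diagonal, ← Matrix.diagonal_one]
    congr 1
    funext i
    by_cases h : i = i0 <;> simp [h]
  inv_val := by
    rw [Matrix.diagonal_mul_diagonal, ← Matrix.diagonal_one]
    congr 1
    funext i
    by_cases h : i = i0 <;> simp [h]

theorem dD_mul (i0 : I) (u v : Rˣ) : dD (I := I) i0 (u * v) = dD i0 u * dD i0 v := by
  apply Units.ext
  simp only [dD, Units.val_mul, Matrix.diagonal_mul_diagonal]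
  congr 1
  funext i
  by_cases h : i = i0 <;> simp [h]

end

/-! ## Nice rings -/

/-- purely infinite simple -/
def PI (R : Type) [Ring R] : Prop := ∀ c : R, c ≠ 0 → ∃ x a : R, x * c * a = 1

/-- general position -/
def GP (R : Type) [Ring R] : Prop := ∀ l : List R, ∃ b : R, b ≠ 0 ∧ ∀ c ∈ l, b * c * b = 0

/-- the center is `{0, 1}` -/
def CT (R : Type) [Ring R] : Prop := ∀ d : R, (∀ a, d * a = a * d) → d = 0 ∨ d = 1

/-- Leavitt's relations: `R ≅ R ^ 2` as modules -/
def Leav (R : Type) [Ring R] : Prop :=
  ∃ e s e' s' : R, e' * e = 1 ∧ s' * s = 1 ∧ e' * s = 0 ∧ s' * e = 0 ∧ e * e' + s * s' = 1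

/-- nice rings -/
structure Nice (R : Type) [Ring R] : Prop where
  two : (2 : R) = 0
  nt : (1 : R) ≠ 0
  pi : PI R
  gp : GP R
  ct : CT R
  sw : SwR R
  lv : Leav R

/-- adding an index -/
noncomputable def io (R I : Type) [Ring R] : SU R I →* SU R (Option I) :=
  mapSU some (Option.some_injective I) (NonUnitalRingHom.id R)

/-- the elementary transformations which fix the basis vector `none` -/
def PP (R I : Type) [Ring R] : Subgroup (SU R (Option I)) :=
  Subgroup.closure {z | ∃ (i j : Option I) (r : R), i ≠ j ∧ j ≠ none ∧ z = xs i j r}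

/-- the elementary transformations which fix the basis vectors `none` and `some none` -/
def PQ (R I : Type) [Ring R] : Subgroup (SU R (Option (Option I))) :=
  Subgroup.closure {z | ∃ (i j : Option (Option I)) (r : R), i ≠ j ∧ j ≠ none ∧ j ≠ some none ∧
    z = xs i j r}

/-- the Weyl element which permutes the basis vectors `a` and `b` (`2 = 0`) -/
def wy {R J : Type} [Ring R] (a b : J) : SU R J := xs a b 1 * xs b a 1 * xs a b 1

end Pool.Agent.H318.BQ
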