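import Pool.Agent.H318.BQ.Stm
import Pool.Graph.R_seed8.Y455.BH.Cent

/-!
# Project BQ (helper318): task CEN (helper102)
-/

set_option autoImplicit false

open scoped commutatorElement

namespace Pool.Agent.H318.BQ.T_CEN

open Y208.BH Pool.Agent.Y455.BH

section
variable {R I : Type} [Ring R]

/-- induction over the Steinberg group -/
theorem ind {P : SU R I → Prop} (h1 : ∀ i j r, i ≠ j → P (xs i j r)) (h2 : P 1)
    (h3 : ∀ x y, P x → P y → P (x * y)) (h4 : ∀ x, P x → P x⁻¹) (z : SU R I) : P z := by
  have hz : z ∈ Subgroup.closure {z : SU R I | ∃ (i j : I) (r : R), i ≠ j ∧ z = xs i j r} := by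
    rw [closure_xs]
    exact Subgroup.mem_top z
  induction hz using Subgroup.closure_induction with
  | mem x hx =>
    obtain ⟨i, j, r, hij, rfl⟩ := hx
    exact h1 i j r hij
  | one => exact h2
  | mul x y _ _ hx hy => exact h3 x y hx hy
  | inv x _ hx => exact h4 x hx

theorem io_xs (i j : I) (r : R) : io R I (xs i j r) = xs (some i) (some j) r := by
  unfold io
  rw [mapSU_xs]
  rfl

theorem io_mem (z : SU R I) : io R I z ∈ SJ R (Set.range (some : I → Option I)) := by
  refine ind (P := fun z => io R I z ∈ SJ R (Set.range (some : I → Option I))) ?_ ?_ ?_ ?_ z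
  · intro i j r hij
    rw [io_xs]
    refine Subgroup.subset_closure ⟨some i, some j, r, ⟨i, rfl⟩, ⟨j, rfl⟩, ?_, rfl⟩
    exact fun h => hij (Option.some_injective I h)
  · rw [map_one]
    exact Subgroup.one_mem _
  · intro x y hx hy
    rw [map_mul]
    exact Subgroup.mul_mem _ hx hy
  · intro x hx
    rw [map_inv]
    exact Subgroup.inv_mem _ hx

/-- the coordinates with index different from `none` -/
noncomputable def res (w : Option I →₀ R) : I →₀ R :=
  Finsupp.comapDomain some w ((Option.some_injective I).injOn)

theorem res_apply (w : Option I →₀ R) (i : I) : res w i = w (some i) := rfl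

theorem act (z : SU R I) : ∀ w : Option I →₀ R,
    rho R R (Option I) (io R I z) w none = w none ∧
      res (rho R R (Option I) (io R I z) w) = rho R R I z (res w) := by
  refine ind (P := fun z => ∀ w : Option I →₀ R,
    rho R R (Option I) (io R I z) w none = w none ∧
      res (rho R R (Option I) (io R I z) w) = rho R R I z (res w)) ?_ ?_ ?_ ?_ z
  · intro i j r hij w
    classical
    have hij' : (some i : Option I) ≠ some j := fun h => hij (Option.some_injective I h)
    rw [io_xs, rho_xs, rho_xs, el_apply hij', el_apply hij]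
    constructor
    · rw [Finsupp.add_apply, Finsupp.single_eq_of_ne (Option.some_ne_none i).symm, add_zero]
    · ext k
      rw [res_apply, Finsupp.add_apply, Finsupp.add_apply, res_apply, res_apply]
      congr 1
      by_cases hk : k = i
      · subst hk
        rw [Finsupp.single_eq_same, Finsupp.single_eq_same]
      · rw [Finsupp.single_eq_of_ne hk,
          Finsupp.single_eq_of_ne (fun h => hk (Option.some_injective I h))]
  · intro w
    rw [map_one, map_one, map_one]
    exact ⟨rfl, rfl⟩
  · intro x y hx hy w
    rw [map_mul, map_mul, map_mul, Equiv.Perm.mul_apply, Equiv.Perm.mul_apply]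
    obtain ⟨a1, a2⟩ := hx (rho R R (Option I) (io R I y) w)
    obtain ⟨b1, b2⟩ := hy w
    exact ⟨a1.trans b1, by rw [a2, b2]⟩
  · intro x hx w
    obtain ⟨w', hw'⟩ : ∃ w', w' = rho R R (Option I) (io R I x⁻¹) w := ⟨_, rfl⟩
    have e : rho R R (Option I) (io R I x) w' = w := by
      rw [hw', ← Equiv.Perm.mul_apply, ← map_mul, ← map_mul, mul_inv_cancel, map_one, map_one,
        Equiv.Perm.one_apply]
    obtain ⟨a1, a2⟩ := hx w'
    rw [e] at a1 a2
    rw [← hw']
    refine ⟨a1.symm, ?_⟩
    rw [a2, ← Equiv.Perm.mul_apply, ← map_mul, inv_mul_cancel, map_one, Equiv.Perm.one_apply]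

theorem rho_io (z : SU R I) (hz : rho R R I z = 1) : rho R R (Option I) (io R I z) = 1 := by
  apply Equiv.ext
  intro w
  obtain ⟨h1, h2⟩ := act z w
  rw [hz, Equiv.Perm.one_apply] at h2
  rw [Equiv.Perm.one_apply]
  ext k
  cases k with
  | none => exact h1
  | some i =>
    have := congrArg (fun v : I →₀ R => v i) h2
    exact this

end

theorem t : Pool.Agent.H318.BQ.S_CEN := by
  classical
  intro R I _ z hz y
  have hr := rho_io z hz
  obtain ⟨C, hC, hC1⟩ := exists_col (R := R) (none : Option I)
  obtain ⟨D, hD, hD1⟩ := exists_row (R := R) (none : Option I)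
  obtain ⟨h1, φ, h2, h3⟩ := act_SJ (J := Set.range (some : I → Option I))
    (fun ⟨i, hi⟩ => Option.some_ne_none i hi) hC hC1 hD hD1 (io_mem z)
  rw [hr] at h1 h3
  have hφ : ∀ w, φ w = w := by
    intro w
    ext k
    have := h3 w (Finsupp.single k 1)
    rw [Equiv.Perm.one_apply, pg_single_right, pg_single_right, mul_one, mul_one] at this
    exact this
  have c1 : ∀ i r, Commute (io R I z) (xs i none r : SU R (Option I)) := by
    intro i r
    have := h1 (Finsupp.single i r)
    rw [Equiv.Perm.one_apply, hC1] at this
    exact mul_inv_eq_iff_eq_mul.mp this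
  have c2 : ∀ i r, Commute (io R I z) (xs none i r : SU R (Option I)) := by
    intro i r
    have := h2 (Finsupp.single i r)
    rw [hφ, hD1] at this
    exact mul_inv_eq_iff_eq_mul.mp this
  refine ind (P := fun y => Commute (io R I z) y) ?_ ?_ ?_ ?_ y
  · intro i j r hij
    by_cases hi : i = none
    · rw [hi]
      exact c2 j r
    · by_cases hj : j = none
      · rw [hj]
        exact c1 i r
      · have e : (xs i j r : SU R (Option I)) = ⁅xs i none r, xs none j 1⁆ := by
          rw [xs_mul hi (Ne.symm hj) hij, mul_one]
        have d1 := c1 i r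
        have d2 := c2 j 1
        rw [e, commutatorElement_def]
        exact ((d1.mul_right d2).mul_right d1.inv_right).mul_right d2.inv_right
  · exact Commute.one_right _
  · intro x y hx hy
    exact hx.mul_right hy
  · intro x hx
    exact hx.inv_right

end Pool.Agent.H318.BQ.T_CEN
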