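import Pool.Agent.H318.BQ.Stm
import Pool.Graph.R_seed8.Y455.BH.Conj

/-!
# Project BQ: TASK CNJ
-/

set_option autoImplicit false

open scoped commutatorElement

namespace Pool.Agent.H318.BQ.T_CNJ

open Y208.BH Pool.Agent.Y455.BH

section
variable {R I : Type} [Ring R]

/-- the element which moves the index `some a` to `none` and back, with the factor `s` -/
def hh (a : I) (s s' : R) : SU R (Option I) :=
  mm none (some a) 1 1 * mm (some a) none s s'

theorem hh_conj (a : I) (s s' : R) (z : SU R (Option I)) : hh a s s' * z * (hh a s s')⁻¹ =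
    mm none (some a) 1 1 * (mm (some a) none s s' * z * (mm (some a) none s s')⁻¹) *
      (mm none (some a) 1 1)⁻¹ := by
  unfold hh
  group

theorem hh_left {a j : I} (hj : j ≠ a) {s s' y : R} (hy : s' * s * y = y) :
    hh a s s' * xs (some a) (some j) y * (hh a s s')⁻¹ =
      (xs (some a) (some j) (s * y) : SU R (Option I)) := by
  have hj1 : (some j : Option I) ≠ some a := fun h => hj (Option.some_injective I h)
  have hj2 : (some j : Option I) ≠ none := Option.some_ne_none j
  have ha : (some a : Option I) ≠ none := Option.some_ne_none a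
  rw [hh_conj, mm_left ha hj1 hj2 hy, mm_left ha.symm hj2 hj1 (by rw [one_mul, one_mul]), one_mul]

theorem hh_right {a j : I} (hj : j ≠ a) {s s' y : R} (hy : y * (s' * s) = y) :
    hh a s s' * xs (some j) (some a) y * (hh a s s')⁻¹ =
      (xs (some j) (some a) (y * s') : SU R (Option I)) := by
  have hj1 : (some j : Option I) ≠ some a := fun h => hj (Option.some_injective I h)
  have hj2 : (some j : Option I) ≠ none := Option.some_ne_none j
  have ha : (some a : Option I) ≠ none := Option.some_ne_none a
  rw [hh_conj, mm_right ha hj1 hj2 hy, mm_right ha.symm hj2 hj1 (by rw [mul_one, mul_one]), mul_one]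

theorem hh_other {a i j : I} (hi : i ≠ a) (hj : j ≠ a) (s s' y : R) :
    hh a s s' * xs (some i) (some j) y * (hh a s s')⁻¹ =
      (xs (some i) (some j) y : SU R (Option I)) := by
  have hi1 : (some i : Option I) ≠ some a := fun h => hi (Option.some_injective I h)
  have hi2 : (some i : Option I) ≠ none := Option.some_ne_none i
  have hj1 : (some j : Option I) ≠ some a := fun h => hj (Option.some_injective I h)
  have hj2 : (some j : Option I) ≠ none := Option.some_ne_none j
  rw [hh_conj, mm_other hi1 hi2 hj1 hj2, mm_other hi2 hi1 hj2 hj1]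

open Classical in
theorem exists_fix (s s' : R) (f : R → R) (h1 : ∀ r, s' * s * f r = f r)
    (h2 : ∀ r, f r * (s' * s) = f r) (K : Finset I) :
    ∃ M : SU R (Option I), ∀ i j : I, i ≠ j → ∀ r, M * xs (some i) (some j) (f r) * M⁻¹ =
      xs (some i) (some j)
        ((if i ∈ K then s else 1) * f r * (if j ∈ K then s' else 1)) := by
  induction K using Finset.induction_on with
  | empty =>
    refine ⟨1, fun i j _ r => ?_⟩
    simp
  | insert a K ha ih =>
    obtain ⟨M, hM⟩ := ih
    refine ⟨hh a s s' * M, fun i j hij r => ?_⟩
    have e : hh a s s' * M * xs (some i) (some j) (f r) * (hh a s s' * M)⁻¹ =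
        hh a s s' * (M * xs (some i) (some j) (f r) * M⁻¹) * (hh a s s')⁻¹ := by group
    rw [e, hM i j hij r]
    have hins : ∀ k, k ≠ a → (k ∈ insert a K ↔ k ∈ K) := by
      intro k hk
      rw [Finset.mem_insert]
      constructor
      · rintro (h | h)
        · exact absurd h hk
        · exact h
      · exact Or.inr
    by_cases hia : i = a
    · subst hia
      have hja : j ≠ i := hij.symm
      simp only [ha, if_false, Finset.mem_insert_self, if_true, hins j hja, one_mul]
      rw [hh_left hja]
      · rw [← mul_assoc]
      · rw [← mul_assoc, h1]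
    · by_cases hja : j = a
      · subst hja
        simp only [ha, if_false, Finset.mem_insert_self, if_true, hins i hia, mul_one]
        rw [hh_right hia]
        rw [mul_assoc, h2]
      · simp only [hins i hia, hins j hja]
        exact hh_other hia hja _ _ _

end

theorem t : Pool.Agent.H318.BQ.S_CNJ := by
  classical
  intro R I _ _ s s' f g h1 h2 hg z
  have : Fintype I := Fintype.ofFinite I
  obtain ⟨M, hM⟩ := exists_fix s s' (fun r => f r) h1 h2 (Finset.univ : Finset I)
  refine ⟨M, ?_⟩
  have hz : z ∈ Subgroup.closure {z : SU R I | ∃ (i j : I) (r : R), i ≠ j ∧ z = xs i j r} := by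
    rw [closure_xs]
    exact Subgroup.mem_top z
  have hEq : Set.EqOn (mapSU some (Option.some_injective I) g)
      ((MulAut.conj M).toMonoidHom.comp (mapSU some (Option.some_injective I) f))
      {z : SU R I | ∃ (i j : I) (r : R), i ≠ j ∧ z = xs i j r} := by
    rintro _ ⟨i, j, r, hij, rfl⟩
    show mapSU some (Option.some_injective I) g (xs i j r) =
      M * mapSU some (Option.some_injective I) f (xs i j r) * M⁻¹
    rw [mapSU_xs, mapSU_xs]
    have e := hM i j hij r
    simp only [Finset.mem_univ, if_true] at e
    rw [e, hg]
  exact MonoidHom.eqOn_closure hEq hz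

end Pool.Agent.H318.BQ.T_CNJ
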