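import Pool.Agent.H318.BQ.Stm

/-!
# Task COL: prescribed columns of the elementary transformations in `PQ`
-/

set_option autoImplicit false

namespace Pool.Agent.H318.BQ.T_COL

open Y208.BH Pool.Agent.H318.BQ

/-- the column `a` of an element of `PQ` -/
def P (R I : Type) [Ring R] [Fintype I] [DecidableEq I] (a : Option (Option I))
    (v : Option (Option I) → R) : Prop :=
  ∃ q ∈ PQ R I, ∀ i, (mt R (Option (Option I)) q).val i a = v i

variable {R I : Type} [Ring R] [Fintype I] [DecidableEq I]

theorem P_congr {a : Option (Option I)} {v w : Option (Option I) → R} (hv : P R I a v)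
    (h : ∀ i, v i = w i) : P R I a w := by
  obtain ⟨q, hq, hqv⟩ := hv
  exact ⟨q, hq, fun i => (hqv i).trans (h i)⟩

theorem P_start (a : Option (Option I)) : P R I a (fun k => if k = a then 1 else 0) := by
  refine ⟨1, one_mem _, fun i => ?_⟩
  rw [map_one, Units.val_one, Matrix.one_apply]

theorem P_step {a : Option (Option I)} {v : Option (Option I) → R} (hv : P R I a v)
    (i j : Option (Option I)) (r : R) (hij : i ≠ j) (h1 : j ≠ none) (h2 : j ≠ some none) :
    P R I a (fun k => v k + if k = i then r * v j else 0) := by
  obtain ⟨q, hq, hqv⟩ := hv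
  refine ⟨xs i j r * q, mul_mem (Subgroup.subset_closure ⟨i, j, r, hij, h1, h2, rfl⟩) hq,
    fun k => ?_⟩
  rw [map_mul, mt_xs, Units.val_mul, tv_val hij, add_mul, one_mul, Matrix.add_apply, hqv k]
  congr 1
  by_cases hk : k = i
  · subst hk
    rw [Matrix.single_mul_apply_same, if_pos rfl, hqv j]
  · rw [Matrix.single_mul_apply_of_ne _ _ _ _ _ hk, if_neg hk]

theorem P_fill (i0 : I) (u : Option (Option I) → R) (S : Finset (Option (Option I))) :
    some (some i0) ∉ S →
    P R I (some (some i0)) (fun k => if k = some (some i0) then 1 else if k ∈ S then u k else 0) := by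
  classical
  induction S using Finset.induction_on with
  | empty =>
    intro _
    exact P_congr (P_start _) fun i => by simp
  | insert k S hk ih =>
    intro hS
    have hS' : some (some i0) ∉ S := fun h => hS (Finset.mem_insert_of_mem h)
    have hka : k ≠ some (some i0) := fun h => hS (h ▸ Finset.mem_insert_self _ _)
    refine P_congr (P_step (ih hS') k (some (some i0)) (u k) hka (by simp) (by simp)) ?_
    intro i
    by_cases h1 : i = some (some i0)
    · subst h1
      simp [hka.symm]
    · by_cases h2 : i = k
      · subst h2
        simp [h1, hk]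
      · simp [h1, h2, Finset.mem_insert]

theorem t : Pool.Agent.H318.BQ.S_COL := by
  intro R I _ _ _ i0 i1 h01 v hx
  obtain ⟨x, hx⟩ := hx
  have hab : (some (some i0) : Option (Option I)) ≠ some (some i1) := by
    intro h
    exact h01 (Option.some.inj (Option.some.inj h))
  have h1 := P_fill (R := R) i0 (fun k => if k = some (some i1) then 1 else v k)
    (Finset.univ.erase (some (some i0))) (by simp)
  have h2 := P_step h1 (some (some i0)) (some (some i1)) (v (some (some i0)) - 1) hab
    (by simp) (by simp)
  have h3 := P_step h2 (some (some i1)) (some (some i0)) ((v (some (some i1)) - 1) * x) hab.symm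
    (by simp) (by simp)
  refine P_congr h3 ?_
  intro i
  by_cases ha : i = some (some i0)
  · subst ha
    simp [h01, Ne.symm h01]
  · by_cases hb : i = some (some i1)
    · subst hb
      have e : (v (some (some i1)) - 1) * x * v (some (some i0)) = v (some (some i1)) - 1 := by
        rw [mul_assoc, hx, mul_one]
      simp [Ne.symm h01, e]
    · simp [ha, hb]

end Pool.Agent.H318.BQ.T_COL
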