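import Pool.Agent.H318.BQ.Stm

/-!
# Project BQ, task FPF: the Steinberg group over a finitely presented algebra is finitely presented
-/

set_option autoImplicit false

open scoped commutatorElement

namespace Pool.Agent.H318.BQ.T_FPF

open Y208.BH

/-- the letters as words -/
def yw {J A : Type} (i j : J) (a : Option A) : FreeGroup (J × J × Option A) :=
  FreeGroup.of (i, j, a)

/-- the relators of the letters -/
def L (J A : Type) : Set (FreeGroup (J × J × Option A)) :=
  {w | (∃ (i : J) (a : Option A), w = yw i i a) ∨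
    (∃ (i j : J) (a : Option A), i ≠ j ∧ w = yw i j a * yw i j a) ∨
    (∃ (i j k l : J) (a b : Option A), i ≠ j ∧ k ≠ l ∧ j ≠ k ∧ i ≠ l ∧
      w = ⁅yw i j a, yw k l b⁆) ∨
    (∃ (i j k : J) (a : Option A), i ≠ j ∧ j ≠ k ∧ i ≠ k ∧
      w = ⁅yw i j a, yw j k (none : Option A)⁆ * (yw i k a)⁻¹) ∨
    (∃ (i j k : J) (a : Option A), i ≠ j ∧ j ≠ k ∧ i ≠ k ∧
      w = ⁅yw i j (none : Option A), yw j k a⁆ * (yw i k a)⁻¹)}

theorem L_finite (J A : Type) [Finite J] [Finite A] : (L J A).Finite := by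
  have h1 : (Set.range fun p : J × Option A => yw p.1 p.1 p.2).Finite := Set.finite_range _
  have h2 : (Set.range fun p : J × J × Option A =>
    yw p.1 p.2.1 p.2.2 * yw p.1 p.2.1 p.2.2).Finite := Set.finite_range _
  have h3 : (Set.range fun p : (J × J × J × J) × Option A × Option A =>
    ⁅yw p.1.1 p.1.2.1 p.2.1, yw p.1.2.2.1 p.1.2.2.2 p.2.2⁆).Finite := Set.finite_range _
  have h4 : (Set.range fun p : J × J × J × Option A =>
    ⁅yw p.1 p.2.1 p.2.2.2, yw p.2.1 p.2.2.1 (none : Option A)⁆ * (yw p.1 p.2.2.1 p.2.2.2)⁻¹).Finite :=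
    Set.finite_range _
  have h5 : (Set.range fun p : J × J × J × Option A =>
    ⁅yw p.1 p.2.1 (none : Option A), yw p.2.1 p.2.2.1 p.2.2.2⁆ * (yw p.1 p.2.2.1 p.2.2.2)⁻¹).Finite :=
    Set.finite_range _
  refine (h1.union (h2.union (h3.union (h4.union h5)))).subset ?_
  rintro w (⟨i, a, rfl⟩ | ⟨i, j, a, -, rfl⟩ | ⟨i, j, k, l, a, b, -, -, -, -, rfl⟩ |
    ⟨i, j, k, a, -, -, -, rfl⟩ | ⟨i, j, k, a, -, -, -, rfl⟩)
  · exact Or.inl ⟨(i, a), rfl⟩
  · exact Or.inr (Or.inl ⟨(i, j, a), rfl⟩)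
  · exact Or.inr (Or.inr (Or.inl ⟨((i, j, k, l), a, b), rfl⟩))
  · exact Or.inr (Or.inr (Or.inr (Or.inl ⟨(i, j, k, a), rfl⟩)))
  · exact Or.inr (Or.inr (Or.inr (Or.inr ⟨(i, j, k, a), rfl⟩)))

/-- the group of the letters -/
abbrev G0 (J A : Type) : Type := PresentedGroup (L J A)

/-- the letters -/
def y0 {J A : Type} (i j : J) (a : Option A) : G0 J A := PresentedGroup.mk (L J A) (yw i j a)

theorem y0_self {J A : Type} (i : J) (a : Option A) : (y0 i i a : G0 J A) = 1 :=
  PresentedGroup.one_of_mem (rels := L J A) (x := yw i i a) (Or.inl ⟨i, a, rfl⟩)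

theorem let_y0 (J A : Type) : LetRel (y0 : J → J → Option A → G0 J A) where
  sq i j a h := by
    have := PresentedGroup.one_of_mem (rels := L J A) (x := yw i j a * yw i j a)
      (Or.inr (Or.inl ⟨i, j, a, h, rfl⟩))
    rwa [map_mul] at this
  comm i j k l a b h1 h2 h3 h4 := by
    have := PresentedGroup.one_of_mem (rels := L J A) (x := ⁅yw i j a, yw k l b⁆)
      (Or.inr (Or.inr (Or.inl ⟨i, j, k, l, a, b, h1, h2, h3, h4, rfl⟩)))
    rwa [map_commutatorElement, commutatorElement_eq_one_iff_commute] at this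
  mul1 i j k a h1 h2 h3 := by
    have := PresentedGroup.one_of_mem (rels := L J A)
      (x := ⁅yw i j a, yw j k (none : Option A)⁆ * (yw i k a)⁻¹)
      (Or.inr (Or.inr (Or.inr (Or.inl ⟨i, j, k, a, h1, h2, h3, rfl⟩))))
    rwa [map_mul, map_inv, map_commutatorElement, mul_inv_eq_one] at this
  mul2 i j k a h1 h2 h3 := by
    have := PresentedGroup.one_of_mem (rels := L J A)
      (x := ⁅yw i j (none : Option A), yw j k a⁆ * (yw i k a)⁻¹)
      (Or.inr (Or.inr (Or.inr (Or.inr ⟨i, j, k, a, h1, h2, h3, rfl⟩))))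
    rwa [map_mul, map_inv, map_commutatorElement, mul_inv_eq_one] at this

/-- the homomorphism given by letters in a group -/
theorem exists_hom {J A Γ : Type} [Group Γ] (y : J → J → Option A → Γ) (hy : LetRel y)
    (h0 : ∀ i a, y i i a = 1) :
    ∃ f : G0 J A →* Γ, ∀ i j a, f (y0 i j a) = y i j a := by
  have hw : ∀ i j a, FreeGroup.lift (fun p : J × J × Option A => y p.1 p.2.1 p.2.2) (yw i j a) =
      y i j a := fun i j a => by rw [yw, FreeGroup.lift_apply_of]
  have hL : ∀ w ∈ L J A, FreeGroup.lift (fun p : J × J × Option A => y p.1 p.2.1 p.2.2) w = 1 := by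
    rintro w (⟨i, a, rfl⟩ | ⟨i, j, a, h, rfl⟩ | ⟨i, j, k, l, a, b, h1, h2, h3, h4, rfl⟩ |
      ⟨i, j, k, a, h1, h2, h3, rfl⟩ | ⟨i, j, k, a, h1, h2, h3, rfl⟩)
    · rw [hw, h0]
    · rw [map_mul, hw, hy.sq i j a h]
    · rw [map_commutatorElement, commutatorElement_eq_one_iff_commute, hw, hw]
      exact hy.comm i j k l a b h1 h2 h3 h4
    · rw [map_mul, map_inv, map_commutatorElement, mul_inv_eq_one, hw, hw, hw]
      exact hy.mul1 i j k a h1 h2 h3
    · rw [map_mul, map_inv, map_commutatorElement, mul_inv_eq_one, hw, hw, hw]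
      exact hy.mul2 i j k a h1 h2 h3
  refine ⟨PresentedGroup.toGroup hL, fun i j a => ?_⟩
  exact (PresentedGroup.toGroup.of hL).trans rfl

theorem st_comp {R I Γ Γ' : Type} [Ring R] [Group Γ] [Group Γ'] (x : I → I → R → Γ) (hx : St x)
    (f : Γ →* Γ') : St (fun i j r => f (x i j r)) where
  add i j h a b := by rw [hx.add i j h, map_mul]
  mul i j k h1 h2 h3 a b := by rw [← hx.mul i j k h1 h2 h3, map_commutatorElement]
  comm i j k l h1 h2 h3 h4 a b := (hx.comm i j k l h1 h2 h3 h4 a b).map f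

theorem st_ring {R R' I Γ : Type} [Ring R] [Ring R'] [Group Γ] (x : I → I → R → Γ)
    (hx : St x) (f : R' →+* R) : St (fun i j r => x i j (f r)) where
  add i j h a b := by rw [map_add, hx.add i j h]
  mul i j k h1 h2 h3 a b := by rw [map_mul, hx.mul i j k h1 h2 h3]
  comm i j k l h1 h2 h3 h4 a b := hx.comm i j k l h1 h2 h3 h4 _ _

theorem st_zero {R I Γ : Type} [Ring R] [Group Γ] {x : I → I → R → Γ} (hx : St x) {i j : I}
    (h : i ≠ j) : x i j 0 = 1 := by
  have := hx.add i j h 0 0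
  rw [add_zero] at this
  exact left_eq_mul.1 this

/-- letters in a Steinberg group of characteristic two -/
theorem let_st {A I R Γ : Type} [Ring R] [Algebra (ZMod 2) R] [Group Γ]
    (x : I → I → R → Γ) (hx : St x) (f : Option A → R) (hf : f none = 1) :
    LetRel (fun i j a => x i j (f a)) where
  sq i j a h := by
    rw [← hx.add i j h, ZModModule.add_self, st_zero hx h]
  comm i j k l a b h1 h2 h3 h4 := hx.comm i j k l h1 h2 h3 h4 _ _
  mul1 i j k a h1 h2 h3 := by
    rw [hf, hx.mul i j k h1 h2 h3, mul_one]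
  mul2 i j k a h1 h2 h3 := by
    rw [hf, hx.mul i j k h1 h2 h3, one_mul]

/-- the unit and the generators of the free algebra -/
noncomputable def gr {A : Type} : Option A → FreeAlgebra (ZMod 2) A
  | none => 1
  | some a => FreeAlgebra.ι (ZMod 2) a

/-- TASK FPF -/
theorem t (h1 : S_LTF) (h2 : S_UNI) (h3 : S_QUF) : S_FPF := by
  intro R J _ _ _ hJ hR
  obtain ⟨n, φ, T, hφs, hφ⟩ := hR
  obtain ⟨x₀, hx₀, hx1, hx2⟩ := h1 (Fin n) J (G0 J (Fin n)) hJ y0 (let_y0 J (Fin n))
  have hxg : ∀ i j a, i ≠ j → x₀ i j (gr a) = y0 i j a := by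
    intro i j a h
    rcases a with _ | a
    · exact hx1 i j h
    · exact hx2 i j a h
  obtain ⟨i0, j0, hij⟩ : ∃ i j : J, i ≠ j := by
    have : Nontrivial J := Finite.one_lt_card_iff_nontrivial.1 (by omega)
    exact exists_pair_ne J
  -- the finitely presented group
  have : Finite (L J (Fin n)) := L_finite J (Fin n)
  let N : Subgroup (G0 J (Fin n)) := Subgroup.normalClosure ((fun t => x₀ i0 j0 t) '' (T : Set _))
  have hN : N.IsFinitelyNormallyGenerated := ⟨_, T.finite_toSet.image _, rfl⟩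
  have hfp : Group.IsFinitelyPresented (G0 J (Fin n) ⧸ N) := Group.IsFinitelyPresented.quotient N hN
  let q : G0 J (Fin n) →* G0 J (Fin n) ⧸ N := QuotientGroup.mk' N
  have hq : ∀ t ∈ (T : Set (FreeAlgebra (ZMod 2) (Fin n))), q (x₀ i0 j0 t) = 1 := by
    intro t ht
    exact (QuotientGroup.eq_one_iff _).2 (Subgroup.subset_normalClosure ⟨t, ht, rfl⟩)
  -- the Steinberg group maps to it
  obtain ⟨x', hx', hxφ⟩ := h3 (FreeAlgebra (ZMod 2) (Fin n)) R J (G0 J (Fin n) ⧸ N) hJ
    (φ : FreeAlgebra (ZMod 2) (Fin n) →+* R) (T : Set _) (fun i j r => q (x₀ i j r)) hφs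
    (fun r hr => (hφ r).1 hr) (st_comp x₀ hx₀ q) ⟨i0, j0, hij, hq⟩
  obtain ⟨π, hπ⟩ := exists_lift x' hx'
  -- and conversely
  obtain ⟨f₀, hf₀⟩ := exists_hom (fun i j (a : Option (Fin n)) => (xs i j (φ (gr a)) : SU R J))
    (let_st _ (st_xs R J) (fun a => φ (gr a)) (map_one φ)) (fun i a => xs_self i _)
  have hfx : ∀ i j r, i ≠ j → f₀ (x₀ i j r) = xs i j (φ r) := by
    intro i j r hij
    have := h2 (Fin n) J (SU R J) hJ (fun i j r => f₀ (x₀ i j r))
      (fun i j r => xs i j ((φ : FreeAlgebra (ZMod 2) (Fin n) →+* R) r)) (st_comp x₀ hx₀ f₀)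
      (st_ring _ (st_xs R J) (φ : FreeAlgebra (ZMod 2) (Fin n) →+* R))
      (fun i j h => by
        have e : f₀ (x₀ i j 1) = xs i j (φ (gr none)) := by
          rw [hx1 i j h, hf₀]
        exact e)
      (fun i j a h => by
        have e : f₀ (x₀ i j (FreeAlgebra.ι (ZMod 2) a)) = xs i j (φ (gr (some a))) := by
          rw [hx2 i j a h, hf₀]
        exact e) i j r hij
    exact this
  have hNf : N ≤ f₀.ker := by
    apply Subgroup.normalClosure_le_normal
    rintro _ ⟨t, ht, rfl⟩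
    show f₀ (x₀ i0 j0 t) = 1
    rw [hfx i0 j0 t hij, (hφ t).2 (TwoSidedIdeal.subset_span ht)]
    exact st_zero (st_xs R J) hij
  let f : G0 J (Fin n) ⧸ N →* SU R J := QuotientGroup.lift N f₀ hNf
  have hf : ∀ g, f (q g) = f₀ g := fun g => QuotientGroup.lift_mk' N hNf g
  have e1 : ∀ z, f (π z) = z := by
    intro z
    have : f.comp π = MonoidHom.id _ := by
      refine MonoidHom.eq_of_eqOn_dense (closure_xs R J) ?_
      rintro _ ⟨i, j, r, hij, rfl⟩
      obtain ⟨p, rfl⟩ := hφs r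
      show f (π (xs i j (φ p))) = xs i j (φ p)
      rw [hπ i j _ hij]
      have e : x' i j (φ p) = q (x₀ i j p) := hxφ i j p hij
      rw [e, hf, hfx i j p hij]
    exact DFunLike.congr_fun this z
  have e2 : ∀ z, π (f z) = z := by
    intro z
    obtain ⟨g, rfl⟩ := QuotientGroup.mk'_surjective N z
    have : (π.comp f).comp q = q := by
      apply PresentedGroup.ext
      rintro ⟨i, j, a⟩
      show π (f (q (y0 i j a))) = q (y0 i j a)
      by_cases h : i = j
      · subst h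
        rw [y0_self, map_one, map_one, map_one]
      · rw [hf, hf₀, hπ i j _ h]
        have e : x' i j (φ (gr a)) = q (x₀ i j (gr a)) := hxφ i j _ h
        rw [e, hxg i j a h]
    exact DFunLike.congr_fun this g
  let E : (G0 J (Fin n) ⧸ N) ≃* SU R J :=
    { toFun := f
      invFun := π
      left_inv := e2
      right_inv := e1
      map_mul' := f.map_mul }
  exact Group.IsFinitelyPresented.equiv E

end Pool.Agent.H318.BQ.T_FPF
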