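import Pool.Agent.H318.BQ.Stm
import Pool.Graph.R_seed8.Y455.BH.Conj

set_option autoImplicit false

open scoped commutatorElement

namespace Pool.Agent.H318.BQ.T_GEN

open Y208.BH Y455.BH

theorem t : Pool.Agent.H318.BQ.S_GEN := by
  intro R I _ _ hI h2
  obtain ⟨c0⟩ := hI
  have hm : (-1 : R) = 1 := by
    have h3 : (1 : R) + 1 = 0 := by rw [one_add_one_eq_two, h2]
    exact neg_eq_of_add_eq_zero_left h3
  obtain ⟨C, hC⟩ : ∃ C, C = Subgroup.closure ((PP R (Option I) : Set (SU R (Option (Option I)))) ∪
      {wy none (some none)}) := ⟨_, rfl⟩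
  rw [← hC]
  have hw : (wy none (some none) : SU R (Option (Option I))) = mm (some none) none 1 1 := by
    unfold wy mm
    rw [hm]
  have hP : ∀ (i j : Option (Option I)) (r : R), i ≠ j → j ≠ none →
      (xs i j r : SU R (Option (Option I))) ∈ C := by
    intro i j r hij hj
    rw [hC]
    exact Subgroup.subset_closure (Or.inl (Subgroup.subset_closure ⟨i, j, r, hij, hj, rfl⟩))
  have hwC : (wy none (some none) : SU R (Option (Option I))) ∈ C := by
    rw [hC]
    exact Subgroup.subset_closure (Or.inr rfl)
  have hA : ∀ (i : Option (Option I)) (r : R), i ≠ none → i ≠ some none →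
      (xs i none r : SU R (Option (Option I))) ∈ C := by
    intro i r h1 h3
    have e := mm_right (R := R) (a := some none) (b := none) (j := i) (by simp) h3 h1
      (s := 1) (s' := 1) (y := r) (by simp)
    rw [mul_one, ← hw] at e
    rw [← e]
    exact C.mul_mem (C.mul_mem hwC (hP i (some none) r h3 (by simp))) (C.inv_mem hwC)
  have hB : ∀ r : R, (xs (some none) none r : SU R (Option (Option I))) ∈ C := by
    intro r
    have e := xs_mul (R := R) (i := some none) (j := some (some c0))
      (k := (none : Option (Option I))) (by simp) (by simp) (by simp) r 1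
    rw [mul_one] at e
    rw [← e, commutatorElement_def]
    have h3 := hP (some none) (some (some c0)) r (by simp) (by simp)
    have h4 := hA (some (some c0)) 1 (by simp) (by simp)
    exact C.mul_mem (C.mul_mem (C.mul_mem h3 h4) (C.inv_mem h3)) (C.inv_mem h4)
  rw [eq_top_iff, ← closure_xs, Subgroup.closure_le]
  rintro z ⟨i, j, r, hij, rfl⟩
  by_cases hj : j = none
  · rw [hj]
    rw [hj] at hij
    by_cases hi : i = some none
    · rw [hi]
      exact hB r
    · exact hA i r hij hi
  · exact hP i j r hij hj

end Pool.Agent.H318.BQ.T_GEN
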