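import Pool.Agent.H318.BQ.Stm

/-!
# Diagonal matrices with one unit entry are elementary over a ring with a swindle (task GLD)
-/

set_option autoImplicit false

namespace Pool.Agent.H318.BQ.T_GLD

open Y208.BH
open Pool.Agent.H318.BQ

section
variable {R I : Type} [Ring R] [Fintype I] [DecidableEq I]

/-- the matrix with the block `[[1 + A, B], [C, 1 + D]]` -/
def blk (i j : I) (A B C D : R) : Matrix I I R :=
  1 + Matrix.single i i A + Matrix.single i j B + Matrix.single j i C + Matrix.single j j D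

theorem blk_mul {i j : I} (h : i ≠ j) (A B C D A' B' C' D' : R) :
    blk i j A B C D * blk i j A' B' C' D' =
      blk i j (A + A' + A * A' + B * C') (B' + A * B' + B + B * D') (C + C * A' + C' + D * C')
        (C * B' + D + D' + D * D') := by
  unfold blk
  simp only [mul_add, add_mul, one_mul, mul_one, Matrix.single_mul_single_same,
    Matrix.single_mul_single_of_ne _ _ _ _ h, Matrix.single_mul_single_of_ne _ _ _ _ h.symm,
    Matrix.single_add, add_zero, zero_add]
  abel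

theorem tv_blk {i j : I} (h : i ≠ j) (r : R) : (tv i j r).val = blk i j 0 r 0 0 := by
  rw [tv_val h]
  unfold blk
  simp only [Matrix.single_zero, add_zero]

theorem tv_blk' {i j : I} (h : i ≠ j) (r : R) : (tv j i r).val = blk i j 0 0 r 0 := by
  rw [tv_val h.symm]
  unfold blk
  simp only [Matrix.single_zero, add_zero]

theorem diag_eq (i0 : I) (r : R) :
    (Matrix.diagonal fun k => if k = i0 then r else 1) = 1 + Matrix.single i0 i0 (r - 1) := by
  ext a b
  rw [Matrix.add_apply, Matrix.diagonal_apply, Matrix.one_apply, Matrix.single_apply]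
  by_cases h : a = b
  · subst h
    by_cases h2 : a = i0
    · subst h2
      simp
    · simp [h2, Ne.symm h2]
  · by_cases h2 : i0 = a
    · subst h2
      simp [h]
    · simp [h, h2]

theorem dD_blk (i j : I) (u : Rˣ) : (dD (I := I) i u).val = blk i j ((u : R) - 1) 0 0 0 := by
  show (Matrix.diagonal fun k => if k = i then (u : R) else 1) = _
  rw [diag_eq]
  unfold blk
  simp only [Matrix.single_zero, add_zero]

theorem dD_blk' (i j : I) (u : Rˣ) : (dD (I := I) j u).val = blk i j 0 0 0 ((u : R) - 1) := by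
  show (Matrix.diagonal fun k => if k = j then (u : R) else 1) = _
  rw [diag_eq]
  unfold blk
  simp only [Matrix.single_zero, add_zero]

theorem tv_mem (i j : I) (r : R) : tv i j r ∈ (mt R I).range := ⟨xs i j r, mt_xs i j r⟩

/-- the Weyl element -/
theorem wlem {i j : I} (h : i ≠ j) (a b : R) :
    (tv i j a * tv j i (-b) * tv i j a).val =
      blk i j (-(a * b)) (a + a - a * b * a) (-b) (-(b * a)) := by
  rw [Units.val_mul, Units.val_mul, tv_blk h, tv_blk' h, blk_mul h, blk_mul h]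
  congr 1 <;> simp <;> noncomm_ring

/-- **Claim G.** -/
theorem G {i j : I} (h : i ≠ j) {f x y sg sg' : R} (h1 : f * f = f) (h2 : x * y = f)
    (h3 : y * x = f) (h4 : f * x = x) (h5 : x * f = x) (h7 : y * f = y)
    (h8 : sg' * sg = f) (h9 : sg * f = sg) (h10 : f * sg' = sg') :
    ∃ g ∈ (mt R I).range, g.val = blk i j (sg * (x - f) * sg') 0 0 (y - f) := by
  refine ⟨(tv i j (sg * x) * tv j i (-(y * sg')) * tv i j (sg * x)) *
    (tv i j (-sg) * tv j i (-(-sg')) * tv i j (-sg)), ?_, ?_⟩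
  · exact mul_mem (mul_mem (mul_mem (tv_mem _ _ _) (tv_mem _ _ _)) (tv_mem _ _ _))
      (mul_mem (mul_mem (tv_mem _ _ _) (tv_mem _ _ _)) (tv_mem _ _ _))
  · have k1 : sg * x * (y * sg') = sg * sg' := by rw [mul_assoc, ← mul_assoc x y sg', h2, h10]
    have k2 : sg * x * (y * sg') * (sg * x) = sg * x := by
      rw [k1, mul_assoc, ← mul_assoc sg' sg x, h8, h4]
    have k3 : y * sg' * (sg * x) = f := by
      rw [mul_assoc, ← mul_assoc sg' sg x, h8, h4, h3]
    have k4 : sg * sg' * (sg * sg') = sg * sg' := by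
      rw [mul_assoc, ← mul_assoc sg' sg sg', h8, h10]
    have k5 : sg * sg' * sg = sg := by rw [mul_assoc, h8, h9]
    have k6 : y * sg' * sg = y := by rw [mul_assoc, h8, h7]
    have k7 : y * sg' * (sg * sg') = y * sg' := by
      rw [mul_assoc, ← mul_assoc sg' sg sg', h8, h10]
    have k8 : sg * x * f = sg * x := by rw [mul_assoc, h5]
    have k9 : sg * (x - f) * sg' = sg * x * sg' - sg * sg' := by rw [mul_sub, sub_mul, h9]
    have w1 : (tv i j (sg * x) * tv j i (-(y * sg')) * tv i j (sg * x)).val =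
        blk i j (-(sg * sg')) (sg * x) (-(y * sg')) (-f) := by
      rw [wlem h, k2, k1, k3]
      congr 1
      abel
    have w2 : (tv i j (-sg) * tv j i (-(-sg')) * tv i j (-sg)).val =
        blk i j (-(sg * sg')) (-sg) sg' (-f) := by
      rw [wlem h]
      have e1 : -sg * -sg' = sg * sg' := by rw [neg_mul_neg]
      have e2 : -sg + -sg - -sg * -sg' * -sg = -sg := by
        rw [e1, mul_neg, k5]
        abel
      have e3 : -sg' * -sg = f := by rw [neg_mul_neg, h8]
      rw [e2, e1, e3, neg_neg]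
    rw [Units.val_mul, w1, w2, blk_mul h]
    have a1 : -(sg * sg') + -(sg * sg') + -(sg * sg') * -(sg * sg') + sg * x * sg' =
        sg * (x - f) * sg' := by
      rw [neg_mul_neg, k4, k9]
      abel
    have a2 : -sg + -(sg * sg') * -sg + sg * x + sg * x * -f = 0 := by
      rw [neg_mul_neg, k5, mul_neg, k8]
      abel
    have a3 : -(y * sg') + -(y * sg') * -(sg * sg') + sg' + -f * sg' = 0 := by
      rw [neg_mul_neg, k7, neg_mul, h10]
      abel
    have a4 : -(y * sg') * -sg + -f + -f + -f * -f = y - f := by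
      rw [neg_mul_neg, k6, neg_mul_neg, h1]
      abel
    rw [a1, a2, a3, a4]

end

/-- **Task GLD.** -/
theorem t : Pool.Agent.H318.BQ.S_GLD := by
  intro R I _ _ _ hsw hI i0 u
  obtain ⟨j, hj⟩ := Fintype.exists_ne_of_one_lt_card (by omega : 1 < Fintype.card I) i0
  have h : i0 ≠ j := hj.symm
  obtain ⟨e, e', s, s', Φ, q1, q2, q3, q4, q5, q6⟩ := hsw
  -- the elements
  have hmul : ∀ a b : R, Φ a * Φ b = Φ (a * b) := fun a b => (map_mul Φ a b).symm
  have r1 : Φ 1 * Φ 1 = Φ 1 := by rw [hmul, mul_one]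
  have r2 : Φ (u : R) * Φ ((u⁻¹ : Rˣ) : R) = Φ 1 := by rw [hmul, Units.mul_inv]
  have r3 : Φ ((u⁻¹ : Rˣ) : R) * Φ (u : R) = Φ 1 := by rw [hmul, Units.inv_mul]
  have r4 : Φ 1 * Φ (u : R) = Φ (u : R) := by rw [hmul, one_mul]
  have r5 : Φ (u : R) * Φ 1 = Φ (u : R) := by rw [hmul, mul_one]
  have r7 : Φ ((u⁻¹ : Rˣ) : R) * Φ 1 = Φ ((u⁻¹ : Rˣ) : R) := by rw [hmul, mul_one]
  obtain ⟨g1, m1, v1⟩ := G (I := I) h r1 r2 r3 r4 r5 r7 r1 r1 r1
  have t1 : Φ 1 * s' * (s * Φ 1) = Φ 1 := by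
    rw [mul_assoc, ← mul_assoc s' s, q4, r1]
  obtain ⟨g2, m2, v2⟩ := G (I := I) h (sg := s * Φ 1) (sg' := Φ 1 * s') r1 r2 r3 r4 r5 r7 t1
    (by rw [mul_assoc, r1]) (by rw [← mul_assoc, r1])
  obtain ⟨g3, m3, v3⟩ := G (I := I) h (f := 1) (x := (u : R)) (y := ((u⁻¹ : Rˣ) : R)) (sg := e)
    (sg' := e') (mul_one 1) (Units.mul_inv u) (Units.inv_mul u) (one_mul _) (mul_one _) (mul_one _) q1
    (mul_one _) (one_mul _)
  obtain ⟨g4, m4, v4⟩ := G (I := I) h (f := 1) (x := (u : R)) (y := ((u⁻¹ : Rˣ) : R)) (sg := 1)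
    (sg' := 1) (mul_one 1) (Units.mul_inv u) (Units.inv_mul u) (one_mul _) (mul_one _) (mul_one _)
    (mul_one 1) (mul_one _) (one_mul _)
  -- the product of `g1` and the inverse of `g2`
  have hd : g1.val = blk i0 j (e * ((u : R) - 1) * e') 0 0 0 * g2.val := by
    rw [v1, v2, blk_mul h]
    have e1 : Φ 1 * (Φ (u : R) - Φ 1) * Φ 1 = Φ (u : R) - Φ 1 := by
      rw [mul_sub, r4, r1, sub_mul, r5, r1]
    have e2 : s * Φ 1 * (Φ (u : R) - Φ 1) * (Φ 1 * s') = s * (Φ (u : R) - Φ 1) * s' := by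
      have : s * Φ 1 * (Φ (u : R) - Φ 1) * (Φ 1 * s') =
          s * (Φ 1 * (Φ (u : R) - Φ 1) * Φ 1) * s' := by simp only [mul_assoc]
      rw [this, e1]
    have e3 : e * ((u : R) - 1) * e' * (s * (Φ (u : R) - Φ 1) * s') = 0 := by
      have : e * ((u : R) - 1) * e' * (s * (Φ (u : R) - Φ 1) * s') =
          e * ((u : R) - 1) * (e' * s) * ((Φ (u : R) - Φ 1) * s') := by simp only [mul_assoc]
      rw [this, q2, mul_zero, zero_mul]
    have e4 : Φ (u : R) - Φ 1 = e * ((u : R) - 1) * e' + s * (Φ (u : R) - Φ 1) * s' := by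
      calc Φ (u : R) - Φ 1 = (e * u * e' + s * Φ (u : R) * s') - (e * 1 * e' + s * Φ 1 * s') := by
            rw [← q6, ← q6]
        _ = _ := by
            rw [mul_sub, mul_sub, sub_mul, sub_mul]
            abel
    have b1 : Φ 1 * (Φ (u : R) - Φ 1) * Φ 1 = e * ((u : R) - 1) * e' +
        s * Φ 1 * (Φ (u : R) - Φ 1) * (Φ 1 * s') +
        e * ((u : R) - 1) * e' * (s * Φ 1 * (Φ (u : R) - Φ 1) * (Φ 1 * s')) + 0 * 0 := by
      rw [e1, e2, e3, mul_zero, add_zero, add_zero]
      exact e4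
    rw [← b1]
    congr 1 <;> simp
  have hW : (g1 * g2⁻¹).val = blk i0 j (e * ((u : R) - 1) * e') 0 0 0 := by
    rw [Units.val_mul, hd, mul_assoc, ← Units.val_mul, mul_inv_cancel, Units.val_one, mul_one]
  have hp : dD (I := I) j u⁻¹ = (g1 * g2⁻¹)⁻¹ * g3 := by
    rw [eq_inv_mul_iff_mul_eq]
    apply Units.ext
    rw [Units.val_mul, hW, dD_blk' i0 j, v3, blk_mul h]
    congr 1 <;> simp
  have hd4 : g4 = dD (I := I) i0 u * dD (I := I) j u⁻¹ := by
    apply Units.ext
    rw [Units.val_mul, dD_blk i0 j, dD_blk' i0 j, v4, blk_mul h]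
    congr 1 <;> simp
  have hmem : dD (I := I) i0 u ∈ (mt R I).range := by
    have e1 : dD (I := I) i0 u = g4 * (dD (I := I) j u⁻¹)⁻¹ := by rw [hd4, mul_inv_cancel_right]
    rw [e1, hp]
    exact mul_mem m4 (inv_mem (mul_mem (inv_mem (mul_mem m1 (inv_mem m2))) m3))
  obtain ⟨z, hz⟩ := hmem
  exact ⟨z, hz⟩

end Pool.Agent.H318.BQ.T_GLD
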