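import Pool.Agent.H318.BQ.Stm

set_option autoImplicit false

namespace Pool.Agent.H318.BQ.T_GLR

open Y208.BH
open Pool.Agent.H318.BQ

section
variable {R I : Type} [Ring R] [Fintype I] [DecidableEq I]

/-- equivalence under elementary transformations on both sides -/
def EQ (g h : (Matrix I I R)ˣ) : Prop := ∃ z z' : SU R I, h = mt R I z * g * mt R I z'

theorem EQ.refl (g : (Matrix I I R)ˣ) : EQ g g := ⟨1, 1, by simp⟩

theorem EQ.trans {g h k : (Matrix I I R)ˣ} (h1 : EQ g h) (h2 : EQ h k) : EQ g k := by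
  obtain ⟨z, z', rfl⟩ := h1
  obtain ⟨w, w', rfl⟩ := h2
  exact ⟨w * z, z' * w', by simp only [map_mul, mul_assoc]⟩

theorem EQ.left (i j : I) (r : R) (g : (Matrix I I R)ˣ) : EQ g (tv i j r * g) :=
  ⟨xs i j r, 1, by rw [mt_xs, map_one, mul_one]⟩

theorem EQ.right (i j : I) (r : R) (g : (Matrix I I R)ˣ) : EQ g (g * tv i j r) :=
  ⟨1, xs i j r, by rw [mt_xs, map_one, one_mul]⟩

theorem left_apply {i j : I} (h : i ≠ j) (r : R) (g : (Matrix I I R)ˣ) (a b : I) :
    (tv i j r * g).val a b = if a = i then g.val a b + r * g.val j b else g.val a b := by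
  rw [Units.val_mul, tv_val h, add_mul, one_mul, Matrix.add_apply]
  by_cases ha : a = i
  · subst ha
    rw [if_pos rfl, Matrix.single_mul_apply_same]
  · rw [if_neg ha, Matrix.single_mul_apply_of_ne _ _ _ _ _ ha, add_zero]

theorem right_apply {i j : I} (h : i ≠ j) (r : R) (g : (Matrix I I R)ˣ) (a b : I) :
    (g * tv i j r).val a b = if b = j then g.val a b + g.val a i * r else g.val a b := by
  rw [Units.val_mul, tv_val h, mul_add, mul_one, Matrix.add_apply]
  by_cases hb : b = j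
  · subst hb
    rw [if_pos rfl, Matrix.mul_single_apply_same]
  · rw [if_neg hb, Matrix.mul_single_apply_of_ne _ _ _ _ _ hb, add_zero]

/-- rows and columns in `S` are those of the unit matrix -/
def CS (S : Finset I) (h : (Matrix I I R)ˣ) : Prop :=
  ∀ s ∈ S, ∀ i, i ≠ s → h.val i s = 0 ∧ h.val s i = 0

/-- diagonal entries one in `S` -/
def CD (S : Finset I) (h : (Matrix I I R)ˣ) : Prop := ∀ s ∈ S, h.val s s = 1

theorem CS.left {S : Finset I} {h : (Matrix I I R)ˣ} (hc : CS S h) {a b : I} (hab : a ≠ b)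
    (ha : a ∉ S) (hb : b ∉ S) (r : R) : CS S (tv a b r * h) := by
  intro s hs i hi
  have hsa : s ≠ a := fun e => ha (e ▸ hs)
  have hsb : b ≠ s := fun e => hb (e ▸ hs)
  rw [left_apply hab, left_apply hab, if_neg hsa]
  refine ⟨?_, (hc s hs i hi).2⟩
  rw [(hc s hs i hi).1, (hc s hs b hsb).1]
  simp

theorem CS.right {S : Finset I} {h : (Matrix I I R)ˣ} (hc : CS S h) {a b : I} (hab : a ≠ b)
    (ha : a ∉ S) (hb : b ∉ S) (r : R) : CS S (h * tv a b r) := by
  intro s hs i hi
  have hsb : s ≠ b := fun e => hb (e ▸ hs)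
  have hsa : a ≠ s := fun e => ha (e ▸ hs)
  rw [right_apply hab, right_apply hab, if_neg hsb]
  refine ⟨(hc s hs i hi).1, ?_⟩
  rw [(hc s hs i hi).2, (hc s hs a hsa).2]
  simp

theorem CD.left {S : Finset I} {h : (Matrix I I R)ˣ} (hc : CD S h) {a b : I} (hab : a ≠ b)
    (ha : a ∉ S) (r : R) : CD S (tv a b r * h) := by
  intro s hs
  have hsa : s ≠ a := fun e => ha (e ▸ hs)
  rw [left_apply hab, if_neg hsa, hc s hs]

theorem CD.right {S : Finset I} {h : (Matrix I I R)ˣ} (hc : CD S h) {a b : I} (hab : a ≠ b)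
    (hb : b ∉ S) (r : R) : CD S (h * tv a b r) := by
  intro s hs
  have hsb : s ≠ b := fun e => hb (e ▸ hs)
  rw [right_apply hab, if_neg hsb, hc s hs]

/-- clear a column -/
theorem clearCol {S : Finset I} {j : I} (hj : j ∉ S) {h : (Matrix I I R)ˣ} (hc : CS S h)
    (hd : CD S h) (h1 : h.val j j = 1) (T : Finset I) :
    ∃ h', EQ h h' ∧ CS S h' ∧ CD S h' ∧ h'.val j j = 1 ∧ ∀ i ∈ T, i ≠ j → h'.val i j = 0 := by
  classical
  induction T using Finset.induction_on with
  | empty => exact ⟨h, EQ.refl h, hc, hd, h1, by simp⟩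
  | insert t T ht ih =>
    obtain ⟨h', e, c, d, o, z⟩ := ih
    by_cases hz : t ≠ j → h'.val t j = 0
    · refine ⟨h', e, c, d, o, ?_⟩
      intro i hi hij
      rcases Finset.mem_insert.1 hi with rfl | hi
      · exact hz hij
      · exact z i hi hij
    · have htj : t ≠ j := fun e => hz (fun f => absurd e f)
      have hne : h'.val t j ≠ 0 := fun e => hz (fun _ => e)
      have htS : t ∉ S := fun hs => hne ((c t hs j (Ne.symm htj)).2)
      refine ⟨tv t j (-(h'.val t j)) * h', e.trans (EQ.left _ _ _ _),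
        c.left htj htS hj _, d.left htj htS _, ?_, ?_⟩
      · rw [left_apply htj, if_neg (Ne.symm htj), o]
      · intro i hi hij
        rw [left_apply htj]
        by_cases hit : i = t
        · subst hit
          rw [if_pos rfl, o, mul_one, add_neg_cancel]
        · rw [if_neg hit]
          rcases Finset.mem_insert.1 hi with hi | hi
          · exact absurd hi hit
          · exact z i hi hij

/-- clear a row -/
theorem clearRow {S : Finset I} {j : I} (hj : j ∉ S) {h : (Matrix I I R)ˣ} (hc : CS S h)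
    (hd : CD S h) (h1 : h.val j j = 1) (hcol : ∀ i, i ≠ j → h.val i j = 0) (T : Finset I) :
    ∃ h', EQ h h' ∧ CS S h' ∧ CD S h' ∧ h'.val j j = 1 ∧ (∀ i, i ≠ j → h'.val i j = 0) ∧
      ∀ i ∈ T, i ≠ j → h'.val j i = 0 := by
  classical
  induction T using Finset.induction_on with
  | empty => exact ⟨h, EQ.refl h, hc, hd, h1, hcol, by simp⟩
  | insert t T ht ih =>
    obtain ⟨h', e, c, d, o, col, z⟩ := ih
    by_cases hz : t ≠ j → h'.val j t = 0
    · refine ⟨h', e, c, d, o, col, ?_⟩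
      intro i hi hij
      rcases Finset.mem_insert.1 hi with rfl | hi
      · exact hz hij
      · exact z i hi hij
    · have htj : t ≠ j := fun e => hz (fun f => absurd e f)
      have hne : h'.val j t ≠ 0 := fun e => hz (fun _ => e)
      have htS : t ∉ S := fun hs => hne ((c t hs j (Ne.symm htj)).1)
      refine ⟨h' * tv j t (-(h'.val j t)), e.trans (EQ.right _ _ _ _),
        c.right (Ne.symm htj) hj htS _, d.right (Ne.symm htj) htS _, ?_, ?_, ?_⟩
      · rw [right_apply (Ne.symm htj), if_neg (Ne.symm htj), o]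
      · intro i hij
        rw [right_apply (Ne.symm htj), if_neg (Ne.symm htj), col i hij]
      · intro i hi hij
        rw [right_apply (Ne.symm htj)]
        by_cases hit : i = t
        · subst hit
          rw [if_pos rfl, o, one_mul, add_neg_cancel]
        · rw [if_neg hit]
          rcases Finset.mem_insert.1 hi with hi | hi
          · exact absurd hi hit
          · exact z i hi hij

/-- make the entry `(j, j)` one, if the row `i0` has a nonzero entry outside `j` -/
theorem makeOne (hPI : PI R) {S : Finset I} {i0 j : I} (hi0 : i0 ∉ S) (hj : j ∉ S)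
    (hij : j ≠ i0) {h : (Matrix I I R)ˣ} (hc : CS S h) (hd : CD S h) {k : I} (hkj : k ≠ j)
    (hk : h.val i0 k ≠ 0) :
    ∃ h', EQ h h' ∧ CS S h' ∧ CD S h' ∧ h'.val j j = 1 := by
  classical
  have hkS : k ∉ S := by
    intro hs
    have : i0 ≠ k := fun e => hi0 (e ▸ hs)
    exact hk ((hc k hs i0 this).1)
  obtain ⟨x, a, hxa⟩ := hPI _ hk
  set h1 : (Matrix I I R)ˣ := h * tv k j (a * (1 - x * h.val i0 j)) with hh1
  have c1 : CS S h1 := hc.right hkj hkS hj _
  have d1 : CD S h1 := hd.right hkj hj _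
  have e1 : EQ h h1 := EQ.right _ _ _ _
  have hx : x * h1.val i0 j = 1 := by
    rw [hh1, right_apply hkj, if_pos rfl, mul_add]
    have : x * (h.val i0 k * (a * (1 - x * h.val i0 j))) =
        (x * h.val i0 k * a) * (1 - x * h.val i0 j) := by
      simp only [mul_assoc]
    rw [this, hxa, one_mul]
    abel
  refine ⟨tv j i0 ((1 - h1.val j j) * x) * h1, e1.trans (EQ.left _ _ _ _),
    c1.left hij hj hi0 _, d1.left hij hj _, ?_⟩
  rw [left_apply hij, if_pos rfl, mul_assoc, hx, mul_one]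
  abel

theorem row_ne_zero (h1 : (1 : R) ≠ 0) (h : (Matrix I I R)ˣ) (i0 : I) :
    ∃ k, h.val i0 k ≠ 0 := by
  by_contra hcon
  push Not at hcon
  apply h1
  have h2 : (h.val * (h⁻¹).val) i0 i0 = (1 : Matrix I I R) i0 i0 := by
    rw [Units.mul_inv]
  rw [Matrix.mul_apply, Matrix.one_apply_eq] at h2
  rw [← h2]
  apply Finset.sum_eq_zero
  intro k _
  rw [hcon k, zero_mul]

/-- one step of the reduction -/
theorem step (hPI : PI R) (h1 : (1 : R) ≠ 0) {S : Finset I} {i0 j : I} (hi0 : i0 ∉ S)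
    (hj : j ∉ S) (hij : j ≠ i0) {h : (Matrix I I R)ˣ} (hc : CS S h) (hd : CD S h) :
    ∃ h', EQ h h' ∧ CS (insert j S) h' ∧ CD (insert j S) h' := by
  classical
  have hone : ∃ h', EQ h h' ∧ CS S h' ∧ CD S h' ∧ h'.val j j = 1 := by
    by_cases hk : ∃ k, k ≠ j ∧ h.val i0 k ≠ 0
    · obtain ⟨k, hkj, hk⟩ := hk
      exact makeOne hPI hi0 hj hij hc hd hkj hk
    · obtain ⟨k, hk0⟩ := row_ne_zero h1 h i0
      have hkj : k = j := by
        by_contra hne
        exact hk ⟨k, hne, hk0⟩
      subst hkj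
      have h00 : h.val i0 i0 = 0 := by
        by_contra hne
        exact hk ⟨i0, Ne.symm hij, hne⟩
      have hnz : (h * tv k i0 1).val i0 i0 ≠ 0 := by
        rw [right_apply hij, if_pos rfl, h00, zero_add, mul_one]
        exact hk0
      obtain ⟨h', e, c, d, o⟩ := makeOne hPI hi0 hj hij (hc.right hij hj hi0 1)
        (hd.right hij hi0 1) (Ne.symm hij) hnz
      exact ⟨h', (EQ.right _ _ _ _).trans e, c, d, o⟩
  obtain ⟨h2, e2, c2, d2, o2⟩ := hone
  obtain ⟨h3, e3, c3, d3, o3, z3⟩ := clearCol hj c2 d2 o2 Finset.univ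
  obtain ⟨h4, e4, c4, d4, o4, z4, w4⟩ := clearRow hj c3 d3 o3
    (fun i hi => z3 i (Finset.mem_univ i) hi) Finset.univ
  refine ⟨h4, (e2.trans e3).trans e4, ?_, ?_⟩
  · intro s hs i hi
    rcases Finset.mem_insert.1 hs with rfl | hs
    · exact ⟨z4 i hi, w4 i (Finset.mem_univ i) hi⟩
    · exact c4 s hs i hi
  · intro s hs
    rcases Finset.mem_insert.1 hs with rfl | hs
    · exact o4
    · exact d4 s hs

theorem reduce (hPI : PI R) (h1 : (1 : R) ≠ 0) (i0 : I) (g : (Matrix I I R)ˣ) (S : Finset I)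
    (hi0 : i0 ∉ S) : ∃ h, EQ g h ∧ CS S h ∧ CD S h := by
  classical
  induction S using Finset.induction_on with
  | empty => exact ⟨g, EQ.refl g, by intro s hs; simp at hs, by intro s hs; simp at hs⟩
  | insert j S hj ih =>
    have hi : i0 ∉ S := fun hs => hi0 (Finset.mem_insert_of_mem hs)
    have hij : j ≠ i0 := fun e => hi0 (e ▸ Finset.mem_insert_self j S)
    obtain ⟨h, e, c, d⟩ := ih hi
    obtain ⟨h', e', c', d'⟩ := step hPI h1 hi hj hij c d
    exact ⟨h', e.trans e', c', d'⟩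

theorem final (i0 : I) (h : (Matrix I I R)ˣ) (hc : CS (Finset.univ.erase i0) h)
    (hd : CD (Finset.univ.erase i0) h) : ∃ u : Rˣ, h = dD i0 u := by
  classical
  have hm : ∀ k, k ≠ i0 → k ∈ Finset.univ.erase i0 := fun k hk =>
    Finset.mem_erase.2 ⟨hk, Finset.mem_univ k⟩
  have hcol : ∀ k, k ≠ i0 → h.val k i0 = 0 := fun k hk => (hc k (hm k hk) i0 (Ne.symm hk)).2
  have hrow : ∀ k, k ≠ i0 → h.val i0 k = 0 := fun k hk => (hc k (hm k hk) i0 (Ne.symm hk)).1
  have h2 : (h.val * (h⁻¹).val) i0 i0 = (1 : Matrix I I R) i0 i0 := by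
    rw [Units.mul_inv]
  have h3 : ((h⁻¹).val * h.val) i0 i0 = (1 : Matrix I I R) i0 i0 := by
    rw [Units.inv_mul]
  rw [Matrix.mul_apply, Matrix.one_apply_eq, Finset.sum_eq_single i0 (fun k _ hk => by
    rw [hrow k hk, zero_mul]) (fun hk => absurd (Finset.mem_univ i0) hk)] at h2
  rw [Matrix.mul_apply, Matrix.one_apply_eq, Finset.sum_eq_single i0 (fun k _ hk => by
    rw [hcol k hk, mul_zero]) (fun hk => absurd (Finset.mem_univ i0) hk)] at h3
  refine ⟨⟨h.val i0 i0, (h⁻¹).val i0 i0, h2, h3⟩, ?_⟩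
  apply Units.ext
  ext a b
  show h.val a b = Matrix.diagonal (fun i => if i = i0 then h.val i0 i0 else 1) a b
  by_cases hab : a = b
  · subst hab
    rw [Matrix.diagonal_apply_eq]
    by_cases ha : a = i0
    · subst ha
      rw [if_pos rfl]
    · rw [if_neg ha]
      exact hd a (hm a ha)
  · rw [Matrix.diagonal_apply_ne _ hab]
    by_cases ha : a = i0
    · subst ha
      exact hrow b (Ne.symm hab)
    · exact (hc a (hm a ha) b (Ne.symm hab)).2

end

theorem t : Pool.Agent.H318.BQ.S_GLR := by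
  intro R I _ _ _ hPI h1 _ i0 g
  obtain ⟨h, ⟨z, z', e⟩, c, d⟩ := reduce hPI h1 i0 g (Finset.univ.erase i0) (by simp)
  obtain ⟨u, hu⟩ := final i0 h c d
  exact ⟨z, z', u, by rw [← e, hu]⟩

end Pool.Agent.H318.BQ.T_GLR
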