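import Pool.Agent.H318.BQ.Stm

/-!
# Project BQ: vectors in general position
-/

set_option autoImplicit false

namespace Pool.Agent.H318.BQ.T_GPV

open Pool.Agent.H318.BQ

section
variable {R J : Type} [Ring R] [Fintype J]

theorem sum_right (ρ w : J → R) (a : R) : ∑ j, ρ j * (w j * a) = (∑ j, ρ j * w j) * a := by
  rw [Finset.sum_mul]
  exact Finset.sum_congr rfl fun j _ => (mul_assoc _ _ _).symm

theorem sum_add_right (ρ w y : J → R) (b : R) :
    ∑ j, ρ j * (w j + y j * b) = ∑ j, ρ j * w j + (∑ j, ρ j * y j) * b := by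
  rw [← sum_right, ← Finset.sum_add_distrib]
  exact Finset.sum_congr rfl fun j _ => mul_add _ _ _

theorem case_ne (hPI : PI R) (l : List (J → R)) (w : J → R)
    (hw : ∀ ρ ∈ l, ∃ x : R, x * ∑ j, ρ j * w j = 1) (ρ : J → R) (h : ∑ j, ρ j * w j ≠ 0) :
    ∃ u : J → R, ∀ ρ' ∈ ρ :: l, ∃ x : R, x * ∑ j, ρ' j * u j = 1 := by
  obtain ⟨x, a, hxa⟩ := hPI _ h
  refine ⟨fun j => w j * a, fun ρ' hρ' => ?_⟩
  rcases List.mem_cons.1 hρ' with h1 | h1
  · subst h1
    exact ⟨x, by rw [sum_right, ← mul_assoc, hxa]⟩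
  · obtain ⟨x', hx'⟩ := hw ρ' h1
    refine ⟨(x * ∑ j, ρ j * w j) * x', ?_⟩
    rw [sum_right, mul_assoc (x * ∑ j, ρ j * w j) x', ← mul_assoc x', hx', one_mul, hxa]

theorem gpv (hPI : PI R) (hGP : GP R) : ∀ l : List (J → R),
    (∀ ρ ∈ l, ∃ y : J → R, ∑ j, ρ j * y j = 1) →
    ∃ u : J → R, ∀ ρ ∈ l, ∃ x : R, x * ∑ j, ρ j * u j = 1 := by
  intro l
  induction l with
  | nil =>
    intro _
    exact ⟨fun _ => 0, fun ρ hρ => absurd hρ (List.not_mem_nil)⟩
  | cons ρ l ih =>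
    intro hl
    obtain ⟨w, hw⟩ := ih fun ρ' h' => hl ρ' (List.mem_cons_of_mem _ h')
    obtain ⟨y, hy⟩ := hl ρ List.mem_cons_self
    by_cases h : ∑ j, ρ j * w j = 0
    · choose f hf using hw
      obtain ⟨b, hb, hbc⟩ := hGP (l.attach.map fun p : {q // q ∈ l} => f p.1 p.2 * ∑ j, p.1 j * y j)
      refine case_ne hPI l (fun j => w j + y j * b) (fun ρ' h' => ?_) ρ ?_
      · have h1 : b * (f ρ' h' * ∑ j, ρ' j * y j) * b = 0 :=
          hbc _ (List.mem_map.2 ⟨⟨ρ', h'⟩, List.mem_attach _ _, rfl⟩)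
        refine ⟨(1 - (f ρ' h' * ∑ j, ρ' j * y j) * b) * f ρ' h', ?_⟩
        rw [sum_add_right, mul_assoc, mul_add, hf ρ' h', ← mul_assoc (f ρ' h'), mul_add, mul_one,
          sub_mul, one_mul]
        generalize f ρ' h' * ∑ j, ρ' j * y j = c at h1 ⊢
        have h2 : c * b * (c * b) = 0 := by
          rw [mul_assoc, ← mul_assoc b, h1, mul_zero]
        rw [h2]
        abel
      · rw [sum_add_right, h, hy, one_mul, zero_add]
        exact hb
    · exact case_ne hPI l w hw ρ h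

end

theorem t : Pool.Agent.H318.BQ.S_GPV := by
  intro R J _ _ _ hPI hGP _ l hl
  exact gpv hPI hGP l hl

end Pool.Agent.H318.BQ.T_GPV
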