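import Pool.Agent.H318.BQ.Stm

/-!
# Project BQ, task LEA: words in the letters, finitely many indices (helper746)

The proof of the library module H170.BH.Leta, with a finite set of at least eight indices.
-/

set_option autoImplicit false

open scoped commutatorElement

namespace Pool.Agent.H318.BQ.T_LEA

open Y208.BH

/-! ## identities in groups -/

theorem ca2 {Γ : Type} [Group Γ] {g h l : Γ} (h1 : Commute g l)
    (h2 : Commute ⁅g, h⁆ ⁅h, l⁆) : ⁅⁅g, h⁆, l⁆ = ⁅h, l⁆⁻¹ * ⁅g, ⁅h, l⁆⁆ * ⁅h, l⁆ := by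
  have e1 : l * ⁅g, h⁆ * l⁻¹ = g * ⁅h, l⁆⁻¹ * g⁻¹ * ⁅g, h⁆ * ⁅h, l⁆ := by
    have h1' : l * g = g * l := h1.eq.symm
    simp only [commutatorElement_def]
    have e : l * (g * h * g⁻¹ * h⁻¹) * l⁻¹ = (l * g) * h * g⁻¹ * h⁻¹ * l⁻¹ := by group
    rw [e, h1']
    have e : g * (h * l * h⁻¹ * l⁻¹)⁻¹ * g⁻¹ * (g * h * g⁻¹ * h⁻¹) * (h * l * h⁻¹ * l⁻¹) =
      g * l * h * (l⁻¹ * g⁻¹) * l * h⁻¹ * l⁻¹ := by group
    rw [e]
    have e : l⁻¹ * g⁻¹ = g⁻¹ * l⁻¹ := by
      rw [← mul_inv_rev, ← mul_inv_rev, h1']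
    rw [e]
    group
  have e2 : ⁅⁅g, h⁆, l⁆ = ⁅h, l⁆⁻¹ * (g * ⁅h, l⁆ * g⁻¹) := by
    have : ⁅⁅g, h⁆, l⁆ = ⁅g, h⁆ * (l * ⁅g, h⁆ * l⁻¹)⁻¹ := by
      rw [commutatorElement_def ⁅g, h⁆ l]; group
    rw [this, e1]
    have e : ⁅g, h⁆ * (g * ⁅h, l⁆⁻¹ * g⁻¹ * ⁅g, h⁆ * ⁅h, l⁆)⁻¹ =
      (⁅g, h⁆ * ⁅h, l⁆⁻¹) * ⁅g, h⁆⁻¹ * (g * ⁅h, l⁆ * g⁻¹) := by group
    rw [e, (h2.inv_right).eq]
    group
  rw [e2, commutatorElement_def g ⁅h, l⁆]
  group

theorem commute_comm {Γ : Type} [Group Γ] {g a b : Γ} (h1 : Commute g a) (h2 : Commute g b) :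
    Commute g ⁅a, b⁆ := by
  rw [commutatorElement_def]
  exact ((h1.mul_right h2).mul_right h1.inv_right).mul_right h2.inv_right

theorem comm_sq {Γ : Type} [Group Γ] {g h : Γ} (h1 : h * h = 1) (h2 : Commute ⁅g, h⁆ h) :
    ⁅g, h⁆ * ⁅g, h⁆ = 1 := by
  have e : ⁅g, h⁆ * (h * ⁅g, h⁆ * h⁻¹) = ⁅g, h * h⁆ := by
    simp only [commutatorElement_def]
    group
  have e2 : h * ⁅g, h⁆ * h⁻¹ = ⁅g, h⁆ := by
    rw [← h2.eq]
    group
  rw [e2, h1, commutatorElement_one_right] at e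
  exact e

/-! ## words -/

section words
variable {A I Γ : Type} [Group Γ]

/-- the words in the letters -/
def WX (y : I → I → Option A → Γ) (pk : I → I → I) : List A → I → I → Γ
  | [], i, j => y i j none
  | a :: w, i, j => ⁅y i (pk i j) (some a), WX y pk w (pk i j) j⁆

/-- the induction hypothesis -/
structure QQ (y : I → I → Option A → Γ) (pk : I → I → I) (n : ℕ) : Prop where
  b' : ∀ w : List A, w.length ≤ n → ∀ i j k l b, i ≠ j → k ≠ l → l ≠ i → k ≠ j →
    Commute (y k l b) (WX y pk w i j)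
  b : ∀ v w : List A, v.length ≤ n → w.length ≤ n → ∀ i j k l, i ≠ j → k ≠ l → j ≠ k → i ≠ l →
    Commute (WX y pk v i j) (WX y pk w k l)
  c : ∀ w : List A, w.length ≤ n → ∀ i j k, k ≠ i → i ≠ j → k ≠ j →
    ⁅y k i none, WX y pk w i j⁆ = WX y pk w k j

/-- there are enough indices -/
def Fr (I : Type) : Prop := ∀ i j k l : I, ∃ m, m ≠ i ∧ m ≠ j ∧ m ≠ k ∧ m ≠ l

theorem fr_of_card [Finite I] (h : 8 ≤ Nat.card I) : Fr I := by
  classical
  intro i j k l
  have := Fintype.ofFinite I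
  rw [Nat.card_eq_fintype_card] at h
  have hc : ({i, j, k, l} : Finset I).card ≤ 4 := Finset.card_le_four
  have hlt : ({i, j, k, l} : Finset I).card < (Finset.univ : Finset I).card := by
    rw [Finset.card_univ]
    omega
  obtain ⟨m, -, hm⟩ := Finset.exists_mem_notMem_of_card_lt_card hlt
  simp only [Finset.mem_insert, Finset.mem_singleton, not_or] at hm
  exact ⟨m, hm⟩

/-- independence, one step -/
theorem stepA {y : I → I → Option A → Γ} (hy : LetRel y) {pk : I → I → I} {n : ℕ}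
    (h : QQ y pk n) (w : List A) (hw : w.length ≤ n) (a : A) (i j m m' : I) (hij : i ≠ j)
    (h1 : m ≠ i) (h2 : m ≠ j) (h3 : m' ≠ i) (h4 : m' ≠ j) :
    ⁅y i m (some a), WX y pk w m j⁆ = ⁅y i m' (some a), WX y pk w m' j⁆ := by
  by_cases hm : m = m'
  · rw [hm]
  have e1 : ⁅y i m' (some a), y m' m none⁆ = y i m (some a) :=
    hy.mul1 i m' m (some a) (Ne.symm h3) (Ne.symm hm) (Ne.symm h1)
  have e2 : ⁅y m' m none, WX y pk w m j⁆ = WX y pk w m' j := h.c w hw m j m' (Ne.symm hm) h2 h4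
  have c1 : Commute (y i m' (some a)) (WX y pk w m j) :=
    h.b' w hw m j i m' (some a) h2 (Ne.symm h3) (Ne.symm hm) hij
  have c2 : Commute ⁅y i m' (some a), y m' m none⁆ ⁅y m' m none, WX y pk w m j⁆ := by
    rw [e1, e2]
    exact h.b' w hw m' j i m (some a) h4 (Ne.symm h1) hm hij
  have key := ca2 c1 c2
  rw [e1, e2] at key
  have c3 : Commute (WX y pk w m' j) ⁅y i m (some a), WX y pk w m j⁆ := by
    refine commute_comm ?_ ?_
    · exact (h.b' w hw m' j i m (some a) h4 (Ne.symm h1) hm hij).symm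
    · exact h.b w w hw hw m' j m j h4 h2 (Ne.symm h2) h4
  have e3 : ⁅y i m' (some a), WX y pk w m' j⁆ =
      WX y pk w m' j * ⁅y i m (some a), WX y pk w m j⁆ * (WX y pk w m' j)⁻¹ := by
    rw [key]
    group
  rw [e3, c3.eq]
  group

theorem base {y : I → I → Option A → Γ} (hy : LetRel y) (pk : I → I → I) : QQ y pk 0 := by
  refine ⟨?_, ?_, ?_⟩
  · intro w hw i j k l b h1 h2 h3 h4
    obtain rfl : w = [] := List.eq_nil_of_length_eq_zero (Nat.le_zero.1 hw)
    exact hy.comm k l i j b none h2 h1 h3 h4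
  · intro v w hv hw i j k l h1 h2 h3 h4
    obtain rfl : w = [] := List.eq_nil_of_length_eq_zero (Nat.le_zero.1 hw)
    obtain rfl : v = [] := List.eq_nil_of_length_eq_zero (Nat.le_zero.1 hv)
    exact hy.comm i j k l none none h1 h2 h3 h4
  · intro w hw i j k h1 h2 h3
    obtain rfl : w = [] := List.eq_nil_of_length_eq_zero (Nat.le_zero.1 hw)
    exact hy.mul1 k i j none h1 h2 h3

theorem step (hI : Fr I) {y : I → I → Option A → Γ} (hy : LetRel y) {pk : I → I → I}
    (hpk : ∀ i j, pk i j ≠ i ∧ pk i j ≠ j) {n : ℕ} (h : QQ y pk n) : QQ y pk (n + 1) := by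
  have hA : ∀ (w : List A), w.length ≤ n → ∀ (a : A) (i j m : I), i ≠ j → m ≠ i → m ≠ j →
      WX y pk (a :: w) i j = ⁅y i m (some a), WX y pk w m j⁆ := by
    intro w hw a i j m hij h1 h2
    exact stepA hy h w hw a i j (pk i j) m hij (hpk i j).1 (hpk i j).2 h1 h2
  have hB' : ∀ w : List A, w.length ≤ n + 1 → ∀ i j k l b, i ≠ j → k ≠ l → l ≠ i → k ≠ j →
      Commute (y k l b) (WX y pk w i j) := by
    intro w hw i j k l b h1 h2 h3 h4
    cases w with
    | nil => exact h.b' [] (Nat.zero_le _) i j k l b h1 h2 h3 h4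
    | cons a w =>
      have hw' : w.length ≤ n := by simpa using hw
      obtain ⟨m, m1, m2, m3, m4⟩ := hI i j k l
      rw [hA w hw' a i j m h1 m1 m2]
      refine commute_comm ?_ ?_
      · exact hy.comm k l i m b (some a) h2 (Ne.symm m1) h3 (Ne.symm m3)
      · exact h.b' w hw' m j k l b m2 h2 (Ne.symm m4) h4
  have hB : ∀ v w : List A, v.length ≤ n + 1 → w.length ≤ n + 1 → ∀ i j k l, i ≠ j → k ≠ l →
      j ≠ k → i ≠ l → Commute (WX y pk v i j) (WX y pk w k l) := by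
    intro v w hv
    induction w with
    | nil =>
      intro hw i j k l h1 h2 h3 h4
      exact (hB' v hv i j k l none h1 h2 (Ne.symm h4) (Ne.symm h3)).symm
    | cons a w ih =>
      intro hw i j k l h1 h2 h3 h4
      have hw' : w.length ≤ n := by simpa using hw
      obtain ⟨m, m1, m2, m3, m4⟩ := hI i j k l
      rw [hA w hw' a k l m h2 m3 m4]
      refine commute_comm ?_ ?_
      · exact (hB' v hv i j k m (some a) h1 (Ne.symm m3) m1 (Ne.symm h3)).symm
      · exact ih (by omega) i j m l h1 m4 (Ne.symm m2) h4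
  refine ⟨hB', hB, ?_⟩
  intro w hw i j k h1 h2 h3
  cases w with
  | nil => exact h.c [] (Nat.zero_le _) i j k h1 h2 h3
  | cons a w =>
    have hw' : w.length ≤ n := by simpa using hw
    obtain ⟨m, m1, m2, m3, -⟩ := hI i j k k
    have e0 : WX y pk (a :: w) i j = ⁅y i m (some a), WX y pk w m j⁆ := hA w hw' a i j m h2 m1 m2
    have e1 : ⁅y k i none, y i m (some a)⁆ = y k m (some a) :=
      hy.mul2 k i m (some a) h1 (Ne.symm m1) (Ne.symm m3)
    have e2 : WX y pk (a :: w) k j = ⁅y k m (some a), WX y pk w m j⁆ := hA w hw' a k j m h3 m3 m2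
    have c1 : Commute (y k i none) (WX y pk w m j) :=
      h.b' w hw' m j k i none m2 h1 (Ne.symm m1) h3
    have c2 : Commute ⁅y k i none, y i m (some a)⁆ ⁅y i m (some a), WX y pk w m j⁆ := by
      rw [e1, ← e0]
      exact hB' (a :: w) hw i j k m (some a) h2 (Ne.symm m3) m1 h3
    have key := ca2 c1 c2
    rw [e1, ← e0, ← e2] at key
    have c3 : Commute (WX y pk (a :: w) i j) (WX y pk (a :: w) k j) :=
      hB (a :: w) (a :: w) hw hw i j k j h2 h3 (Ne.symm h3) h2
    have e3 : ⁅y k i none, WX y pk (a :: w) i j⁆ =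
        WX y pk (a :: w) i j * WX y pk (a :: w) k j * (WX y pk (a :: w) i j)⁻¹ := by
      rw [key]
      group
    rw [e3, c3.eq]
    group

theorem allQ (hI : Fr I) {y : I → I → Option A → Γ} (hy : LetRel y) {pk : I → I → I}
    (hpk : ∀ i j, pk i j ≠ i ∧ pk i j ≠ j) (n : ℕ) : QQ y pk n := by
  induction n with
  | zero => exact base hy pk
  | succ n ih => exact step hI hy hpk ih

end words

theorem t : Pool.Agent.H318.BQ.S_LEA := by
  intro A I Γ _ _ hcard y hy
  have hI : Fr I := fr_of_card hcard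
  have hex : ∀ i j : I, ∃ m, m ≠ i ∧ m ≠ j := by
    intro i j
    obtain ⟨m, m1, m2, -, -⟩ := hI i j i j
    exact ⟨m, m1, m2⟩
  choose pk hpk using hex
  have hB' : ∀ (w : List A) (i j k l : I) b, i ≠ j → k ≠ l → l ≠ i → k ≠ j →
      Commute (y k l b) (WX y pk w i j) := fun w => (allQ hI hy hpk w.length).b' w le_rfl
  have hB : ∀ (v w : List A) (i j k l : I), i ≠ j → k ≠ l → j ≠ k → i ≠ l →
      Commute (WX y pk v i j) (WX y pk w k l) := fun v w =>
    (allQ hI hy hpk (max v.length w.length)).b v w (le_max_left _ _) (le_max_right _ _)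
  have hC : ∀ (w : List A) (i j k : I), k ≠ i → i ≠ j → k ≠ j →
      ⁅y k i none, WX y pk w i j⁆ = WX y pk w k j := fun w =>
    (allQ hI hy hpk w.length).c w le_rfl
  have hA : ∀ (w : List A) (a : A) (i j m : I), i ≠ j → m ≠ i → m ≠ j →
      WX y pk (a :: w) i j = ⁅y i m (some a), WX y pk w m j⁆ := by
    intro w a i j m hij h1 h2
    exact stepA hy (allQ hI hy hpk w.length) w le_rfl a i j (pk i j) m hij (hpk i j).1 (hpk i j).2
      h1 h2
  have hD : ∀ (v w : List A) (i j k : I), i ≠ j → j ≠ k → i ≠ k →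
      ⁅WX y pk v i j, WX y pk w j k⁆ = WX y pk (v ++ w) i k := by
    intro v w
    induction v with
    | nil =>
      intro i j k h1 h2 h3
      exact hC w j k i h1 h2 h3
    | cons a v ih =>
      intro i j k h1 h2 h3
      obtain ⟨m, m1, m2, m3, -⟩ := hI i j k k
      have e0 : WX y pk (a :: v) i j = ⁅y i m (some a), WX y pk v m j⁆ := hA v a i j m h1 m1 m2
      have e1 : ⁅WX y pk v m j, WX y pk w j k⁆ = WX y pk (v ++ w) m k := ih m j k m2 h2 m3
      have e2 : WX y pk (a :: (v ++ w)) i k = ⁅y i m (some a), WX y pk (v ++ w) m k⁆ :=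
        hA (v ++ w) a i k m h3 m1 m3
      have c1 : Commute (y i m (some a)) (WX y pk w j k) :=
        hB' w j k i m (some a) h2 (Ne.symm m1) m2 h3
      have c2 : Commute ⁅y i m (some a), WX y pk v m j⁆ ⁅WX y pk v m j, WX y pk w j k⁆ := by
        rw [← e0, e1]
        exact hB (a :: v) (v ++ w) i j m k h1 m3 (Ne.symm m2) h3
      have c3 : Commute ⁅y i m (some a), ⁅WX y pk v m j, WX y pk w j k⁆⁆
          ⁅WX y pk v m j, WX y pk w j k⁆ := by
        rw [e1, ← e2]
        exact hB _ _ i k m k h3 m3 (Ne.symm m3) h3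
      have key := comm_assoc c1 c2 c3
      rw [← e0, e1, ← e2] at key
      exact key
  have hE : ∀ (w : List A) (i j : I), i ≠ j → WX y pk w i j * WX y pk w i j = 1 := by
    intro w
    induction w with
    | nil =>
      intro i j h
      exact hy.sq i j none h
    | cons a w ih =>
      intro i j h
      obtain ⟨m, m1, m2, -, -⟩ := hI i j i j
      have e0 : WX y pk (a :: w) i j = ⁅y i m (some a), WX y pk w m j⁆ := hA w a i j m h m1 m2
      have c1 : Commute ⁅y i m (some a), WX y pk w m j⁆ (WX y pk w m j) := by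
        rw [← e0]
        exact hB _ _ i j m j h m2 (Ne.symm m2) h
      rw [e0]
      exact comm_sq (ih m j m2) c1
  refine ⟨fun i j w => WX y pk (FreeMonoid.toList w) i j, ⟨?_, ?_, ?_⟩, ?_, ?_⟩
  · intro i j w h
    exact hE _ i j h
  · intro i j k l v w h1 h2 h3 h4
    exact hB _ _ i j k l h1 h2 h3 h4
  · intro i j k v w h1 h2 h3
    show _ = WX y pk (FreeMonoid.toList (v * w)) i k
    rw [FreeMonoid.toList_mul]
    exact hD _ _ i j k h1 h2 h3
  · intro i j h
    rfl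
  · intro i j a h
    show WX y pk [a] i j = _
    rw [hA [] a i j (pk i j) h (hpk i j).1 (hpk i j).2]
    exact hy.mul1 i (pk i j) j (some a) (Ne.symm (hpk i j).1) (hpk i j).2 h

end Pool.Agent.H318.BQ.T_LEA
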