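import Pool.Agent.H318.BQ.Stm
import Pool.Graph.R_seed8.Y721.BH.Letb

/-! # BQ, task LEB (helper735): linear combinations of words -/

set_option autoImplicit false

open scoped commutatorElement

namespace Pool.Agent.H318.BQ.T_LEB

open Y208.BH
open Pool.Agent.Y721.BH

/-- **linear combinations of words** -/
theorem t : Pool.Agent.H318.BQ.S_LEB := by
  intro M I Γ _ _ X hX
  classical
  have hex : ∀ i j : I, ∃ f : MonoidAlgebra (ZMod 2) M → Γ, i ≠ j →
      (∀ a b, f (a + b) = f a * f b) ∧ ∀ w, f (MonoidAlgebra.single w 1) = X i j w := by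
    intro i j
    by_cases h : i = j
    · exact ⟨fun _ => 1, fun h' => absurd h h'⟩
    · obtain ⟨f, hf⟩ := exists_lin (X i j) (fun w => hX.sq i j w h)
        (fun v w => hX.comm i j i j v w h h (Ne.symm h) h)
      exact ⟨f, fun _ => hf⟩
  choose x hx using hex
  have hadd : ∀ i j, i ≠ j → ∀ a b, x i j (a + b) = x i j a * x i j b :=
    fun i j h => (hx i j h).1
  have hsing : ∀ i j, i ≠ j → ∀ w, x i j (MonoidAlgebra.single w 1) = X i j w :=
    fun i j h => (hx i j h).2
  have hzero : ∀ i j, i ≠ j → x i j 0 = 1 := fun i j h => f_zero (hadd i j h)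
  have hcomm : ∀ i j k l, i ≠ j → k ≠ l → j ≠ k → i ≠ l → ∀ a b,
      Commute (x i j a) (x k l b) := by
    intro i j k l h1 h2 h3 h4 a
    induction a using induct with
    | h0 => intro b; rw [hzero i j h1]; exact Commute.one_left _
    | h2 a a' ha ha' => intro b; rw [hadd i j h1]; exact (ha b).mul_left (ha' b)
    | h1 v =>
      intro b
      rw [hsing i j h1]
      induction b using induct with
      | h0 => rw [hzero k l h2]; exact Commute.one_right _
      | h2 b b' hb hb' => rw [hadd k l h2]; exact hb.mul_right hb'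
      | h1 w => rw [hsing k l h2]; exact hX.comm i j k l v w h1 h2 h3 h4
  refine ⟨x, ⟨hadd, ?_, hcomm⟩, fun i j w h => ?_⟩
  · intro i j k h1 h2 h3 a
    induction a using induct with
    | h0 =>
      intro b
      rw [zero_mul, hzero i j h1, hzero i k h3, commutatorElement_one_left]
    | h2 a a' ha ha' =>
      intro b
      rw [hadd i j h1, add_mul, hadd i k h3, comm_left, ha b, ha' b]
      · rw [ha' b]
        exact hcomm i j i k h1 h3 h1.symm h3 _ _
      · rw [ha b, ha' b]
        exact hcomm i k i k h3 h3 h3.symm h3 _ _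
    | h1 v =>
      intro b
      induction b using induct with
      | h0 => rw [mul_zero, hzero j k h2, hzero i k h3, commutatorElement_one_right]
      | h2 b b' hb hb' =>
        rw [hadd j k h2, mul_add, hadd i k h3, comm_right, hb, hb']
        rw [hb']
        exact hcomm j k i k h2 h3 h3.symm h2 _ _
      | h1 w =>
        rw [hsing i j h1, hsing j k h2, hX.mul i j k v w h1 h2 h3, MonoidAlgebra.single_mul_single,
          one_mul, hsing i k h3]
  · rw [MonoidAlgebra.of_apply]
    exact hsing i j h w

end Pool.Agent.H318.BQ.T_LEB
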