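import Pool.Agent.H318.BQ.Stm

/-!
# Project BQ: task MTR (the matrix of the action on vectors)
-/

set_option autoImplicit false

namespace Pool.Agent.H318.BQ.T_MTR

open Y208.BH
open Pool.Agent.H318.BQ

section
variable {R I : Type} [Ring R] [Fintype I] [DecidableEq I]

theorem key (z : SU R I) : ∀ w : I →₀ R, (⇑(rho R R I z w) : I → R) = (mt R I z).val.mulVec ⇑w := by
  have hz : z ∈ Subgroup.closure {z : SU R I | ∃ (i j : I) (r : R), i ≠ j ∧ z = xs i j r} := by
    rw [closure_xs]
    exact Subgroup.mem_top z
  induction hz using Subgroup.closure_induction with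
  | mem x hx =>
    obtain ⟨i, j, r, h, rfl⟩ := hx
    intro w
    rw [rho_xs, mt_xs, tv_val h, el_apply h, Matrix.add_mulVec, Matrix.one_mulVec]
    funext k
    rw [Finsupp.coe_add, Pi.add_apply, Pi.add_apply]
    congr 1
    rw [Matrix.mulVec, dotProduct]
    by_cases hk : k = i
    · subst hk
      rw [Finsupp.single_eq_same, Finset.sum_eq_single j]
      · rw [Matrix.single_apply_same, smul_eq_mul]
      · intro l _ hl
        rw [Matrix.single_apply_of_ne _ _ _ _ _ (fun hh => hl hh.2.symm), zero_mul]
      · intro hj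
        exact absurd (Finset.mem_univ j) hj
    · rw [Finsupp.single_eq_of_ne hk]
      symm
      apply Finset.sum_eq_zero
      intro l _
      rw [Matrix.single_apply_of_ne _ _ _ _ _ (fun hh => hk hh.1.symm), zero_mul]
  | one =>
    intro w
    rw [map_one, map_one, Units.val_one, Matrix.one_mulVec]
    rfl
  | mul x y _ _ hx hy =>
    intro w
    rw [map_mul, map_mul, Equiv.Perm.mul_apply, hx, hy, Units.val_mul, Matrix.mulVec_mulVec]
  | inv x _ hx =>
    intro w
    have h1 := hx (rho R R I x⁻¹ w)
    have h0 : rho R R I x (rho R R I x⁻¹ w) = w := by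
      rw [← Equiv.Perm.mul_apply, ← map_mul, mul_inv_cancel, map_one]
      rfl
    rw [h0] at h1
    rw [map_inv (mt R I)]
    have h2 : ((mt R I x)⁻¹).val.mulVec ⇑w =
        ((mt R I x)⁻¹).val.mulVec ((mt R I x).val.mulVec ⇑(rho R R I x⁻¹ w)) := by
      rw [← h1]
    rw [h2, Matrix.mulVec_mulVec, Units.inv_mul, Matrix.one_mulVec]

theorem t : Pool.Agent.H318.BQ.S_MTR := by
  intro R I _ _ _ z
  constructor
  · intro h
    apply Equiv.ext
    intro w
    apply DFunLike.coe_injective
    rw [key z w, h, Units.val_one, Matrix.one_mulVec]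
    rfl
  · intro h
    apply Units.ext
    apply Matrix.ext
    intro i j
    have h1 := congrFun (key z (Finsupp.single j 1)) i
    rw [h] at h1
    have h2 : (mt R I z).val.mulVec ⇑(Finsupp.single j (1 : R)) i = (mt R I z).val i j := by
      rw [Matrix.mulVec, dotProduct, Finset.sum_eq_single j]
      · rw [Finsupp.single_eq_same, mul_one]
      · intro l _ hl
        rw [Finsupp.single_eq_of_ne hl, mul_zero]
      · intro hj
        exact absurd (Finset.mem_univ j) hj
    rw [h2] at h1
    rw [← h1, Units.val_one, Equiv.Perm.one_apply, Matrix.one_apply, Finsupp.single_apply]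
    by_cases hij : i = j
    · rw [if_pos hij, if_pos hij.symm]
    · rw [if_neg hij, if_neg (fun hh => hij hh.symm)]

end

end Pool.Agent.H318.BQ.T_MTR
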