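import Pool.Agent.H318.BQ.Stm
import Pool.Graph.R_seed8.Y455.BH.Cent

/-!
# Project BQ: task PKT
-/

set_option autoImplicit false

open scoped commutatorElement

namespace Pool.Agent.H318.BQ.T_PKT

open Y208.BH Pool.Agent.H318.BQ
open Pool.Agent.Y455.BH (xs_add xs_zero SJ exists_row exists_col act_SJ)

section
variable {R I : Type} [Ring R]

theorem io_xs (i j : I) (r : R) : io R I (xs i j r) = xs (some i) (some j) r :=
  mapSU_xs _ _ _ _ _ _

theorem io_mem (g : SU R I) : io R I g ∈ SJ R ({x | x ≠ none} : Set (Option I)) := by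
  have hg : g ∈ Subgroup.closure {z : SU R I | ∃ (i j : I) (r : R), i ≠ j ∧ z = xs i j r} := by
    rw [closure_xs]; exact Subgroup.mem_top g
  induction hg using Subgroup.closure_induction with
  | mem x hx =>
    obtain ⟨i, j, r, hij, rfl⟩ := hx
    rw [io_xs]
    exact Subgroup.subset_closure ⟨some i, some j, r, by simp, by simp, by simpa using hij, rfl⟩
  | one => rw [map_one]; exact Subgroup.one_mem _
  | mul x y _ _ hx hy => rw [map_mul]; exact Subgroup.mul_mem _ hx hy
  | inv x _ hx => rw [map_inv]; exact Subgroup.inv_mem _ hx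

/-- every element of `PP` is a product of a row element and an element of the small group -/
theorem dec {D : (Option I →₀ R) → SU R (Option I)} (hD : ∀ v w, D (v + w) = D v * D w)
    (hD1 : ∀ i r, D (Finsupp.single i r) = xs none i r) (hD0 : D 0 = 1) :
    ∀ p ∈ PP R I, ∃ (v : Option I →₀ R) (g : SU R I), p = D v * io R I g := by
  have hDn : ∀ v, D (-v) = (D v)⁻¹ := by
    intro v
    have h := hD (-v) v
    rw [neg_add_cancel, hD0] at h
    exact eq_inv_of_mul_eq_one_left h.symm
  obtain ⟨C, hC, hC1⟩ := exists_col (R := R) (I := Option I) none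
  have hcj : ∀ g : SU R I, ∃ φ : Equiv.Perm (Option I →₀ R),
      ∀ w, io R I g * D w * (io R I g)⁻¹ = D (φ w) := by
    intro g
    obtain ⟨-, φ, h2, -⟩ := act_SJ (m := none) (J := {x | x ≠ none}) (by simp) hC hC1 hD hD1
      (io_mem g)
    exact ⟨φ, h2⟩
  intro p hp
  unfold PP at hp
  induction hp using Subgroup.closure_induction with
  | mem x hx =>
    obtain ⟨i, j, r, hij, hj, rfl⟩ := hx
    cases i with
    | none => exact ⟨Finsupp.single j r, 1, by rw [hD1, map_one, mul_one]⟩
    | some i =>
      cases j with
      | none => exact absurd rfl hj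
      | some j => exact ⟨0, xs i j r, by rw [hD0, one_mul, io_xs]⟩
  | one => exact ⟨0, 1, by rw [hD0, map_one, one_mul]⟩
  | mul x y _ _ hx hy =>
    obtain ⟨v, g, rfl⟩ := hx
    obtain ⟨w, h, rfl⟩ := hy
    obtain ⟨φ, hφ⟩ := hcj g
    refine ⟨v + φ w, g * h, ?_⟩
    rw [hD, ← hφ, map_mul]
    group
  | inv x _ hx =>
    obtain ⟨v, g, rfl⟩ := hx
    obtain ⟨φ, hφ⟩ := hcj g⁻¹
    refine ⟨φ (-v), g⁻¹, ?_⟩
    rw [← hφ, hDn, map_inv]
    group

end

section
variable {R I : Type} [Ring R]

/-- the block matrix with blocks `1` and `M` -/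
def bE (M : Matrix I I R) : Matrix (Option I) (Option I) R := fun i j =>
  match i, j with
  | some i, some j => M i j
  | none, none => 1
  | none, some _ => 0
  | some _, none => 0

/-- the matrix with first row `v` -/
def bN (v : Option I →₀ R) : Matrix (Option I) (Option I) R := fun i j =>
  match i, j with
  | none, some j => v (some j)
  | none, none => 0
  | some _, _ => 0

theorem bE_one [DecidableEq I] : bE (1 : Matrix I I R) = 1 := by
  ext i j
  cases i <;> cases j <;> simp [bE, Matrix.one_apply]

theorem bE_mul [Fintype I] (M N : Matrix I I R) : bE (M * N) = bE M * bE N := by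
  ext i j
  cases i <;> cases j <;> simp [bE, Matrix.mul_apply, Fintype.sum_option]

theorem bN_mul [Fintype I] (v w : Option I →₀ R) : bN v * bN w = 0 := by
  ext i j
  cases i <;> cases j <;> simp [bN, Matrix.mul_apply, Fintype.sum_option]

theorem bN_add (v w : Option I →₀ R) : bN (v + w) = bN v + bN w := by
  ext i j
  cases i <;> cases j <;> simp [bN]

/-- the homomorphism of the block matrices -/
def bH [Fintype I] [DecidableEq I] : Matrix I I R →* Matrix (Option I) (Option I) R where
  toFun := bE
  map_one' := bE_one
  map_mul' := bE_mul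

theorem mt_io [Fintype I] [DecidableEq I] (g : SU R I) :
    (mt R (Option I) (io R I g)).val = bE (mt R I g).val := by
  have h : (mt R (Option I)).comp (io R I) = (Units.map bH).comp (mt R I) := by
    refine MonoidHom.eq_of_eqOn_dense (closure_xs R I) ?_
    rintro _ ⟨i, j, r, hij, rfl⟩
    apply Units.ext
    have hij' : (some i : Option I) ≠ some j := by simpa using hij
    rw [MonoidHom.comp_apply, MonoidHom.comp_apply, io_xs, mt_xs, mt_xs, Units.coe_map,
      tv_val hij', tv_val hij]
    show _ = bE _
    ext a b
    cases a <;> cases b <;> simp [bE, Matrix.single_apply, Matrix.one_apply]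
  have := DFunLike.congr_fun h g
  rw [MonoidHom.comp_apply, MonoidHom.comp_apply] at this
  rw [this, Units.coe_map]
  rfl

theorem mt_D [Fintype I] [DecidableEq I] {D : (Option I →₀ R) → SU R (Option I)}
    (hD : ∀ v w, D (v + w) = D v * D w)
    (hD1 : ∀ i r, D (Finsupp.single i r) = xs none i r) (hD0 : D 0 = 1) (v : Option I →₀ R) :
    (mt R (Option I) (D v)).val = 1 + bN v := by
  induction v using Finsupp.induction_linear with
  | zero =>
    rw [hD0, map_one, Units.val_one]
    ext a b
    cases a <;> cases b <;> simp [bN]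
  | add v w hv hw =>
    rw [hD, map_mul, Units.val_mul, hv, hw, bN_add, add_mul, mul_add, mul_add, bN_mul]
    simp only [one_mul, mul_one, add_zero]
    abel
  | single k a =>
    rw [hD1, mt_xs]
    cases k with
    | none =>
      rw [tv_self, Units.val_one]
      ext a b
      cases a <;> cases b <;> simp [bN]
    | some k =>
      rw [tv_val (by simp)]
      congr 1
      ext a b
      cases a <;> cases b <;> simp [bN, Matrix.single_apply, Finsupp.single_apply]

end

theorem t : Pool.Agent.H318.BQ.S_PKT := by
  classical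
  intro R I _ _ _ hI p hp h1
  obtain ⟨D, hD, hD1⟩ := exists_row (R := R) (I := Option I) none
  have hD0 : D 0 = 1 := by
    have := hD 0 0
    rw [add_zero] at this
    exact left_eq_mul.mp this
  obtain ⟨v, g, rfl⟩ := dec hD hD1 hD0 p hp
  have h2 : (1 + bN v) * bE (mt R I g).val = 1 := by
    rw [← mt_D hD hD1 hD0, ← mt_io, ← Units.val_mul, ← map_mul, h1, Units.val_one]
  have hM : mt R I g = 1 := by
    apply Units.ext
    ext i j
    have h3 := congrFun (congrFun h2 (some i)) (some j)
    rw [Matrix.mul_apply, Fintype.sum_option] at h3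
    simpa [bN, bE, Matrix.one_apply] using h3
  have hv : bN v = 0 := by
    rw [hM, Units.val_one, bE_one, mul_one] at h2
    exact add_eq_left.mp h2
  have hv' : v = Finsupp.single none (v none) := by
    ext j
    cases j with
    | none => simp
    | some j =>
      have := congrFun (congrFun hv none) (some j)
      simpa [bN] using this
  rw [hI g hM, hv', hD1, xs_self, mul_one]

end Pool.Agent.H318.BQ.T_PKT
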