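import Pool.Agent.H318.BQ.Stm

/-!
# Project BQ, task PTH
-/

set_option autoImplicit false

namespace Pool.Agent.H318.BQ.T_PTH

variable {T X : Type} [Group T] [MulAction T X]

/-- the element `t p w` with `p ∈ P` sends `x0` to `u` and lies in the coset of `y` -/
def L (P : Subgroup T) (x0 : X) (w t : T) (u : X) (y : T) : Prop :=
  ∃ p ∈ P, (t * p * w) • x0 = u ∧ (t * p * w)⁻¹ * y ∈ P

theorem L_uniq {P : Subgroup T} {x0 : X} {w : T} (hw : w * w = 1)
    (h4 : ∀ p ∈ P, p • (w • x0) = w • x0 → w * p * w ∈ P) {t : T} {u : X} {y y' : T}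
    (h : L P x0 w t u y) (h' : L P x0 w t u y') : y⁻¹ * y' ∈ P := by
  obtain ⟨p, hp, h1, h2⟩ := h
  obtain ⟨p', hp', h1', h2'⟩ := h'
  have hw' : w⁻¹ = w := inv_eq_of_mul_eq_one_left hw
  have h3 : (p⁻¹ * p') • (w • x0) = w • x0 := by
    rw [mul_assoc, mul_smul] at h1 h1'
    rw [← h1, smul_left_cancel_iff, mul_smul, mul_smul] at h1'
    rw [mul_smul, h1', inv_smul_smul]
  have h5 := h4 _ (P.mul_mem (P.inv_mem hp) hp') h3
  have h6 : y⁻¹ * y' = ((t * p * w)⁻¹ * y)⁻¹ * (w * (p⁻¹ * p') * w) * ((t * p' * w)⁻¹ * y') := by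
    have h7 : w * (p⁻¹ * p') * w = w⁻¹ * (p⁻¹ * p') * w := by rw [hw']
    rw [h7]
    group
  rw [h6]
  exact P.mul_mem (P.mul_mem (P.inv_mem h2) h5) h2'

theorem L_mul {P : Subgroup T} {x0 : X} {w t : T} {u : X} {y q : T} (hq : q ∈ P)
    (h : L P x0 w t u y) : L P x0 w (t * q) u y := by
  obtain ⟨p, hp, h1, h2⟩ := h
  have h3 : t * q * (q⁻¹ * p) * w = t * p * w := by group
  exact ⟨q⁻¹ * p, P.mul_mem (P.inv_mem hq) hp, by rw [h3]; exact h1, by rw [h3]; exact h2⟩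

theorem L_coset {P : Subgroup T} {x0 : X} {w t : T} {u : X} {y y' : T} (hy : y⁻¹ * y' ∈ P)
    (h : L P x0 w t u y) : L P x0 w t u y' := by
  obtain ⟨p, hp, h1, h2⟩ := h
  refine ⟨p, hp, h1, ?_⟩
  have h3 : (t * p * w)⁻¹ * y' = ((t * p * w)⁻¹ * y) * (y⁻¹ * y') := by group
  rw [h3]
  exact P.mul_mem h2 hy

theorem t : Pool.Agent.H318.BQ.S_PTH := by
  intro T X _ _ P x0 w Gen h1 hw h3 h4 h5 h6 s hs
  have hw' : w⁻¹ = w := inv_eq_of_mul_eq_one_left hw
  have key : ∀ t : T, ∃ l : List T, ∀ u : X, (∀ x ∈ l, Gen x u) →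
      ∃ y, L P x0 w 1 u y ∧ L P x0 w t u y := by
    have step : ∀ t : T, (∃ l : List T, ∀ u : X, (∀ x ∈ l, Gen x u) →
        ∃ y, L P x0 w 1 u y ∧ L P x0 w t u y) → ∀ x ∈ (P : Set T) ∪ {w},
        ∃ l : List T, ∀ u : X, (∀ x ∈ l, Gen x u) →
        ∃ y, L P x0 w 1 u y ∧ L P x0 w (t * x) u y := by
      rintro t ⟨l, hl⟩ x (hx | hx)
      · refine ⟨l, fun u hu => ?_⟩
        obtain ⟨y, hy1, hy2⟩ := hl u hu
        exact ⟨y, hy1, L_mul hx hy2⟩
      · rw [Set.mem_singleton_iff] at hx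
        subst hx
        refine ⟨t :: l, fun u hu => ?_⟩
        obtain ⟨y, hy1, hy2⟩ := hl u fun x hx => hu x (List.mem_cons_of_mem _ hx)
        obtain ⟨p, hp, p', hp', g1, g2, g3⟩ := h6 t u (hu t List.mem_cons_self)
        have e1 : L P x0 x t u (t * p * x) := ⟨p, hp, g1, by rw [inv_mul_cancel]; exact P.one_mem⟩
        have e2 : L P x0 x (t * x) u (t * p * x) := by
          refine ⟨p', hp', g2, ?_⟩
          have e3 : (t * x * p' * x)⁻¹ * (t * p * x) = ((p * x)⁻¹ * (x * p' * x))⁻¹ := by group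
          rw [e3]
          exact P.inv_mem g3
        exact ⟨y, hy1, L_coset (L_uniq hw h4 e1 hy2) e2⟩
    intro t
    have ht : t ∈ Subgroup.closure ((P : Set T) ∪ {w}) := by rw [h3]; exact Subgroup.mem_top _
    induction ht using Subgroup.closure_induction_right with
    | one =>
      refine ⟨[1], fun u hu => ?_⟩
      obtain ⟨p, hp, p', hp', g1, g2, g3⟩ := h6 1 u (hu 1 List.mem_cons_self)
      have e1 : L P x0 w 1 u (1 * p * w) := ⟨p, hp, g1, by rw [inv_mul_cancel]; exact P.one_mem⟩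
      exact ⟨_, e1, e1⟩
    | mul_right x hx y hy ih => exact step x ih y hy
    | mul_inv_cancel x hx y hy ih =>
      refine step x ih y⁻¹ ?_
      rcases hy with hy | hy
      · left; exact P.inv_mem hy
      · right
        rw [Set.mem_singleton_iff] at hy ⊢
        rw [hy, hw']
  obtain ⟨l, hl⟩ := key s
  obtain ⟨u, hu⟩ := h5 l
  obtain ⟨y, ⟨p, hp, g1, g2⟩, ⟨p', hp', g1', g2'⟩⟩ := hl u hu
  have hq : (1 * p * w)⁻¹ * (s * p' * w) ∈ P := by
    have e : (1 * p * w)⁻¹ * (s * p' * w) = ((1 * p * w)⁻¹ * y) * ((s * p' * w)⁻¹ * y)⁻¹ := by group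
    rw [e]
    exact P.mul_mem g2 (P.inv_mem g2')
  set q := (1 * p * w)⁻¹ * (s * p' * w) with hqd
  have hs2 : s = p * (w * q * w) * p'⁻¹ := by
    have e : p * (w * q * w) * p'⁻¹ = p * (w * q * w⁻¹) * p'⁻¹ := by rw [hw']
    rw [e, hqd]
    group
  have hpi : p'⁻¹ • x0 = x0 := h1 _ (P.inv_mem hp')
  have h7 : (w * q * w) • x0 = x0 := by
    have e := hs
    rw [hs2, mul_smul, hpi, mul_smul] at e
    have e2 : p⁻¹ • x0 = x0 := h1 _ (P.inv_mem hp)
    have e3 : (w * q * w) • x0 = p⁻¹ • (p • (w * q * w) • x0) := (inv_smul_smul _ _).symm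
    rw [e3, e, e2]
  have h8 : q • (w • x0) = w • x0 := by
    have e : w • (q • (w • x0)) = x0 := by rw [← mul_smul, ← mul_smul]; exact h7
    have e2 : q • (w • x0) = w⁻¹ • (w • (q • (w • x0))) := (inv_smul_smul _ _).symm
    rw [e2, e, hw']
  rw [hs2]
  exact P.mul_mem (P.mul_mem hp (h4 q hq h8)) (P.inv_mem hp')

end Pool.Agent.H318.BQ.T_PTH
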