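import Pool.Agent.H318.BQ.Stm

set_option autoImplicit false

/-!
# Project BQ, task QUF: quotients, finitely many indices
-/

open scoped commutatorElement

namespace Pool.Agent.H318.BQ.T_QUF

open Y208.BH

section Basic

variable {R I Γ : Type} [Ring R] [Group Γ] {x : I → I → R → Γ}

theorem x_zero (hx : St x) {i j : I} (h : i ≠ j) : x i j 0 = 1 := by
  have h1 := hx.add i j h 0 0
  rw [add_zero] at h1
  exact left_eq_mul.mp h1

theorem x_mul_r (hx : St x) {i j l : I} (hij : i ≠ j) (hil : i ≠ l) (hjl : j ≠ l) {a : R} (b : R)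
    (h : x i j a = 1) : x i l (a * b) = 1 := by
  rw [← hx.mul i j l hij hjl hil, h, commutatorElement_one_left]

theorem x_mul_l (hx : St x) {i l k : I} (hki : k ≠ i) (hil : i ≠ l) (hkl : k ≠ l) (a : R) {b : R}
    (h : x i l b = 1) : x k l (a * b) = 1 := by
  rw [← hx.mul k i l hki hil hkl, h, commutatorElement_one_right]

/-- there is an index outside of a small set -/
theorem ex_out [Finite I] (h8 : 8 ≤ Nat.card I) (s : Finset I) (hs : s.card ≤ 4) :
    ∃ m, m ∉ s := by
  classical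
  have hf : Fintype I := Fintype.ofFinite I
  by_contra hcon
  push Not at hcon
  have h1 : (Finset.univ : Finset I) ⊆ s := fun m _ => hcon m
  have h2 := Finset.card_le_card h1
  rw [Finset.card_univ, ← Nat.card_eq_fintype_card] at h2
  omega

theorem ex_out4 [Finite I] (h8 : 8 ≤ Nat.card I) (i j k l : I) :
    ∃ m, m ≠ i ∧ m ≠ j ∧ m ≠ k ∧ m ≠ l := by
  classical
  obtain ⟨m, hm⟩ := ex_out h8 ({i, j, k, l} : Finset I) Finset.card_le_four
  simp only [Finset.mem_insert, Finset.mem_singleton, not_or] at hm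
  exact ⟨m, hm⟩

/-- if `x i j t = 1` for one pair of different indices then for all pairs -/
theorem x_all [Finite I] (h8 : 8 ≤ Nat.card I) (hx : St x) {i j : I} (hij : i ≠ j) {t : R}
    (h : x i j t = 1) (k l : I) (hkl : k ≠ l) : x k l t = 1 := by
  classical
  obtain ⟨m, hmi, hmj, hmk, hml⟩ := ex_out4 h8 i j k l
  have h1 : x i m t = 1 := by
    have := x_mul_r hx hij (Ne.symm hmi) (Ne.symm hmj) 1 h
    rwa [mul_one] at this
  have h2 : x k m t = 1 := by
    by_cases hki : k = i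
    · rw [hki]
      exact h1
    · have := x_mul_l hx hki (Ne.symm hmi) (Ne.symm hmk) 1 h1
      rwa [one_mul] at this
  have := x_mul_r hx (Ne.symm hmk) hkl hml 1 h2
  rwa [mul_one] at this

/-- the elements with trivial image form an ideal -/
theorem x_span [Finite I] (h8 : 8 ≤ Nat.card I) (hx : St x) {T : Set R}
    (hT : ∀ t ∈ T, ∀ k l, k ≠ l → x k l t = 1)
    {r : R} (hr : r ∈ TwoSidedIdeal.span T) : ∀ k l, k ≠ l → x k l r = 1 := by
  classical
  have hfr : ∀ k l : I, ∃ m, m ≠ k ∧ m ≠ l := by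
    intro k l
    obtain ⟨m, hm1, hm2, _⟩ := ex_out4 h8 k l k l
    exact ⟨m, hm1, hm2⟩
  let N : TwoSidedIdeal R := TwoSidedIdeal.mk' {r | ∀ k l, k ≠ l → x k l r = 1}
    (fun k l h => x_zero hx h)
    (fun {a b} ha hb k l h => by
      rw [hx.add k l h, ha k l h, hb k l h, one_mul])
    (fun {a} ha k l h => by
      have h1 := hx.add k l h a (-a)
      rw [add_neg_cancel, x_zero hx h, ha k l h, one_mul] at h1
      exact h1.symm)
    (fun {a b} hb k l h => by
      obtain ⟨m, hk, hl⟩ := hfr k l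
      exact x_mul_l hx (Ne.symm hk) hl h a (hb m l hl))
    (fun {a b} ha k l h => by
      obtain ⟨m, hk, hl⟩ := hfr k l
      exact x_mul_r hx (Ne.symm hk) h hl b (ha k m (Ne.symm hk)))
  have h1 : TwoSidedIdeal.span T ≤ N := by
    rw [TwoSidedIdeal.span_le]
    intro t ht
    exact (TwoSidedIdeal.mem_mk' _ _ _ _ _ _ _).mpr (hT t ht)
  exact (TwoSidedIdeal.mem_mk' _ _ _ _ _ _ _).mp (h1 hr)

end Basic

theorem t : Pool.Agent.H318.BQ.S_QUF := by
  intro R₀ R I Γ _ _ _ _ h8 φ T x hφ hT hx hij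
  obtain ⟨i0, j0, hij, ht⟩ := hij
  have h1 : ∀ r, φ r = 0 → ∀ k l, k ≠ l → x k l r = 1 := fun r hr =>
    x_span h8 hx (fun t h k l hkl => x_all h8 hx hij (ht t h) k l hkl) (hT r hr)
  have h2 : ∀ r s, φ r = φ s → ∀ k l, k ≠ l → x k l r = x k l s := by
    intro r s hrs k l h
    have h3 := hx.add k l h s (r - s)
    rw [add_sub_cancel, h1 (r - s) (by rw [map_sub, hrs, sub_self]) k l h, mul_one] at h3
    exact h3
  have hinv : ∀ a, φ (Function.surjInv hφ a) = a := Function.surjInv_eq hφ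
  refine ⟨fun i j a => x i j (Function.surjInv hφ a), ⟨?_, ?_, ?_⟩, ?_⟩
  · intro i j h a b
    rw [← hx.add i j h]
    exact h2 _ _ (by rw [map_add, hinv, hinv, hinv]) i j h
  · intro i j k hij hjk hik a b
    rw [hx.mul i j k hij hjk hik]
    exact h2 _ _ (by rw [map_mul, hinv, hinv, hinv]) i k hik
  · intro i j k l h3 h4 h5 h6 a b
    exact hx.comm i j k l h3 h4 h5 h6 _ _
  · intro i j r h
    exact h2 _ _ (hinv _) i j h

end Pool.Agent.H318.BQ.T_QUF
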