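import Pool.Agent.H318.BQ.Stm
import Pool.Graph.R_seed8.Y455.BH.Cent

/-!
# Project BQ: TASK SIM
-/

set_option autoImplicit false

open scoped commutatorElement

namespace Pool.Agent.H318.BQ.T_SIM

open Y208.BH Pool.Agent.Y455.BH

section
variable {M : Type} [Ring M]

theorem rc0 (A C : M) (hA : A * A = 0) (hC : C * C = 0) (h : A * C * A = 0) :
    (1 + C) * (1 + A) * (1 - C) * (1 - A) = 1 + (C * A - A * C - C * A * C) := by
  have a1 : ∀ x, A * (A * x) = 0 := fun x => by rw [← mul_assoc, hA, zero_mul]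
  have a2 : ∀ x, C * (C * x) = 0 := fun x => by rw [← mul_assoc, hC, zero_mul]
  have a3 : A * (C * A) = 0 := by rw [← mul_assoc, h]
  have a4 : ∀ x, A * (C * (A * x)) = 0 := fun x => by
    rw [← mul_assoc, ← mul_assoc, h, zero_mul]
  simp only [mul_add, add_mul, mul_sub, sub_mul, mul_one, one_mul, mul_assoc, hA, hC, a1, a2, a3,
    a4, mul_zero, zero_mul]
  abel

theorem rc1 (A C : M) (hA : A * A = 0) (hC : C * C = 0) (h : A * C * A = 0) :
    (C * A - A * C - C * A * C) * (C * A - A * C - C * A * C) = 0 := by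
  have a1 : ∀ x, A * (A * x) = 0 := fun x => by rw [← mul_assoc, hA, zero_mul]
  have a2 : ∀ x, C * (C * x) = 0 := fun x => by rw [← mul_assoc, hC, zero_mul]
  have a3 : A * (C * A) = 0 := by rw [← mul_assoc, h]
  have a4 : ∀ x, A * (C * (A * x)) = 0 := fun x => by
    rw [← mul_assoc, ← mul_assoc, h, zero_mul]
  simp only [mul_sub, sub_mul, mul_assoc, hA, hC, a1, a2, a3,
    a4, mul_zero, zero_mul]
  abel

theorem rc2 (A C D : M) (hA : A * A = 0) (hC : C * C = 0) (h : A * C * A = 0)
    (hD : D * D = 0) (hCD : C * D = 0) (hDC : D * C = 0) (h' : A * D * A = 0) :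
    (1 + D) * (1 + (C * A - A * C - C * A * C)) * (1 - D) * (1 - (C * A - A * C - C * A * C)) =
      1 - D * A * C - C * A * D := by
  have a1 : ∀ x, A * (A * x) = 0 := fun x => by rw [← mul_assoc, hA, zero_mul]
  have a2 : ∀ x, C * (C * x) = 0 := fun x => by rw [← mul_assoc, hC, zero_mul]
  have a3 : A * (C * A) = 0 := by rw [← mul_assoc, h]
  have a4 : ∀ x, A * (C * (A * x)) = 0 := fun x => by
    rw [← mul_assoc, ← mul_assoc, h, zero_mul]
  have a5 : ∀ x, D * (D * x) = 0 := fun x => by rw [← mul_assoc, hD, zero_mul]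
  have a6 : ∀ x, C * (D * x) = 0 := fun x => by rw [← mul_assoc, hCD, zero_mul]
  have a7 : ∀ x, D * (C * x) = 0 := fun x => by rw [← mul_assoc, hDC, zero_mul]
  have a8 : A * (D * A) = 0 := by rw [← mul_assoc, h']
  have a9 : ∀ x, A * (D * (A * x)) = 0 := fun x => by
    rw [← mul_assoc, ← mul_assoc, h', zero_mul]
  simp only [mul_add, add_mul, mul_sub, sub_mul, mul_one, one_mul, mul_assoc, hA, hC, hD, hCD, hDC,
    a1, a2, a3, a4, a5, a6, a7, a8, a9, mul_zero, zero_mul]
  abel

end

/-- the existence of suitable entries -/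
theorem ent {R J : Type} [Ring R] [Fintype J] [DecidableEq J] (h8 : 8 ≤ Fintype.card J)
    (h1 : (1 : R) ≠ 0) (G G' : Matrix J J R) (hG : G * G' = 1) (hG' : G' * G = 1) (l m : J)
    (hlm : l ≠ m) (h : G' l m ≠ 0) :
    ∃ l m k r, l ≠ m ∧ k ≠ l ∧ r ≠ m ∧ G' l m ≠ 0 ∧ G r k ≠ 0 := by
  by_contra hc
  push Not at hc
  have hk : ∀ k, k ≠ l → G' k m ≠ 0 := by
    intro k hk h0
    have e : (G' * G) k k = 1 := by rw [hG', Matrix.one_apply_eq]
    rw [Matrix.mul_apply] at e
    apply h1
    rw [← e]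
    apply Finset.sum_eq_zero
    intro r _
    by_cases hr : r = m
    · rw [hr, h0, zero_mul]
    · rw [hc l m k r hlm hk hr h, mul_zero]
  obtain ⟨l1, hl1⟩ : ∃ l1, l1 ∉ ({l, m} : Finset J) := by
    by_contra hn
    push Not at hn
    have : Fintype.card J ≤ ({l, m} : Finset J).card := by
      rw [← Finset.card_univ]
      exact Finset.card_le_card fun x _ => hn x
    have h2 := Finset.card_le_two (a := l) (b := m)
    omega
  simp only [Finset.mem_insert, Finset.mem_singleton, not_or] at hl1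
  have e : (G * G') l l = 1 := by rw [hG, Matrix.one_apply_eq]
  rw [Matrix.mul_apply] at e
  apply h1
  rw [← e]
  apply Finset.sum_eq_zero
  intro k _
  by_cases hkl : k = l
  · subst hkl
    rw [hc l1 m k k hl1.2 (Ne.symm hl1.1) hlm (hk l1 hl1.1), zero_mul]
  · rw [hc l m k l hlm hkl hlm h, zero_mul]

/-- a matrix whose conjugates are diagonal is central -/
theorem off {R J : Type} [Ring R] [Fintype J] [DecidableEq J] (h8 : 8 ≤ Fintype.card J)
    (h1 : (1 : R) ≠ 0) (hct : CT R) (hinj : Function.Injective (mt R J)) (K : Subgroup (SU R J))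
    (hK : K.Normal) (hb : K ≠ ⊥) :
    ∃ z ∈ K, ∃ l m : J, l ≠ m ∧ ((mt R J z)⁻¹).val l m ≠ 0 := by
  by_contra hc
  push Not at hc
  obtain ⟨z, hz, hz1⟩ : ∃ z ∈ K, z ≠ 1 := by
    by_contra hn
    push Not at hn
    exact hb ((Subgroup.eq_bot_iff_forall K).mpr hn)
  have hJ : Nonempty J := Fintype.card_pos_iff.mp (by omega)
  obtain ⟨o⟩ := hJ
  have key : ∀ i j, i ≠ j → ∀ a, a * ((mt R J z)⁻¹).val j j = ((mt R J z)⁻¹).val i i * a := by
    intro i j hij a
    have h2 := hc _ (hK.conj_mem z hz (xs i j a)) i j hij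
    have e : (mt R J (xs i j a * z * (xs i j a)⁻¹))⁻¹ = tv i j a * (mt R J z)⁻¹ * (tv i j a)⁻¹ := by
      rw [map_mul, map_mul, map_inv, mt_xs]
      group
    rw [e, Units.val_mul, Units.val_mul, tv_val hij, tv_inv_val hij] at h2
    have h3 := hc z hz j i (Ne.symm hij)
    have h4 := hc z hz i j hij
    rw [mul_sub, mul_one, add_mul, one_mul, Matrix.sub_apply, Matrix.add_apply,
      Matrix.single_mul_apply_same, Matrix.mul_single_apply_same, Matrix.add_apply,
      Matrix.single_mul_apply_same, h3, h4, mul_zero, zero_add, add_zero, sub_eq_zero] at h2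
    exact h2
  have hd : ∀ i, ((mt R J z)⁻¹).val i i = ((mt R J z)⁻¹).val o o := by
    intro i
    by_cases hi : i = o
    · rw [hi]
    · have := key i o hi 1
      rw [one_mul, mul_one] at this
      exact this.symm
  obtain ⟨o', ho'⟩ : ∃ o' : J, o' ≠ o := by
    by_contra hn
    push Not at hn
    have : Fintype.card J ≤ 1 := by
      rw [Fintype.card_le_one_iff]
      intro a b
      rw [hn a, hn b]
    omega
  have hcen : ∀ a, ((mt R J z)⁻¹).val o o * a = a * ((mt R J z)⁻¹).val o o := by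
    intro a
    have := key o' o ho' a
    rw [hd o'] at this
    exact this.symm
  have hval : ∀ i j, ((mt R J z)⁻¹).val i j = if i = j then ((mt R J z)⁻¹).val o o else 0 := by
    intro i j
    by_cases hij : i = j
    · subst hij
      rw [if_pos rfl, hd]
    · rw [if_neg hij]
      exact hc z hz i j hij
  rcases hct _ hcen with h0 | h0
  · have e0 : ((mt R J z)⁻¹).val = 0 := by
      ext i j
      rw [hval, h0]
      simp
    have e1 : (mt R J z).val * ((mt R J z)⁻¹).val = 1 := Units.mul_inv _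
    rw [e0, mul_zero] at e1
    have e2 := congrFun (congrFun e1 o) o
    rw [Matrix.zero_apply, Matrix.one_apply_eq] at e2
    exact h1 e2.symm
  · have e0 : (mt R J z)⁻¹ = 1 := by
      apply Units.ext
      ext i j
      rw [hval, h0, Units.val_one, Matrix.one_apply]
    apply hz1
    apply hinj
    rw [map_one]
    exact inv_eq_one.mp e0

theorem t : Pool.Agent.H318.BQ.S_SIM := by
  intro R J _ _ _ h8 h1 hpi hgp hct hinj K hK hb
  obtain ⟨z, hz, l0, m0, hlm0, hg0⟩ := off h8 h1 hct hinj K hK hb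
  have hGG' : (mt R J z).val * ((mt R J z)⁻¹).val = 1 := Units.mul_inv _
  have hG'G : ((mt R J z)⁻¹).val * (mt R J z).val = 1 := Units.inv_mul _
  obtain ⟨l, m, k, r, hlm, hkl, hrm, hbe, hal⟩ := ent h8 h1 _ _ hGG' hG'G l0 m0 hlm0 hg0
  obtain ⟨q, hq⟩ : ∃ q, q ∉ ({m, k, r} : Finset J) := by
    by_contra hn
    push Not at hn
    have : Fintype.card J ≤ ({m, k, r} : Finset J).card := by
      rw [← Finset.card_univ]
      exact Finset.card_le_card fun x _ => hn x
    have h2 := Finset.card_le_three (a := m) (b := k) (c := r)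
    omega
  simp only [Finset.mem_insert, Finset.mem_singleton, not_or] at hq
  obtain ⟨hqm, hqk, hqr⟩ := hq
  obtain ⟨t, ht⟩ : ∃ t, t ∉ ({m, q, r} : Finset J) := by
    by_contra hn
    push Not at hn
    have : Fintype.card J ≤ ({m, q, r} : Finset J).card := by
      rw [← Finset.card_univ]
      exact Finset.card_le_card fun x _ => hn x
    have h2 := Finset.card_le_three (a := m) (b := q) (c := r)
    omega
  simp only [Finset.mem_insert, Finset.mem_singleton, not_or] at ht
  obtain ⟨htm, htq, htr⟩ := ht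
  obtain ⟨d, a1, hd⟩ := hpi _ hal
  obtain ⟨a2, c, hc⟩ := hpi _ hbe
  obtain ⟨G, hGdef⟩ : ∃ G : Matrix J J R, G = (mt R J z).val := ⟨_, rfl⟩
  obtain ⟨G', hG'def⟩ : ∃ G' : Matrix J J R, G' = ((mt R J z)⁻¹).val := ⟨_, rfl⟩
  rw [← hGdef] at hGG' hG'G hal hd
  rw [← hG'def] at hGG' hG'G hbe hc
  obtain ⟨b0, hb0, hb0'⟩ := hgp [a2 * (G' l m * c * G q k) * a1, a2 * (G' l m * d * G r k) * a1]
  have hb1 := hb0' _ (List.mem_cons_self)
  have hb2 := hb0' _ (List.mem_cons_of_mem _ (List.mem_cons_self))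
  obtain ⟨b, hbdef⟩ : ∃ b : R, b = a1 * b0 * a2 := ⟨_, rfl⟩
  have hx1 : b * (G' l m * c * G q k) * b = 0 := by
    calc b * (G' l m * c * G q k) * b
        = a1 * (b0 * (a2 * (G' l m * c * G q k) * a1) * b0) * a2 := by
          rw [hbdef]; simp only [mul_assoc]
      _ = 0 := by rw [hb1, mul_zero, zero_mul]
  have hx2 : b * (G' l m * d * G r k) * b = 0 := by
    calc b * (G' l m * d * G r k) * b
        = a1 * (b0 * (a2 * (G' l m * d * G r k) * a1) * b0) * a2 := by
          rw [hbdef]; simp only [mul_assoc]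
      _ = 0 := by rw [hb2, mul_zero, zero_mul]
  -- the matrices
  obtain ⟨A, hA⟩ : ∃ A : Matrix J J R, A = G * Matrix.single k l b * G' := ⟨_, rfl⟩
  obtain ⟨C, hC⟩ : ∃ C : Matrix J J R, C = Matrix.single m q c := ⟨_, rfl⟩
  obtain ⟨D, hD⟩ : ∃ D : Matrix J J R, D = Matrix.single m r d := ⟨_, rfl⟩
  have hAA : A * A = 0 := by
    calc A * A = G * (Matrix.single k l b * (G' * G) * Matrix.single k l b) * G' := by
          rw [hA]; simp only [mul_assoc]
      _ = 0 := by
          rw [hG'G, mul_one, Matrix.single_mul_single_of_ne _ _ _ _ (Ne.symm hkl), mul_zero,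
            zero_mul]
  have hCC : C * C = 0 := by
    rw [hC, Matrix.single_mul_single_of_ne _ _ _ _ hqm]
  have hDD : D * D = 0 := by
    rw [hD, Matrix.single_mul_single_of_ne _ _ _ _ hrm]
  have hCD : C * D = 0 := by
    rw [hC, hD, Matrix.single_mul_single_of_ne _ _ _ _ hqm]
  have hDC : D * C = 0 := by
    rw [hC, hD, Matrix.single_mul_single_of_ne _ _ _ _ hrm]
  have hACA : A * C * A = 0 := by
    calc A * C * A = G * ((Matrix.single k l b * G' * Matrix.single m q c) *
          (G * Matrix.single k l b)) * G' := by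
          rw [hA, hC]; simp only [mul_assoc]
      _ = G * (Matrix.single k q (b * G' l m * c) * G * Matrix.single k l b) * G' := by
          rw [Matrix.single_mul_mul_single]; simp only [mul_assoc]
      _ = 0 := by
          rw [Matrix.single_mul_mul_single]
          have : b * G' l m * c * G q k * b = 0 := by
            rw [← hx1]; simp only [mul_assoc]
          rw [this, Matrix.single_zero, mul_zero, zero_mul]
  have hADA : A * D * A = 0 := by
    calc A * D * A = G * ((Matrix.single k l b * G' * Matrix.single m r d) *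
          (G * Matrix.single k l b)) * G' := by
          rw [hA, hD]; simp only [mul_assoc]
      _ = G * (Matrix.single k r (b * G' l m * d) * G * Matrix.single k l b) * G' := by
          rw [Matrix.single_mul_mul_single]; simp only [mul_assoc]
      _ = 0 := by
          rw [Matrix.single_mul_mul_single]
          have : b * G' l m * d * G r k * b = 0 := by
            rw [← hx2]; simp only [mul_assoc]
          rw [this, Matrix.single_zero, mul_zero, zero_mul]
  -- the group elements
  have hY : mt R J (z * xs k l b * z⁻¹) = mt R J z * tv k l b * (mt R J z)⁻¹ := by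
    rw [map_mul, map_mul, map_inv, mt_xs]
  have hYv : (mt R J (z * xs k l b * z⁻¹)).val = 1 + A := by
    rw [hY, Units.val_mul, Units.val_mul, tv_val (hkl), ← hGdef, ← hG'def, mul_add, mul_one,
      add_mul, hGG', hA]
  have hYi : ((mt R J (z * xs k l b * z⁻¹))⁻¹).val = 1 - A := by
    have e : (mt R J z * tv k l b * (mt R J z)⁻¹)⁻¹ = mt R J z * (tv k l b)⁻¹ * (mt R J z)⁻¹ := by
      group
    rw [hY, e, Units.val_mul, Units.val_mul, tv_inv_val (hkl), ← hGdef, ← hG'def, mul_sub, mul_one,
      sub_mul, hGG', hA]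
  obtain ⟨h2, hh2⟩ : ∃ h2 : SU R J, h2 = ⁅(xs m q c : SU R J), z * xs k l b * z⁻¹⁆ := ⟨_, rfl⟩
  have hh2v : (mt R J h2).val = 1 + (C * A - A * C - C * A * C) := by
    rw [hh2, commutatorElement_def, map_mul, map_mul, map_mul, map_inv, map_inv _ (z * _ * _),
      mt_xs, Units.val_mul, Units.val_mul, Units.val_mul, hYv, hYi, tv_val (Ne.symm hqm),
      tv_inv_val (Ne.symm hqm), ← hC]
    exact rc0 A C hAA hCC hACA
  have hh2i : ((mt R J h2)⁻¹).val = 1 - (C * A - A * C - C * A * C) := by
    apply Units.inv_eq_of_mul_eq_one_right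
    rw [hh2v, mul_sub, mul_one, add_mul, one_mul, rc1 A C hAA hCC hACA]
    abel
  have hDAC : D * A * C = Matrix.single m q b0 := by
    calc D * A * C = Matrix.single m r d * G * Matrix.single k l b * G' * Matrix.single m q c := by
          rw [hD, hA, hC]; simp only [mul_assoc]
      _ = Matrix.single m q (d * G r k * b * G' l m * c) := by
          rw [Matrix.single_mul_mul_single, Matrix.single_mul_mul_single]
      _ = Matrix.single m q b0 := by
          have : d * G r k * b * G' l m * c = b0 := by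
            calc d * G r k * b * G' l m * c = (d * G r k * a1) * b0 * (a2 * G' l m * c) := by
                  rw [hbdef]; simp only [mul_assoc]
              _ = b0 := by rw [hd, hc, one_mul, mul_one]
          rw [this]
  obtain ⟨y, hy⟩ : ∃ y : R, y = c * G q k * b * G' l m * d := ⟨_, rfl⟩
  have hCAD : C * A * D = Matrix.single m r y := by
    calc C * A * D = Matrix.single m q c * G * Matrix.single k l b * G' * Matrix.single m r d := by
          rw [hD, hA, hC]; simp only [mul_assoc]
      _ = Matrix.single m r (c * G q k * b * G' l m * d) := by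
          rw [Matrix.single_mul_mul_single, Matrix.single_mul_mul_single]
      _ = _ := by rw [hy]
  have heq : ⁅(xs m r d : SU R J), h2⁆ = xs m q (-b0) * xs m r (-y) := by
    apply hinj
    apply Units.ext
    rw [commutatorElement_def, map_mul, map_mul, map_mul, map_inv, map_inv _ h2, mt_xs,
      Units.val_mul, Units.val_mul, Units.val_mul, hh2v, hh2i, tv_val (Ne.symm hrm),
      tv_inv_val (Ne.symm hrm), ← hD, rc2 A C D hAA hCC hACA hDD hCD hDC hADA, map_mul, mt_xs,
      mt_xs, Units.val_mul, tv_val (Ne.symm hqm), tv_val (Ne.symm hrm), hDAC, hCAD, mul_add,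
      mul_one, add_mul, one_mul, Matrix.single_mul_single_of_ne _ _ _ _ hqm, add_zero,
      ← Matrix.single_neg, ← Matrix.single_neg]
    abel
  -- membership
  have hm1 : h2 ∈ K := by
    have hcm : Commute (xs m q c : SU R J) (xs k l b) := xs_comm hqk (Ne.symm hlm) _ _
    have e : h2 = xs m q c * (z * (xs k l b * z⁻¹ * (xs k l b)⁻¹)) * (xs m q c)⁻¹ *
        (z * (xs k l b * z⁻¹ * (xs k l b)⁻¹))⁻¹ := by
      have e1 : xs k l b * (xs m q c)⁻¹ * (xs k l b)⁻¹ = (xs m q c : SU R J)⁻¹ := by
        have := (hcm.inv_left).eq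
        rw [← this]
        group
      calc h2 = xs m q c * z * xs k l b * z⁻¹ * (xs m q c)⁻¹ * z * (xs k l b)⁻¹ * z⁻¹ := by
            rw [hh2, commutatorElement_def]; group
        _ = xs m q c * z * xs k l b * z⁻¹ * (xs k l b)⁻¹ *
            (xs k l b * (xs m q c)⁻¹ * (xs k l b)⁻¹) * (xs k l b) * z * (xs k l b)⁻¹ * z⁻¹ := by
            group
        _ = _ := by rw [e1]; group
    have hw : z * (xs k l b * z⁻¹ * (xs k l b)⁻¹) ∈ K :=
      K.mul_mem hz (hK.conj_mem _ (K.inv_mem hz) _)
    rw [e]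
    exact K.mul_mem (hK.conj_mem _ hw _) (K.inv_mem hw)
  have hm2 : (xs m q (-b0) * xs m r (-y) : SU R J) ∈ K := by
    rw [← heq, commutatorElement_def]
    exact K.mul_mem (hK.conj_mem _ hm1 _) (K.inv_mem hm1)
  refine ⟨m, t, -b0, Ne.symm htm, neg_ne_zero.mpr hb0, ?_⟩
  have hcm2 : Commute (xs m r (-y) : SU R J) (xs q t 1) := xs_comm (Ne.symm hqr) (Ne.symm htm) _ _
  have e3 : (xs m t (-b0) : SU R J) = (xs m q (-b0) * xs m r (-y)) *
      (xs q t 1 * (xs m q (-b0) * xs m r (-y))⁻¹ * (xs q t 1)⁻¹) := by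
    have e1 : (xs m r (-y) : SU R J) * xs q t 1 * (xs m r (-y))⁻¹ = xs q t 1 := by
      rw [hcm2.eq]; group
    calc (xs m t (-b0) : SU R J) = ⁅(xs m q (-b0) : SU R J), xs q t 1⁆ := by
          rw [xs_mul (Ne.symm hqm) (Ne.symm htq) (Ne.symm htm), mul_one]
      _ = xs m q (-b0) * xs q t 1 * (xs m q (-b0))⁻¹ * (xs q t 1)⁻¹ := commutatorElement_def _ _
      _ = xs m q (-b0) * (xs m r (-y) * xs q t 1 * (xs m r (-y))⁻¹) * (xs m q (-b0))⁻¹ *
          (xs q t 1)⁻¹ := by rw [e1]
      _ = _ := by group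
  rw [e3]
  exact K.mul_mem hm2 (hK.conj_mem _ (K.inv_mem hm2) _)

end Pool.Agent.H318.BQ.T_SIM
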