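import Pool.Agent.H318.BQ.Stm

/-!
# Project BQ, task STB (helper385)
-/

set_option autoImplicit false

set_option linter.unusedSectionVars false

open scoped commutatorElement

namespace Pool.Agent.H318.BQ.T_STB

open Y208.BH Pool.Agent.H318.BQ

section

variable {R I : Type} [Ring R] [Fintype I] [DecidableEq I]

/-- block matrices with rows `a`, `b` above the block `h` -/
def blk (a b : I → R) (h : Matrix I I R) :
    Matrix (Option (Option I)) (Option (Option I)) R := Matrix.of fun i j =>
  match i, j with
  | none, none => 1
  | none, some none => 0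
  | none, some (some j) => a j
  | some none, none => 0
  | some none, some none => 1
  | some none, some (some j) => b j
  | some (some _), none => 0
  | some (some _), some none => 0
  | some (some i), some (some j) => h i j

theorem blk_mul (a b a' b' : I → R) (h h' : Matrix I I R) :
    blk a b h * blk a' b' h' =
      blk (a' + Matrix.vecMul a h') (b' + Matrix.vecMul b h') (h * h') := by
  ext i j
  rw [Matrix.mul_apply, Fintype.sum_option, Fintype.sum_option]
  rcases i with _ | _ | i <;> rcases j with _ | _ | j <;>
    simp [blk, Matrix.mul_apply, Matrix.vecMul, dotProduct]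

theorem blk_one : blk (0 : I → R) 0 1 = 1 := by
  ext i j
  rcases i with _ | _ | i <;> rcases j with _ | _ | j <;>
    simp [blk, Matrix.one_apply]

theorem tv_none (j : I) (r : R) :
    (tv none (some (some j)) r : (Matrix (Option (Option I)) (Option (Option I)) R)ˣ).val =
      blk (Pi.single j r) 0 1 := by
  rw [tv_val (by simp)]
  ext i k
  rcases i with _ | _ | i <;> rcases k with _ | _ | k <;>
    simp [blk, Matrix.one_apply, Matrix.single_apply, Pi.single_apply, eq_comm]

theorem tv_snone (j : I) (r : R) :
    (tv (some none) (some (some j)) r : (Matrix (Option (Option I)) (Option (Option I)) R)ˣ).val =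
      blk 0 (Pi.single j r) 1 := by
  rw [tv_val (by simp)]
  ext i k
  rcases i with _ | _ | i <;> rcases k with _ | _ | k <;>
    simp [blk, Matrix.one_apply, Matrix.single_apply, Pi.single_apply, eq_comm]

theorem tv_some {i j : I} (hij : i ≠ j) (r : R) :
    (tv (some (some i)) (some (some j)) r :
      (Matrix (Option (Option I)) (Option (Option I)) R)ˣ).val =
      blk 0 0 (1 + Matrix.single i j r) := by
  rw [tv_val (by simpa using hij)]
  ext i k
  rcases i with _ | _ | i <;> rcases k with _ | _ | k <;>
    simp [blk, Matrix.one_apply, Matrix.single_apply]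

/-- the block embedding -/
def B : (Matrix I I R)ˣ →* (Matrix (Option (Option I)) (Option (Option I)) R)ˣ :=
  Units.map
    { toFun := fun h => blk 0 0 h
      map_one' := blk_one
      map_mul' := fun h h' => by
        rw [blk_mul, Matrix.zero_vecMul, add_zero] }

theorem B_val (u : (Matrix I I R)ˣ) : (B u).val = blk 0 0 u.val := rfl

theorem io_io (z : SU R I) : mt R (Option (Option I)) (io R (Option I) (io R I z)) =
    B (mt R I z) := by
  have hz : z ∈ Subgroup.closure {z : SU R I | ∃ (i j : I) (r : R), i ≠ j ∧ z = xs i j r} := by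
    rw [closure_xs]
    exact Subgroup.mem_top z
  induction hz using Subgroup.closure_induction with
  | mem z hz =>
    obtain ⟨i, j, r, hij, rfl⟩ := hz
    rw [io, io, mapSU_xs, mapSU_xs, mt_xs, mt_xs]
    apply Units.ext
    rw [B_val, tv_val hij]
    exact tv_some hij r
  | one => rw [map_one, map_one, map_one, map_one, map_one]
  | mul x y _ _ hx hy => rw [map_mul, map_mul, map_mul, map_mul, map_mul, hx, hy]
  | inv x _ hx => rw [map_inv, map_inv, map_inv, map_inv, map_inv, hx]

theorem io_mem (z : SU R I) : io R (Option I) (io R I z) ∈ PQ R I := by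
  have hz : z ∈ Subgroup.closure {z : SU R I | ∃ (i j : I) (r : R), i ≠ j ∧ z = xs i j r} := by
    rw [closure_xs]
    exact Subgroup.mem_top z
  induction hz using Subgroup.closure_induction with
  | mem z hz =>
    obtain ⟨i, j, r, hij, rfl⟩ := hz
    rw [io, io, mapSU_xs, mapSU_xs]
    exact Subgroup.subset_closure ⟨some (some i), some (some j), r, by simpa using hij,
      by simp, by simp, rfl⟩
  | one =>
    rw [map_one, map_one]
    exact Subgroup.one_mem _
  | mul x y _ _ hx hy =>
    rw [map_mul, map_mul]
    exact Subgroup.mul_mem _ hx hy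
  | inv x _ hx =>
    rw [map_inv, map_inv]
    exact Subgroup.inv_mem _ hx

theorem row_a (a : I → R) (s : Finset I) : ∃ q ∈ PQ R I,
    (mt R (Option (Option I)) q).val = blk (∑ j ∈ s, Pi.single j (a j)) 0 1 := by
  induction s using Finset.induction_on with
  | empty =>
    refine ⟨1, Subgroup.one_mem _, ?_⟩
    rw [map_one, Finset.sum_empty, blk_one]
    rfl
  | insert j s hj ih =>
    obtain ⟨q, hq, hqv⟩ := ih
    refine ⟨q * xs none (some (some j)) (a j), Subgroup.mul_mem _ hq
      (Subgroup.subset_closure ⟨none, some (some j), a j, by simp, by simp, by simp, rfl⟩), ?_⟩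
    rw [map_mul, Units.val_mul, hqv, mt_xs, tv_none, blk_mul, Finset.sum_insert hj,
      Matrix.vecMul_one, Matrix.vecMul_one, mul_one, add_zero]

theorem row_b (a : I → R) (s : Finset I) : ∃ q ∈ PQ R I,
    (mt R (Option (Option I)) q).val = blk 0 (∑ j ∈ s, Pi.single j (a j)) 1 := by
  induction s using Finset.induction_on with
  | empty =>
    refine ⟨1, Subgroup.one_mem _, ?_⟩
    rw [map_one, Finset.sum_empty, blk_one]
    rfl
  | insert j s hj ih =>
    obtain ⟨q, hq, hqv⟩ := ih
    refine ⟨q * xs (some none) (some (some j)) (a j), Subgroup.mul_mem _ hq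
      (Subgroup.subset_closure ⟨some none, some (some j), a j, by simp, by simp, by simp, rfl⟩), ?_⟩
    rw [map_mul, Units.val_mul, hqv, mt_xs, tv_snone, blk_mul, Finset.sum_insert hj,
      Matrix.vecMul_one, Matrix.vecMul_one, mul_one, add_zero]

theorem eq_blk (g : Matrix (Option (Option I)) (Option (Option I)) R) (h0 : Fx g none)
    (h1 : Fx g (some none)) : g = blk (fun j => g none (some (some j)))
      (fun j => g (some none) (some (some j))) (fun i j => g (some (some i)) (some (some j))) := by
  ext i j
  rcases j with _ | _ | j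
  · rw [h0 i]
    rcases i with _ | _ | i <;> simp [blk]
  · rw [h1 i]
    rcases i with _ | _ | i <;> simp [blk]
  · rcases i with _ | _ | i <;> simp [blk]

theorem fx_inv (g : (Matrix (Option (Option I)) (Option (Option I)) R)ˣ)
    (j : Option (Option I)) (h : Fx g.val j) : Fx (g⁻¹).val j := by
  intro i
  have h1 : ((g⁻¹).val * g.val) i j = (g⁻¹).val i j := by
    rw [Matrix.mul_apply, Finset.sum_eq_single j]
    · rw [h j, if_pos rfl, mul_one]
    · intro k _ hk
      rw [h k, if_neg hk, mul_zero]
    · intro hj
      exact absurd (Finset.mem_univ j) hj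
  rw [← h1, Units.inv_mul, Matrix.one_apply]

end

theorem t : Pool.Agent.H318.BQ.S_STB := by
  intro R I _ _ _ hsurj g h0 h1
  have e := eq_blk g.val h0 h1
  have e' := eq_blk (g⁻¹).val (fx_inv g _ h0) (fx_inv g _ h1)
  set ra : I → R := fun j => g.val none (some (some j)) with hra
  set rb : I → R := fun j => g.val (some none) (some (some j)) with hrb
  set h : Matrix I I R := fun i j => g.val (some (some i)) (some (some j)) with hh
  set h' : Matrix I I R := fun i j => (g⁻¹).val (some (some i)) (some (some j)) with hh'
  have hl : ∀ {a b a' b' : I → R} {u u' : Matrix I I R}, blk a b u = blk a' b' u' → u = u' := by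
    intro a b a' b' u u' hu
    ext i j
    exact congrFun (congrFun hu (some (some i))) (some (some j))
  have hm : h * h' = 1 := by
    have h2 : g.val * (g⁻¹).val = 1 := Units.mul_inv g
    rw [e, e', blk_mul, ← blk_one] at h2
    exact hl h2
  have hm' : h' * h = 1 := by
    have h2 : (g⁻¹).val * g.val = 1 := Units.inv_mul g
    rw [e, e', blk_mul, ← blk_one] at h2
    exact hl h2
  obtain ⟨z, hz⟩ := hsurj ⟨h, h', hm, hm'⟩
  obtain ⟨q1, hq1, hv1⟩ := row_a (Matrix.vecMul ra h') Finset.univ
  obtain ⟨q2, hq2, hv2⟩ := row_b (Matrix.vecMul rb h') Finset.univ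
  refine ⟨q1 * q2 * io R (Option I) (io R I z), Subgroup.mul_mem _ (Subgroup.mul_mem _ hq1 hq2)
    (io_mem z), ?_⟩
  apply Units.ext
  rw [map_mul, map_mul, Units.val_mul, Units.val_mul, hv1, hv2, io_io, B_val, hz]
  rw [Finset.univ_sum_single, Finset.univ_sum_single, blk_mul, blk_mul, e]
  simp only [Matrix.vecMul_one, zero_add, add_zero, mul_one, one_mul]
  show blk (Matrix.vecMul (Matrix.vecMul ra h') h) (Matrix.vecMul (Matrix.vecMul rb h') h) h =
    blk ra rb h
  rw [Matrix.vecMul_vecMul, Matrix.vecMul_vecMul, hm', Matrix.vecMul_one, Matrix.vecMul_one]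

end Pool.Agent.H318.BQ.T_STB
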