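import Pool.Agent.H318.BQ.Stm
import Pool.Graph.R_seed8.Y455.BH.Basic

/-!
# Project BQ: SUM
-/

set_option autoImplicit false

open scoped commutatorElement

namespace Pool.Agent.H318.BQ.T_SUM

open Y208.BH Pool.Agent.Y455.BH

theorem t : Pool.Agent.H318.BQ.S_SUM := by
  classical
  intro R I _ hI f g h q hh hfg hgf hgq hqf z
  -- the generators commute
  have key : ∀ (i j k l : I) (a b : R), i ≠ j → k ≠ l →
      Commute (xs i j (f a) : SU R I) (xs k l (g b)) := by
    intro i j k l a b hij hkl
    by_cases h1 : j = k
    · subst h1
      by_cases h2 : i = l
      · subst h2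
        obtain ⟨m, hm1, hm2⟩ := hI i j
        have e : (xs j i (g b) : SU R I) = ⁅xs j m (g b), xs m i q⁆ := by
          rw [xs_mul (Ne.symm hm2) hm1 hkl, hgq]
        have c1 : Commute (xs i j (f a) : SU R I) (xs j m (g b)) := by
          rw [← commutatorElement_eq_one_iff_commute, xs_mul hij (Ne.symm hm2) (Ne.symm hm1), hfg,
            xs_zero]
        have c2 : Commute (xs i j (f a) : SU R I) (xs m i q) := by
          apply Commute.symm
          rw [← commutatorElement_eq_one_iff_commute, xs_mul hm1 hij hm2, hqf, xs_zero]
        rw [e, commutatorElement_def]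
        exact ((c1.mul_right c2).mul_right c1.inv_right).mul_right c2.inv_right
      · rw [← commutatorElement_eq_one_iff_commute, xs_mul hij hkl h2, hfg, xs_zero]
    · by_cases h2 : i = l
      · subst h2
        apply Commute.symm
        rw [← commutatorElement_eq_one_iff_commute, xs_mul hkl hij (Ne.symm h1), hgf, xs_zero]
      · exact xs_comm h1 h2 _ _
  have hcomm : ∀ z z' : SU R I, Commute (mapSU id Function.injective_id f z)
      (mapSU id Function.injective_id g z') := by
    intro z z'
    have hz : z ∈ Subgroup.closure {z : SU R I | ∃ (i j : I) (r : R), i ≠ j ∧ z = xs i j r} := by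
      rw [closure_xs]
      exact Subgroup.mem_top z
    have hz' : z' ∈ Subgroup.closure {z : SU R I | ∃ (i j : I) (r : R), i ≠ j ∧ z = xs i j r} := by
      rw [closure_xs]
      exact Subgroup.mem_top z'
    induction hz using Subgroup.closure_induction with
    | mem x hx =>
      obtain ⟨i, j, r, hij, rfl⟩ := hx
      induction hz' using Subgroup.closure_induction with
      | mem y hy =>
        obtain ⟨k, l, r', hkl, rfl⟩ := hy
        rw [mapSU_xs, mapSU_xs]
        exact key _ _ _ _ _ _ hij hkl
      | one => rw [map_one]; exact Commute.one_right _
      | mul x y _ _ hx hy => rw [map_mul]; exact hx.mul_right hy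
      | inv x _ hx => rw [map_inv]; exact hx.inv_right
    | one => rw [map_one]; exact Commute.one_left _
    | mul x y _ _ hx hy => rw [map_mul]; exact hx.mul_left hy
    | inv x _ hx => rw [map_inv]; exact hx.inv_left
  let P : SU R I →* SU R I :=
    { toFun := fun z => mapSU id Function.injective_id f z * mapSU id Function.injective_id g z
      map_one' := by rw [map_one, map_one, one_mul]
      map_mul' := fun x y => by
        rw [map_mul, map_mul]
        have := (hcomm y x).eq
        calc _ = mapSU id Function.injective_id f x * (mapSU id Function.injective_id f y *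
              mapSU id Function.injective_id g x) * mapSU id Function.injective_id g y := by
              group
          _ = _ := by rw [this]; group }
  have hP : mapSU id Function.injective_id h = P := by
    refine MonoidHom.eq_of_eqOn_dense (closure_xs R I) ?_
    rintro _ ⟨i, j, r, hij, rfl⟩
    show mapSU id Function.injective_id h (xs i j r) =
      mapSU id Function.injective_id f (xs i j r) * mapSU id Function.injective_id g (xs i j r)
    rw [mapSU_xs, mapSU_xs, mapSU_xs, hh]
    exact xs_add _ _ _ _
  exact DFunLike.congr_fun hP z

end Pool.Agent.H318.BQ.T_SUM
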