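import Pool.Agent.H318.BQ.Stm

set_option autoImplicit false

/-!
# Project BQ, task UNI: uniqueness (helper840 for helper318; after Pool.Graph.R_seed8.Y484.BH.UQ)
-/

open scoped commutatorElement

namespace Pool.Agent.H318.BQ.T_UNI

open Y208.BH

theorem x_zero {R I Γ : Type} [Ring R] [Group Γ] {x : I → I → R → Γ} (hx : St x) {i j : I} (h : i ≠ j) :
    x i j 0 = 1 := by
  have h1 := hx.add i j h 0 0
  rw [add_zero] at h1
  exact left_eq_mul.mp h1

/-- there is an index different from two given ones -/
theorem fresh {J : Type} [Finite J] (h8 : 8 ≤ Nat.card J) (i j : J) : ∃ m, m ≠ i ∧ m ≠ j := by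
  classical
  have : Fintype J := Fintype.ofFinite J
  by_contra hcon
  push Not at hcon
  have h1 : (Finset.univ : Finset J) ⊆ {i, j} := by
    intro m _
    rw [Finset.mem_insert, Finset.mem_singleton]
    by_cases hm : m = i
    · exact Or.inl hm
    · exact Or.inr (hcon m hm)
  have h2 := Finset.card_le_card h1
  have h3 : ({i, j} : Finset J).card ≤ 2 := Finset.card_le_two
  rw [Finset.card_univ] at h2
  rw [Nat.card_eq_fintype_card] at h8
  omega

theorem t : Pool.Agent.H318.BQ.S_UNI := by
  classical
  intro A J Γ _ _ h8 x x' hx hx' h1 ha i j r hij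
  have key : ∀ r : FreeAlgebra (ZMod 2) A, ∀ i j, i ≠ j → x i j r = x' i j r := by
    intro r
    induction r using FreeAlgebra.induction with
    | grade0 c =>
      intro i j h
      rcases (by decide : ∀ c : ZMod 2, c = 0 ∨ c = 1) c with rfl | rfl
      · rw [map_zero, x_zero hx h, x_zero hx' h]
      · rw [map_one]
        exact h1 i j h
    | grade1 a => exact fun i j h => ha i j a h
    | mul a b iha ihb =>
      intro i j h
      obtain ⟨m, hmi, hmj⟩ := fresh h8 i j
      rw [← hx.mul i m j (Ne.symm hmi) hmj h, ← hx'.mul i m j (Ne.symm hmi) hmj h,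
        iha i m (Ne.symm hmi), ihb m j hmj]
    | add a b iha ihb =>
      intro i j h
      rw [hx.add i j h, hx'.add i j h, iha i j h, ihb i j h]
  exact key r i j hij

end Pool.Agent.H318.BQ.T_UNI
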