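import Pool.Agent.H318.BQ.Stm
import Pool.Graph.R_seed8.Y455.BH.Conj

/-!
# Project BQ: the Weyl elements in characteristic two (WEY)
-/

set_option autoImplicit false

open scoped commutatorElement

namespace Pool.Agent.H318.BQ.T_WEY

open Y208.BH Pool.Agent.Y455.BH

section
variable {R J : Type} [Ring R]

theorem neg_one_eq (h2 : (2 : R) = 0) : (-1 : R) = 1 := by
  rw [neg_eq_iff_add_eq_zero, one_add_one_eq_two, h2]

theorem xx (h2 : (2 : R) = 0) (i j : J) (r : R) : (xs i j r : SU R J) * xs i j r = 1 := by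
  rw [← xs_add, ← two_mul, h2, zero_mul, xs_zero]

theorem ww (h2 : (2 : R) = 0) (a b : J) : (wy a b : SU R J) * wy a b = 1 := by
  unfold wy
  calc (xs a b 1 * xs b a 1 * xs a b 1 : SU R J) * (xs a b 1 * xs b a 1 * xs a b 1)
      = xs a b 1 * (xs b a 1 * (xs a b 1 * xs a b 1) * xs b a 1) * xs a b 1 := by group
    _ = 1 := by rw [xx h2, mul_one, xx h2, mul_one, xx h2]

theorem winv (h2 : (2 : R) = 0) (a b : J) : (wy a b : SU R J)⁻¹ = wy a b :=
  inv_eq_of_mul_eq_one_left (ww h2 a b)

theorem mm_wy (h2 : (2 : R) = 0) (a b : J) : (mm b a 1 1 : SU R J) = wy a b := by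
  unfold mm wy
  rw [neg_one_eq h2]

/-- `b` is moved to `a` -/
theorem w1 (h2 : (2 : R) = 0) {a b j : J} (hab : a ≠ b) (ha : j ≠ a) (hb : j ≠ b) (r : R) :
    (wy a b : SU R J) * xs b j r * wy a b = xs a j r := by
  have h := mm_left (R := R) (I := J) hab.symm hb ha (s := 1) (s' := 1) (y := r) (by simp)
  rw [mm_wy h2, winv h2, one_mul] at h
  exact h

theorem w2 (h2 : (2 : R) = 0) {a b j : J} (hab : a ≠ b) (ha : j ≠ a) (hb : j ≠ b) (r : R) :
    (wy a b : SU R J) * xs j b r * wy a b = xs j a r := by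
  have h := mm_right (R := R) (I := J) hab.symm hb ha (s := 1) (s' := 1) (y := r) (by simp)
  rw [mm_wy h2, winv h2, mul_one] at h
  exact h

theorem flip (h2 : (2 : R) = 0) {a b : J} {x y : SU R J}
    (h : (wy a b : SU R J) * x * wy a b = y) : (wy a b : SU R J) * y * wy a b = x := by
  rw [← h]
  calc (wy a b : SU R J) * (wy a b * x * wy a b) * wy a b
      = (wy a b * wy a b) * x * (wy a b * wy a b) := by group
    _ = x := by rw [ww h2, one_mul, mul_one]

theorem w3 (h2 : (2 : R) = 0) {a b i j : J} (hia : i ≠ a) (hib : i ≠ b) (hja : j ≠ a)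
    (hjb : j ≠ b) (r : R) : (wy a b : SU R J) * xs i j r * wy a b = xs i j r := by
  have h := mm_other (R := R) (I := J) (a := b) (b := a) hib hia hjb hja 1 1 r
  rw [mm_wy h2, winv h2] at h
  exact h

theorem wcomm (h2 : (2 : R) = 0) (a b : J) (x y : SU R J) :
    (wy a b : SU R J) * ⁅x, y⁆ * wy a b = ⁅wy a b * x * wy a b, wy a b * y * wy a b⁆ := by
  have h := winv h2 a b
  have e : ∀ z : SU R J, (wy a b : SU R J) * z * wy a b = wy a b * z * (wy a b)⁻¹ := by
    intro z
    rw [h]
  rw [e, e, e, commutatorElement_def, commutatorElement_def]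
  group

theorem w4 (h2 : (2 : R) = 0) {a b c : J} (hab : a ≠ b) (hca : c ≠ a) (hcb : c ≠ b) (r : R) :
    (wy a b : SU R J) * xs b a r * wy a b = xs a b r := by
  have e : (xs b a r : SU R J) = ⁅xs b c r, xs c a 1⁆ := by
    rw [xs_mul hcb.symm hca hab.symm, mul_one]
  have e' : (xs a b r : SU R J) = ⁅xs a c r, xs c b 1⁆ := by
    rw [xs_mul hca.symm hcb hab, mul_one]
  rw [e, e', wcomm h2, w1 h2 hab hca hcb, flip h2 (w2 h2 hab hca hcb 1)]

end

theorem t : Pool.Agent.H318.BQ.S_WEY := by
  intro R J _ _ h2 h3 a b hab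
  have main : ∀ a b : J, a ≠ b → ∀ (i j : J) (r : R), i ≠ j →
      (wy a b : SU R J) * xs i j r * wy a b =
        xs (Equiv.swap a b i) (Equiv.swap a b j) r := by
    intro a b hab i j r hij
    obtain ⟨c, hca, hcb⟩ := h3 a b
    by_cases hia : i = a
    · subst hia
      rw [Equiv.swap_apply_left]
      by_cases hjb : j = b
      · subst hjb
        rw [Equiv.swap_apply_right]
        exact flip h2 (w4 h2 hab hca hcb r)
      · rw [Equiv.swap_apply_of_ne_of_ne hij.symm hjb]
        exact flip h2 (w1 h2 hab hij.symm hjb r)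
    · by_cases hib : i = b
      · subst hib
        rw [Equiv.swap_apply_right]
        by_cases hja : j = a
        · subst hja
          rw [Equiv.swap_apply_left]
          exact w4 h2 hab hca hcb r
        · rw [Equiv.swap_apply_of_ne_of_ne hja hij.symm]
          exact w1 h2 hab hja hij.symm r
      · rw [Equiv.swap_apply_of_ne_of_ne hia hib]
        by_cases hja : j = a
        · subst hja
          rw [Equiv.swap_apply_left]
          exact flip h2 (w2 h2 hab hia hib r)
        · by_cases hjb : j = b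
          · subst hjb
            rw [Equiv.swap_apply_right]
            exact w2 h2 hab hia hib r
          · rw [Equiv.swap_apply_of_ne_of_ne hja hjb]
            exact w3 h2 hia hib hja hjb r
  have main' : ∀ a b : J, a ≠ b → ∀ i j : J, i ≠ j →
      (wy a b : SU R J) * wy i j * wy a b = wy (Equiv.swap a b i) (Equiv.swap a b j) := by
    intro a b hab i j hij
    have e : (wy a b : SU R J) * wy i j * wy a b =
        (wy a b * xs i j 1 * wy a b) * (wy a b * xs j i 1 * wy a b) *
          (wy a b * xs i j 1 * wy a b) := by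
      have h4 : (wy i j : SU R J) = xs i j 1 * xs j i 1 * xs i j 1 := rfl
      rw [h4]
      have h5 := ww h2 a b
      calc (wy a b : SU R J) * (xs i j 1 * xs j i 1 * xs i j 1) * wy a b
          = wy a b * xs i j 1 * 1 * xs j i 1 * 1 * xs i j 1 * wy a b := by group
        _ = wy a b * xs i j 1 * (wy a b * wy a b) * xs j i 1 * (wy a b * wy a b) * xs i j 1 *
            wy a b := by rw [h5]
        _ = _ := by group
    rw [e, main a b hab i j 1 hij, main a b hab j i 1 hij.symm]
    rfl
  refine ⟨ww h2 a b, main a b hab, fun c hca hcb => ⟨?_, ?_⟩⟩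
  · rw [main' a b hab b c hcb.symm, Equiv.swap_apply_right,
      Equiv.swap_apply_of_ne_of_ne hca hcb]
  · rw [main' b c hcb.symm a b hab, Equiv.swap_apply_left,
      Equiv.swap_apply_of_ne_of_ne hab hca.symm]

end Pool.Agent.H318.BQ.T_WEY
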