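import Pool.Agent.H318.BQ.Asm2
import Pool.Agent.H318.BQ.Asm4
import Pool.Agent.H318.BQ.T_MTR
import Pool.Agent.H318.BQ.T_CEN
import Pool.Agent.H318.BQ.T_CNJ
import Pool.Agent.H318.BQ.T_SUM
import Pool.Agent.H318.BQ.T_PKT
import Pool.Agent.H318.BQ.T_GLR
import Pool.Agent.H318.BQ.T_GLD
import Pool.Agent.H318.BQ.T_STB
import Pool.Agent.H318.BQ.T_COL
import Pool.Agent.H318.BQ.T_GPV
import Pool.Agent.H318.BQ.T_PTH
import Pool.Agent.H318.BQ.T_WEY
import Pool.Agent.H318.BQ.T_GEN
import Pool.Agent.H318.BQ.T_SPR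
import Pool.Agent.H318.BQ.T_SIM
import Pool.Agent.H318.BQ.T_LEA
import Pool.Agent.H318.BQ.T_LEB
import Pool.Agent.H318.BQ.T_UNI
import Pool.Agent.H318.BQ.T_QUF
import Pool.Agent.H318.BQ.T_FPF
import Pool.Agent.H318.WP.Conv

/-!
# Project BQ: the Boone-Higman conjecture

Every finitely generated group with computable word problem embeds in a finitely presented simple
group: the general linear group `GL(10, R)` over a purely infinite simple ring `R`.
-/

set_option autoImplicit false

open scoped commutatorElement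

namespace Pool.Agent.H318.BQ

open Y208.BH

theorem fpf : S_FPF := T_FPF.t (ltf T_LEA.t T_LEB.t) T_UNI.t T_QUF.t

/-- ten indices -/
abbrev J10 : Type := Option (Option (Fin 8))

theorem card10 : Fintype.card J10 = 10 := rfl

section
variable {R : Type} [Ring R]

theorem mt_inj (hR : Nice R) : Function.Injective (mt R J10) :=
  k2 T_MTR.t T_CEN.t T_CNJ.t T_SUM.t T_PKT.t T_GLR.t T_GLD.t T_STB.t T_COL.t T_GPV.t T_PTH.t
    T_WEY.t T_GEN.t R (Fin 8) hR (by decide)

theorem mt_surj (hR : Nice R) : Function.Surjective (mt R J10) :=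
  gle T_GLR.t T_GLD.t R J10 hR.sw hR.pi hR.nt (by decide)

theorem su_simple (hR : Nice R) : IsSimpleGroup (SU R J10) := by
  have hinj := mt_inj hR
  have hnt : Nontrivial (SU R J10) := by
    refine ⟨⟨xs none (some none) 1, 1, fun h => hR.nt ?_⟩⟩
    have h2 := congrArg (fun z => (mt R J10 z).val none (some none)) h
    simp only [mt_xs, map_one, Units.val_one] at h2
    rw [tv_val (by simp), Matrix.add_apply, Matrix.one_apply_ne (by simp),
      Matrix.single_apply_same, zero_add] at h2
    exact h2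
  refine { eq_bot_or_eq_top_of_normal := fun K hK => ?_ }
  by_cases hb : K = ⊥
  · exact Or.inl hb
  · right
    obtain ⟨i, j, r, hij, hr, hx⟩ := T_SIM.t R J10 (by decide) hR.nt hR.pi hR.gp hR.ct hinj K hK hb
    exact T_SPR.t R J10 (by rw [Nat.card_eq_fintype_card]; decide) K hK i j r hij hx (hR.pi r hr)

/-- the unit group embeds in the general linear group -/
theorem dD_inj : Function.Injective (dD (R := R) (I := J10) none) := by
  intro u v h
  have h2 := congrArg (fun g : (Matrix J10 J10 R)ˣ => g.val none none) h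
  simp only [dD, Matrix.diagonal_apply_eq, if_true] at h2
  exact Units.ext h2

theorem emb (hR : Nice R) : ∃ φ : Rˣ →* SU R J10, Function.Injective φ := by
  let E : SU R J10 ≃* (Matrix J10 J10 R)ˣ :=
    MulEquiv.ofBijective (mt R J10) ⟨mt_inj hR, mt_surj hR⟩
  refine ⟨E.symm.toMonoidHom.comp (MonoidHom.mk' (dD (R := R) (I := J10) none) (dD_mul none)), ?_⟩
  exact E.symm.injective.comp dD_inj

end

/-- every finitely generated group with computable word problem embeds in a finitely presented
simple group -/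
theorem boone_higman {n : ℕ} (rels : Set (FreeGroup (Fin n)))
    (hwp : ComputablePred (fun w : List (Fin n × Bool) =>
      PresentedGroup.mk rels (FreeGroup.mk w) = 1)) :
    ∃ (m : ℕ) (rels' : Finset (FreeGroup (Fin m)))
      (φ : PresentedGroup rels →* PresentedGroup (rels' : Set (FreeGroup (Fin m)))),
      IsSimpleGroup (PresentedGroup (rels' : Set (FreeGroup (Fin m)))) ∧ Function.Injective φ := by
  obtain ⟨R, _, _, hfp, hR, θ, hθ⟩ := rng n rels hwp
  have hFP : Group.IsFinitelyPresented (SU R J10) :=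
    fpf R J10 (by rw [Nat.card_eq_fintype_card]; decide) hfp
  obtain ⟨m, s, hs, ⟨E⟩⟩ := Group.IsFinitelyPresented.exists_mulEquiv_presentedGroup
    (G := SU R J10)
  obtain ⟨φ, hφ⟩ := emb hR
  obtain ⟨F, rfl⟩ : ∃ F : Finset (FreeGroup (Fin m)), (F : Set (FreeGroup (Fin m))) = s :=
    ⟨hs.toFinset, hs.coe_toFinset⟩
  have hsim := su_simple hR
  exact ⟨m, F, (E : SU R J10 →* _).comp (φ.comp θ),
    (MulEquiv.isSimpleGroup_congr E).1 hsim, E.injective.comp (hφ.comp hθ)⟩

/-- the converse -/
theorem converse {n : ℕ} (rels : Set (FreeGroup (Fin n)))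
    (h : ∃ (m : ℕ) (rels' : Finset (FreeGroup (Fin m)))
      (φ : PresentedGroup rels →* PresentedGroup (rels' : Set (FreeGroup (Fin m)))),
      IsSimpleGroup (PresentedGroup (rels' : Set (FreeGroup (Fin m)))) ∧ Function.Injective φ) :
    ComputablePred (fun w : List (Fin n × Bool) =>
      PresentedGroup.mk rels (FreeGroup.mk w) = 1) := by
  obtain ⟨m, rels', φ, hs, hφ⟩ := h
  refine Pool.Agent.H318.WP.wp_of_simpleNormal rels ⟨m, rels', φ, ⊤, inferInstance, ?_, hφ,
    fun _ => trivial⟩
  exact (MulEquiv.isSimpleGroup_congr Subgroup.topEquiv).2 hs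

end Pool.Agent.H318.BQ
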