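import Pool.Agent.H318.BQ.Defs
import Pool.Graph.R_seed8.Y208.LQ.Stm

/-!
# Project BQ: exact statements of the tasks
-/

set_option autoImplicit false

open scoped commutatorElement

namespace Pool.Agent.H318.BQ

open Y208.BH

/-- TASK MTR -/
def S_MTR : Prop := ∀ (R I : Type) [Ring R] [Fintype I] [DecidableEq I] (z : SU R I),
    mt R I z = 1 ↔ rho R R I z = 1

/-- TASK CEN -/
def S_CEN : Prop := ∀ (R I : Type) [Ring R] (z : SU R I), rho R R I z = 1 →
    ∀ y : SU R (Option I), Commute (io R I z) y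

/-- TASK CNJ -/
def S_CNJ : Prop := ∀ (R I : Type) [Ring R] [Finite I] (s s' : R) (f g : R →ₙ+* R),
    (∀ r, s' * s * f r = f r) → (∀ r, f r * (s' * s) = f r) → (∀ r, g r = s * f r * s') →
    ∀ z : SU R I, ∃ h : SU R (Option I),
      mapSU some (Option.some_injective I) g z =
        h * mapSU some (Option.some_injective I) f z * h⁻¹

/-- TASK SUM -/
def S_SUM : Prop := ∀ (R I : Type) [Ring R], (∀ i j : I, ∃ k, k ≠ i ∧ k ≠ j) →
    ∀ (f g h : R →ₙ+* R) (q : R),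
    (∀ a, h a = f a + g a) → (∀ a b, f a * g b = 0) → (∀ a b, g a * f b = 0) →
    (∀ a, g a * q = g a) → (∀ a, q * f a = 0) →
    ∀ z : SU R I, mapSU id Function.injective_id h z =
      mapSU id Function.injective_id f z * mapSU id Function.injective_id g z

/-- TASK PKT -/
def S_PKT : Prop := ∀ (R I : Type) [Ring R] [Fintype I] [DecidableEq I],
    (∀ z : SU R I, mt R I z = 1 → io R I z = 1) →
    ∀ p ∈ PP R I, mt R (Option I) p = 1 → p = 1

/-- TASK GLR -/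
def S_GLR : Prop := ∀ (R I : Type) [Ring R] [Fintype I] [DecidableEq I], PI R →
    (1 : R) ≠ 0 → 2 ≤ Fintype.card I → ∀ (i0 : I) (g : (Matrix I I R)ˣ),
    ∃ (z z' : SU R I) (u : Rˣ), mt R I z * g * mt R I z' = dD i0 u

/-- TASK GLD -/
def S_GLD : Prop := ∀ (R I : Type) [Ring R] [Fintype I] [DecidableEq I], SwR R →
    2 ≤ Fintype.card I → ∀ (i0 : I) (u : Rˣ), ∃ z : SU R I, mt R I z = dD i0 u

/-- the matrix fixes the basis vector `j` -/
def Fx {R I : Type} [Ring R] [DecidableEq I] (g : Matrix I I R) (j : I) : Prop :=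
  ∀ i, g i j = if i = j then 1 else 0

/-- TASK STB -/
def S_STB : Prop := ∀ (R I : Type) [Ring R] [Fintype I] [DecidableEq I],
    (∀ g : (Matrix I I R)ˣ, ∃ z : SU R I, mt R I z = g) →
    ∀ g : (Matrix (Option (Option I)) (Option (Option I)) R)ˣ, Fx g.val none →
      Fx g.val (some none) → ∃ q ∈ PQ R I, mt R (Option (Option I)) q = g

/-- TASK COL -/
def S_COL : Prop := ∀ (R I : Type) [Ring R] [Fintype I] [DecidableEq I] (i0 i1 : I), i0 ≠ i1 →
    ∀ (v : Option (Option I) → R), (∃ x, x * v (some (some i0)) = 1) →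
    ∃ q ∈ PQ R I, ∀ i, (mt R (Option (Option I)) q).val i (some (some i0)) = v i

/-- TASK GPV -/
def S_GPV : Prop := ∀ (R J : Type) [Ring R] [Fintype J] [Nonempty J], PI R → GP R → (1 : R) ≠ 0 →
    ∀ l : List (J → R), (∀ ρ ∈ l, ∃ y : J → R, ∑ j, ρ j * y j = 1) →
    ∃ u : J → R, ∀ ρ ∈ l, ∃ x : R, x * ∑ j, ρ j * u j = 1

/-- TASK PTH -/
def S_PTH : Prop := ∀ (T X : Type) [Group T] [MulAction T X] (P : Subgroup T) (x0 : X) (w : T)
    (Gen : T → X → Prop), (∀ p ∈ P, p • x0 = x0) → w * w = 1 →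
    Subgroup.closure ((P : Set T) ∪ {w}) = ⊤ →
    (∀ p ∈ P, p • (w • x0) = w • x0 → w * p * w ∈ P) →
    (∀ l : List T, ∃ u : X, ∀ t ∈ l, Gen t u) →
    (∀ t u, Gen t u → ∃ p ∈ P, ∃ p' ∈ P, (t * p * w) • x0 = u ∧ (t * w * p' * w) • x0 = u ∧
      (p * w)⁻¹ * (w * p' * w) ∈ P) →
    ∀ t : T, t • x0 = x0 → t ∈ P

/-- TASK WEY: the Weyl elements in characteristic two -/
def S_WEY : Prop := ∀ (R J : Type) [Ring R] [DecidableEq J], (2 : R) = 0 →
    (∀ i j : J, ∃ k, k ≠ i ∧ k ≠ j) →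
    ∀ a b : J, a ≠ b → (wy a b : SU R J) * wy a b = 1 ∧
      (∀ (i j : J) (r : R), i ≠ j →
        (wy a b : SU R J) * xs i j r * wy a b = xs (Equiv.swap a b i) (Equiv.swap a b j) r) ∧
      (∀ c : J, c ≠ a → c ≠ b → (wy a b : SU R J) * wy b c * wy a b = wy a c ∧
        (wy b c : SU R J) * wy a b * wy b c = wy a c)

/-- TASK GEN -/
def S_GEN : Prop := ∀ (R I : Type) [Ring R] [DecidableEq I], Nonempty I → (2 : R) = 0 →
    Subgroup.closure ((PP R (Option I) : Set (SU R (Option (Option I)))) ∪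
      {wy none (some none)}) = ⊤

/-- TASK SPR -/
def S_SPR : Prop := ∀ (R J : Type) [Ring R] [Finite J], 8 ≤ Nat.card J →
    ∀ K : Subgroup (SU R J), K.Normal → ∀ (i j : J) (r : R), i ≠ j → xs i j r ∈ K →
    (∃ x a, x * r * a = 1) → K = ⊤

/-- TASK SIM -/
def S_SIM : Prop := ∀ (R J : Type) [Ring R] [Fintype J] [DecidableEq J], 8 ≤ Fintype.card J →
    (1 : R) ≠ 0 → PI R → GP R → CT R → Function.Injective (mt R J) →
    ∀ K : Subgroup (SU R J), K.Normal → K ≠ ⊥ → ∃ (i j : J) (r : R), i ≠ j ∧ r ≠ 0 ∧ xs i j r ∈ K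

/-- TASK LEA -/
def S_LEA : Prop := ∀ (A J Γ : Type) [Finite J] [Group Γ], 8 ≤ Nat.card J →
    ∀ y : J → J → Option A → Γ, LetRel y →
    ∃ X : J → J → FreeMonoid A → Γ, WRel X ∧ (∀ i j, i ≠ j → X i j 1 = y i j none) ∧
      ∀ i j a, i ≠ j → X i j (FreeMonoid.of a) = y i j (some a)

/-- TASK LEB -/
def S_LEB : Prop := ∀ (M J Γ : Type) [Monoid M] [Group Γ] (X : J → J → M → Γ),
    WRel X → ∃ x : J → J → MonoidAlgebra (ZMod 2) M → Γ, St x ∧
      ∀ i j w, i ≠ j → x i j (MonoidAlgebra.of (ZMod 2) M w) = X i j w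

/-- TASK UNI -/
def S_UNI : Prop := ∀ (A J Γ : Type) [Finite J] [Group Γ], 8 ≤ Nat.card J →
    ∀ (x x' : J → J → FreeAlgebra (ZMod 2) A → Γ), St x → St x' →
    (∀ i j, i ≠ j → x i j 1 = x' i j 1) →
    (∀ i j a, i ≠ j → x i j (FreeAlgebra.ι (ZMod 2) a) = x' i j (FreeAlgebra.ι (ZMod 2) a)) →
    ∀ i j r, i ≠ j → x i j r = x' i j r

/-- TASK QUF -/
def S_QUF : Prop := ∀ (R₀ R J Γ : Type) [Ring R₀] [Ring R] [Finite J] [Group Γ], 8 ≤ Nat.card J →
    ∀ (φ : R₀ →+* R) (T : Set R₀) (x : J → J → R₀ → Γ), Function.Surjective φ →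
    (∀ r, φ r = 0 → r ∈ TwoSidedIdeal.span T) → St x →
    (∃ i j, i ≠ j ∧ ∀ t ∈ T, x i j t = 1) →
    ∃ x' : J → J → R → Γ, St x' ∧ ∀ i j r, i ≠ j → x' i j (φ r) = x i j r

/-- LETF (assembly of LEA and LEB) -/
def S_LTF : Prop := ∀ (A J Γ : Type) [Finite J] [Group Γ], 8 ≤ Nat.card J →
    ∀ y : J → J → Option A → Γ, LetRel y →
    ∃ x : J → J → FreeAlgebra (ZMod 2) A → Γ, St x ∧ (∀ i j, i ≠ j → x i j 1 = y i j none) ∧
      ∀ i j a, i ≠ j → x i j (FreeAlgebra.ι (ZMod 2) a) = y i j (some a)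

/-- TASK FPF -/
def S_FPF : Prop := ∀ (R J : Type) [Ring R] [Algebra (ZMod 2) R] [Finite J], 8 ≤ Nat.card J →
    FPA R → Group.IsFinitelyPresented (SU R J)

/-- Spanning: the ring `R` contains commuting copies of the ring `R₁` and of the Leavitt algebra,
and is generated by them. `mo` is the isometry of a word. -/
structure LvExt {R₁ R : Type} [Ring R₁] [Ring R] (ι : R₁ →+* R) (e e' : Bool → R) : Prop where
  inj : Function.Injective ι
  one : ∀ b, e' b * e b = 1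
  zero : ∀ b c, b ≠ c → e' b * e c = 0
  sum : e true * e' true + e false * e' false = 1
  cm : ∀ r b, ι r * e b = e b * ι r
  cm' : ∀ r b, ι r * e' b = e' b * ι r
  gen : Subring.closure (Set.range ι ∪ (Set.range e ∪ Set.range e')) = ⊤

/-- the isometry of a word -/
def mo {R : Type} [Ring R] (e : Bool → R) (w : List Bool) : R := (w.map e).prod

/-- the adjoint of the isometry of a word -/
def mo' {R : Type} [Ring R] (e' : Bool → R) (w : List Bool) : R := (w.reverse.map e').prod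

/-- TASK SPN: for each element `c` and all long words `ν` the element `c s_ν` is a combination of
`s_μ r`. -/
def S_SPN : Prop := ∀ (R₁ R : Type) [Ring R₁] [Ring R] (ι : R₁ →+* R) (e e' : Bool → R),
    LvExt ι e e' → ∀ c : R, ∃ N : ℕ, ∀ ν : List Bool, N ≤ ν.length →
      ∃ (F : Finset (List Bool)) (r : List Bool → R₁), c * mo e ν = ∑ μ ∈ F, mo e μ * ι (r μ)

/-- TASK RPI -/
def S_RPI : Prop := ∀ (R₁ R : Type) [Ring R₁] [IsSimpleRing R₁] [Ring R] (ι : R₁ →+* R)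
    (e e' : Bool → R), LvExt ι e e' → PI R

/-- TASK RGP -/
def S_RGP : Prop := ∀ (R₁ R : Type) [Ring R₁] [Nontrivial R₁] [Ring R] (ι : R₁ →+* R)
    (e e' : Bool → R), LvExt ι e e' → GP R

/-- TASK RCT -/
def S_RCT : Prop := ∀ (R₁ R : Type) [Ring R₁] [Nontrivial R₁] [Ring R] (ι : R₁ →+* R)
    (e e' : Bool → R), LvExt ι e e' → CT R₁ → CT R

/-- TASK LVA: the Leavitt algebra -/
def S_LVA : Prop := ∃ (L : Type) (_ : Ring L) (_ : Algebra (ZMod 2) L) (e e' : Bool → L),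
    Nontrivial L ∧ Pool.SF.FinPres (ZMod 2) L ∧ (∀ b, e' b * e b = 1) ∧
    (∀ b c, b ≠ c → e' b * e c = 0) ∧ e true * e' true + e false * e' false = 1 ∧
    Algebra.adjoin (ZMod 2) (Set.range e ∪ Set.range e') = ⊤

/-- TASK RNG (assembly) -/
def S_RNG : Prop := ∀ (n : ℕ) (rels : Set (FreeGroup (Fin n))),
    ComputablePred (fun w : List (Fin n × Bool) =>
      PresentedGroup.mk rels (FreeGroup.mk w) = 1) →
    ∃ (R : Type) (_ : Ring R) (_ : Algebra (ZMod 2) R), FPA R ∧ Nice R ∧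
      ∃ θ : PresentedGroup rels →* Rˣ, Function.Injective θ

end Pool.Agent.H318.BQ
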