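import Pool.Agent.H318.BQ.Stm

/-!
# Project BQ: a normal subgroup which contains one good elementary element is everything
-/

set_option autoImplicit false

open scoped commutatorElement

namespace Pool.Agent.H318.BQ.T_SPR

open Y208.BH

theorem comm_mem_left {G : Type} [Group G] {K : Subgroup G} (hK : K.Normal) {a : G} (b : G)
    (ha : a ∈ K) : ⁅a, b⁆ ∈ K := by
  rw [commutatorElement_def]
  have h : a * b * a⁻¹ * b⁻¹ = a * (b * a⁻¹ * b⁻¹) := by group
  rw [h]
  exact K.mul_mem ha (hK.conj_mem _ (K.inv_mem ha) b)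

theorem comm_mem_right {G : Type} [Group G] {K : Subgroup G} (hK : K.Normal) (a : G) {b : G}
    (hb : b ∈ K) : ⁅a, b⁆ ∈ K := by
  rw [commutatorElement_def]
  exact K.mul_mem (hK.conj_mem _ hb a) (K.inv_mem hb)

theorem fresh {J : Type} [Finite J] (hJ : 8 ≤ Nat.card J) (l : List J) (hl : l.length ≤ 7) :
    ∃ m, m ∉ l := by
  classical
  haveI := Fintype.ofFinite J
  by_contra hcon
  push Not at hcon
  have h1 : (Finset.univ : Finset J) ⊆ l.toFinset := fun m _ => by
    rw [List.mem_toFinset]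
    exact hcon m
  have h2 := Finset.card_le_card h1
  have h3 := List.toFinset_card_le l
  rw [Finset.card_univ, ← Nat.card_eq_fintype_card] at h2
  omega

theorem xs_mul {R I : Type} [Ring R] {i j k : I} (h1 : i ≠ j) (h2 : j ≠ k) (h3 : i ≠ k)
    (a b : R) : ⁅(xs i j a : SU R I), xs j k b⁆ = xs i k (a * b) :=
  (st_xs R I).mul i j k h1 h2 h3 a b

theorem spread {R J : Type} [Ring R] [Finite J] (hJ : 8 ≤ Nat.card J) {K : Subgroup (SU R J)}
    (hK : K.Normal) {i j : J} (hij : i ≠ j) {r : R} (h : xs i j r ∈ K) (b c : R) {i' j' : J}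
    (hij' : i' ≠ j') : xs i' j' (b * r * c) ∈ K := by
  obtain ⟨p, hp⟩ := fresh hJ [i, j, i', j'] (by simp)
  obtain ⟨q, hq⟩ := fresh hJ [i, j, i', j', p] (by simp)
  simp only [List.mem_cons, List.not_mem_nil, or_false, not_or] at hp hq
  obtain ⟨p1, p2, p3, p4⟩ := hp
  obtain ⟨q1, q2, q3, q4, q5⟩ := hq
  have h1 : xs p j (b * r) ∈ K := by
    rw [← xs_mul p1 hij p2]
    exact comm_mem_right hK _ h
  have h2 : xs p q (b * r * c) ∈ K := by
    rw [← xs_mul p2 (Ne.symm q2) (Ne.symm q5)]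
    exact comm_mem_left hK _ h1
  have h3 : xs i' q (b * r * c) ∈ K := by
    have := xs_mul (R := R) (Ne.symm p3) (Ne.symm q5) (Ne.symm q3) 1 (b * r * c)
    rw [one_mul] at this
    rw [← this]
    exact comm_mem_right hK _ h2
  have := xs_mul (R := R) (Ne.symm q3) q4 hij' (b * r * c) 1
  rw [mul_one] at this
  rw [← this]
  exact comm_mem_left hK _ h3

theorem t : Pool.Agent.H318.BQ.S_SPR := by
  intro R J _ _ hJ K hK i j r hij h hxa
  obtain ⟨x, a, hx⟩ := hxa
  rw [eq_top_iff, ← closure_xs R J, Subgroup.closure_le]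
  rintro z ⟨i', j', y, hij', rfl⟩
  have h1 := spread hJ hK hij h (y * x) a hij'
  have h2 : y * x * r * a = y := by
    rw [mul_assoc y x r, mul_assoc y, hx, mul_one]
  rw [h2] at h1
  exact h1

end Pool.Agent.H318.BQ.T_SPR
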